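import Pool.Agent.Y119.HA.Fin

/-!
# Finiteness of the algebraic points of bounded degree and height in a disc
-/

set_option autoImplicit false

open Pool.Agent.Y916.Al (Ht)

namespace Pool.Agent.Y119.HA

/-- **there are only finitely many algebraic numbers of bounded degree and height in a disc** -/
theorem ht_fin (g A B : ℕ) : {ξ : ℂ | 1 < ‖ξ‖ ∧ ‖ξ‖ ≤ B ∧ Ht g A ξ}.Finite := by
  have hU : (Set.Icc (-((B : ℤ) ^ A)) ((B : ℤ) ^ A)).Finite := Set.finite_Icc _ _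
  refine (Polynomial.bUnion_roots_finite (algebraMap ℤ ℂ) g hU).subset ?_
  rintro ξ ⟨h1, hB, p, hp, hdeg, hco, hr⟩
  rw [Set.mem_iUnion₂]
  refine ⟨p, ⟨hdeg, fun i => ?_⟩, ?_⟩
  · have h2 : |(p.coeff i : ℝ)| ≤ (B : ℝ) ^ A :=
      (hco i).trans (pow_le_pow_left₀ (norm_nonneg _) hB _)
    have h3 := abs_le.1 h2
    rw [Set.mem_Icc]
    constructor
    · exact_mod_cast h3.1
    · exact_mod_cast h3.2
  · have hne : p.map (algebraMap ℤ ℂ) ≠ 0 :=
      (Polynomial.map_ne_zero_iff (RingHom.injective_int (algebraMap ℤ ℂ))).2 hp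
    rw [Finset.mem_coe, Multiset.mem_toFinset, Polynomial.mem_roots hne, Polynomial.IsRoot.def, Polynomial.eval_map]
    exact hr

/-- the points with a property which fails near infinity -/
theorem finite_ht (g A t0 : ℕ) (P : ℂ → Prop) (hP : ∀ ξ : ℂ, (t0 : ℝ) ≤ ‖ξ‖ → Ht g A ξ → P ξ) :
    {ξ : ℂ | 1 < ‖ξ‖ ∧ Ht g A ξ ∧ ¬ P ξ}.Finite := by
  refine (ht_fin g A t0).subset ?_
  rintro ξ ⟨h1, h2, h3⟩
  refine ⟨h1, ?_, h2⟩
  by_contra hcon
  push Not at hcon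
  exact h3 (hP ξ hcon.le h2)

end Pool.Agent.Y119.HA
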