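import Pool.Agent.Y916.Af.Cnt
import Pool.Agent.Y916.Sl.Many

/-!
# From windows to counting for algebraic integers of bounded degree
-/

set_option autoImplicit false
set_option maxHeartbeats 400000

open Pool.Agent.Y916
open Pool.Agent.Y916.Al (Ht)

namespace Pool.Agent.Y119.HA

theorem aint_add {m : ℕ} {T : ℝ} {ξ : ℂ} (hξ : Sl.AInt m T ξ) (g : ℕ) : Sl.AInt m (T + g) (ξ + g) := by
  obtain ⟨f, h1, h2, h3, h4⟩ := hξ
  have hev : ∀ z : ℂ, Polynomial.aeval z (f.comp (Polynomial.X + Polynomial.C (-(g : ℤ)))) = Polynomial.aeval (z - g) f := by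
    intro z
    rw [Polynomial.aeval_comp]
    congr 1
    simp [sub_eq_add_neg]
  refine ⟨f.comp (Polynomial.X + Polynomial.C (-(g : ℤ))), h1.comp_X_add_C _, ?_, ?_, fun z hz => ?_⟩
  · rw [Polynomial.natDegree_comp, Polynomial.natDegree_X_add_C, mul_one, h2]
  · rw [hev, add_sub_cancel_right]
    exact h3
  · rw [hev] at hz
    have h5 := h4 _ hz
    have h6 := norm_sub_norm_le z (g : ℂ)
    rw [Complex.norm_natCast] at h6
    linarith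

theorem ht_aint {m T A : ℕ} {ξ : ℂ} (hξ : Sl.AInt m (T : ℝ) ξ) (hT : 1 ≤ T) (hA : 2 ^ m * (T : ℝ) ^ m ≤ ‖ξ‖ ^ A) :
    Ht m A ξ := by
  obtain ⟨f, h1, h2, h3, h4⟩ := hξ
  refine ⟨f, h1.ne_zero, h2.le, fun j => ?_, h3⟩
  have h5 := Sl.coeff_bound h1 h2 h4 j
  have h6 : |(f.coeff j : ℝ)| ≤ 2 ^ m * (T : ℝ) ^ (m - j) := by exact_mod_cast h5
  have h7 : (T : ℝ) ^ (m - j) ≤ (T : ℝ) ^ m := pow_le_pow_right₀ (by exact_mod_cast hT) (by omega)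
  exact h6.trans ((mul_le_mul_of_nonneg_left h7 (by positivity)).trans hA)

open Classical in
/-- few bad points -/
theorem bad_count (m G E M : ℕ) (hG : 1 ≤ G) :
    ∃ c : ℝ, 0 < c ∧ ∃ C : ℝ, 0 ≤ C ∧ ∀ Bd : ℂ → Prop,
      (∀ (H : ℕ) (ξ : ℂ), ((H : ℝ) + 2) ^ E ≤ ‖ξ‖ → Ht m (4 * m + 4) ξ → ∀ S : Finset ℕ,
        (∀ u ∈ S, 1 ≤ u ∧ u ≤ H ∧ Bd (ξ - ((G * u : ℕ) : ℂ))) → S.card ≤ M) →
      ∀ T : ℕ, 1 ≤ T → (((Sl.NF m T).filter fun ξ => Bd ξ).card : ℝ) ≤ C * (T : ℝ) ^ ((Sl.Mm m : ℝ) - c) := by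
  have hGR : (1 : ℝ) ≤ G := by exact_mod_cast hG
  set E' := E + 2 with hE'
  have hE'0 : (0 : ℝ) < E' := by positivity
  set ε : ℝ := 1 / (4 * E') with hε
  have hε0 : 0 < ε := by positivity
  have hε1 : ε ≤ 1 / 4 := by
    rw [hε]
    refine one_div_le_one_div_of_le (by norm_num) ?_
    have : (1 : ℝ) ≤ E' := by exact_mod_cast (by omega : 1 ≤ E')
    linarith
  set C₀ : ℝ := (3 * 2 ^ m) ^ m * m with hC₀
  have hC₀0 : 0 ≤ C₀ := by positivity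
  set T₀ : ℕ := (16 * G) ^ (4 * E') with hT₀
  have hT₀1 : (1 : ℝ) ≤ T₀ := by
    rw [hT₀]
    push_cast
    exact one_le_pow₀ (by linarith)
  refine ⟨ε, hε0, M * (C₀ * 2 ^ Sl.Mm m) + 4 * C₀ + C₀ * (T₀ : ℝ) ^ ε, by positivity, fun Bd hwin T hT => ?_⟩
  have hT1 : (1 : ℝ) ≤ T := by exact_mod_cast hT
  have hT0 : (0 : ℝ) < T := by linarith
  have hcardT := Sl.card_NF m T hT
  have hbase : 0 ≤ (T : ℝ) ^ ((Sl.Mm m : ℝ) - ε) := by positivity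
  rcases lt_or_ge T T₀ with hTT | hTT
  · have h1 : (((Sl.NF m T).filter fun ξ => Bd ξ).card : ℝ) ≤ C₀ * (T : ℝ) ^ Sl.Mm m :=
      le_trans (by exact_mod_cast Finset.card_filter_le _ _) hcardT
    refine h1.trans ?_
    have h2 : (T : ℝ) ^ Sl.Mm m = (T : ℝ) ^ ε * (T : ℝ) ^ ((Sl.Mm m : ℝ) - ε) := by
      rw [← Real.rpow_add hT0, ← Real.rpow_natCast]
      congr 1
      ring
    have h3 : (T : ℝ) ^ ε ≤ (T₀ : ℝ) ^ ε := Real.rpow_le_rpow hT0.le (by exact_mod_cast hTT.le) hε0.le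
    rw [h2]
    calc C₀ * ((T : ℝ) ^ ε * (T : ℝ) ^ ((Sl.Mm m : ℝ) - ε)) ≤ C₀ * ((T₀ : ℝ) ^ ε * (T : ℝ) ^ ((Sl.Mm m : ℝ) - ε)) :=
          mul_le_mul_of_nonneg_left (mul_le_mul_of_nonneg_right h3 hbase) hC₀0
      _ = (C₀ * (T₀ : ℝ) ^ ε) * (T : ℝ) ^ ((Sl.Mm m : ℝ) - ε) := by ring
      _ ≤ _ := mul_le_mul_of_nonneg_right (by
          have : 0 ≤ (M : ℝ) * (C₀ * 2 ^ Sl.Mm m) + 4 * C₀ := by positivity
          linarith) hbase
  -- the main case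
  set s : ℝ := (T : ℝ) ^ (1 / 2 : ℝ) with hs
  have hs0 : 0 < s := by positivity
  have hs1 : 1 ≤ s := Real.one_le_rpow hT1 (by norm_num)
  have hss : s * s = T := by
    rw [hs, ← Real.rpow_add hT0]
    norm_num
  set H : ℕ := ⌊(T : ℝ) ^ ε⌋₊ with hH
  have hTε1 : 1 ≤ (T : ℝ) ^ ε := Real.one_le_rpow hT1 hε0.le
  have hHT : (H : ℝ) ≤ (T : ℝ) ^ ε := Nat.floor_le (by positivity)
  have hH0 : (0 : ℝ) ≤ H := Nat.cast_nonneg H
  have hH2 : (4 * (G : ℝ) * ((H : ℝ) + 3)) ^ E' ≤ s := by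
    have h1 : 4 * (G : ℝ) * ((H : ℝ) + 3) ≤ (16 * G) * (T : ℝ) ^ ε := by nlinarith
    have h2 : ((16 : ℝ) * G) ^ E' ≤ (T : ℝ) ^ (1 / 4 : ℝ) := by
      have h3 : (((16 : ℝ) * G) ^ E') = (((16 : ℝ) * G) ^ (4 * E')) ^ (1 / 4 : ℝ) := by
        rw [← Real.rpow_natCast, ← Real.rpow_natCast, ← Real.rpow_mul (by positivity)]
        congr 1
        push_cast
        ring
      rw [h3]
      refine Real.rpow_le_rpow (by positivity) ?_ (by norm_num)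
      have h4 : ((T₀ : ℕ) : ℝ) ≤ T := by exact_mod_cast hTT
      rw [hT₀] at h4
      push_cast at h4
      exact h4
    calc (4 * (G : ℝ) * ((H : ℝ) + 3)) ^ E' ≤ ((16 * G) * (T : ℝ) ^ ε) ^ E' := pow_le_pow_left₀ (by positivity) h1 _
      _ = (16 * G) ^ E' * ((T : ℝ) ^ ε) ^ E' := by rw [mul_pow]
      _ = (16 * G) ^ E' * (T : ℝ) ^ (1 / 4 : ℝ) := by
          rw [← Real.rpow_natCast ((T : ℝ) ^ ε) E', ← Real.rpow_mul hT0.le]
          congr 2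
          rw [hε]
          field_simp
      _ ≤ (T : ℝ) ^ (1 / 4 : ℝ) * (T : ℝ) ^ (1 / 4 : ℝ) := mul_le_mul_of_nonneg_right h2 (by positivity)
      _ = s := by
          rw [hs, ← Real.rpow_add hT0]
          norm_num
  have hGH1 : 1 ≤ 4 * (G : ℝ) * ((H : ℝ) + 3) := by nlinarith
  have hGHs : 4 * (G : ℝ) * ((H : ℝ) + 3) ≤ s := (le_self_pow₀ hGH1 (by omega)).trans hH2
  have hHs : ((G * H : ℕ) : ℝ) ≤ s := by
    push_cast
    nlinarith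
  have hHE : 2 * ((H : ℝ) + 3) ^ E ≤ s := by
    refine le_trans ?_ hH2
    have h0 : (H : ℝ) + 3 ≤ 4 * (G : ℝ) * ((H : ℝ) + 3) := by nlinarith
    have h1 : ((H : ℝ) + 3) ^ E ≤ (4 * (G : ℝ) * ((H : ℝ) + 3)) ^ E := pow_le_pow_left₀ (by positivity) h0 _
    have h2 : (2 : ℝ) ≤ (4 * (G : ℝ) * ((H : ℝ) + 3)) ^ 2 := by nlinarith
    rw [hE', pow_add, mul_comm]
    exact mul_le_mul h1 h2 (by norm_num) (by positivity)
  have hs12 : 12 ≤ s := by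
    refine le_trans ?_ hGHs
    nlinarith
  have hsT : s ≤ T := by nlinarith
  have hHTn : G * H ≤ T := by exact_mod_cast hHs.trans hsT
  have hT96 : (96 : ℝ) ≤ T := by nlinarith
  have hdc := Af.double_countG m G Bd M H T s hHTn hHs (by
    intro ξ hξ hsξ S hS
    set ξ' : ℂ := ξ + ((G * (H + 1) : ℕ) : ℂ) with hξ'
    have hGH2 : ((G * (H + 1) : ℕ) : ℝ) ≤ s / 4 := by
      push_cast
      nlinarith
    have hn : s / 2 ≤ ‖ξ'‖ := by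
      have h1 := norm_sub_norm_le ξ (-((G * (H + 1) : ℕ) : ℂ))
      rw [norm_neg, Complex.norm_natCast, sub_neg_eq_add] at h1
      linarith
    have hA1 : Sl.AInt m ((3 * T : ℕ) : ℝ) ξ' := by
      refine (aint_add hξ (G * (H + 1))).mono ?_
      push_cast at hGH2 ⊢
      linarith
    have hA2 : Ht m (4 * m + 4) ξ' := by
      refine ht_aint hA1 (by omega) ?_
      have h1 : (6 : ℝ) * T ≤ ((T : ℝ) / 4) ^ 2 := by nlinarith
      have h2 : (1 : ℝ) ≤ ((T : ℝ) / 4) ^ 2 := by nlinarith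
      have h3 : ((T : ℝ) / 4) ^ 2 = (s / 2) ^ 4 := by
        rw [← hss]
        ring
      calc 2 ^ m * (((3 * T : ℕ) : ℝ)) ^ m = (6 * (T : ℝ)) ^ m := by
            push_cast
            rw [← mul_pow]
            ring
        _ ≤ (((T : ℝ) / 4) ^ 2) ^ m := pow_le_pow_left₀ (by positivity) h1 _
        _ ≤ (((T : ℝ) / 4) ^ 2) ^ (m + 1) := pow_le_pow_right₀ h2 (by omega)
        _ = (s / 2) ^ (4 * m + 4) := by
            rw [h3, ← pow_mul, Nat.mul_add, Nat.mul_one]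
        _ ≤ ‖ξ'‖ ^ (4 * m + 4) := pow_le_pow_left₀ (by positivity) hn _
    have hinj : Set.InjOn (fun g : ℕ => H + 1 - g) (S : Set ℕ) := by
      intro a ha b hb hab
      have h1 := (hS a ha).1
      have h2 := (hS b hb).1
      have h3 : H + 1 - a = H + 1 - b := hab
      omega
    have hcard : (S.image fun g : ℕ => H + 1 - g).card = S.card := Finset.card_image_of_injOn hinj
    rw [← hcard]
    refine hwin (H + 1) ξ' ?_ hA2 _ ?_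
    · have h1 : (((H + 1 : ℕ) : ℝ) + 2) = (H : ℝ) + 3 := by
        push_cast
        ring
      rw [h1]
      linarith
    · intro u hu
      obtain ⟨g, hg, rfl⟩ := Finset.mem_image.1 hu
      obtain ⟨h1, h2⟩ := hS g hg
      refine ⟨by omega, by omega, ?_⟩
      have h3 : ξ' - ((G * (H + 1 - g) : ℕ) : ℂ) = ξ + ((G * g : ℕ) : ℂ) := by
        rw [hξ']
        have h4 : G * (H + 1) = G * (H + 1 - g) + G * g := by
          rw [← Nat.mul_add]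
          congr 1
          omega
        rw [h4]
        push_cast
        ring
      rw [h3]
      exact h2)
  -- the large points
  set L := (Sl.NF m T).filter fun ξ => Bd ξ ∧ 2 * s ≤ ‖ξ‖ with hL
  have hLc : (L.card : ℝ) ≤ M * (C₀ * 2 ^ Sl.Mm m) * (T : ℝ) ^ ((Sl.Mm m : ℝ) - ε) := by
    have h1 : (L.card : ℝ) * ((H : ℝ) + 1) ≤ M * ((Sl.NF m (2 * T)).card : ℝ) := by exact_mod_cast hdc
    have h2 : (T : ℝ) ^ ε ≤ (H : ℝ) + 1 := (Nat.lt_floor_add_one _).le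
    have h3 := Sl.card_NF m (2 * T) (by omega)
    have h4 : (L.card : ℝ) * (T : ℝ) ^ ε ≤ M * (C₀ * 2 ^ Sl.Mm m) * (T : ℝ) ^ Sl.Mm m := by
      calc (L.card : ℝ) * (T : ℝ) ^ ε ≤ (L.card : ℝ) * ((H : ℝ) + 1) := mul_le_mul_of_nonneg_left h2 (Nat.cast_nonneg _)
        _ ≤ M * ((Sl.NF m (2 * T)).card : ℝ) := h1
        _ ≤ M * (C₀ * ((2 * T : ℕ) : ℝ) ^ Sl.Mm m) := mul_le_mul_of_nonneg_left h3 (Nat.cast_nonneg _)
        _ = _ := by push_cast; rw [mul_pow]; ring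
    have h5 : (T : ℝ) ^ ((Sl.Mm m : ℝ) - ε) = (T : ℝ) ^ Sl.Mm m / (T : ℝ) ^ ε := by
      rw [Real.rpow_sub hT0, Real.rpow_natCast]
    rw [h5, ← mul_div_assoc, le_div_iff₀ (by positivity)]
    exact h4
  -- the small points
  set B : ℕ := ⌈2 * s⌉₊ with hB
  have hB1 : 1 ≤ B := Nat.one_le_ceil_iff.2 (by linarith)
  have hBs : (B : ℝ) ≤ 4 * s := by
    have h1 := Nat.ceil_lt_add_one (show (0 : ℝ) ≤ 2 * s by linarith)
    have h2 : (B : ℝ) < 2 * s + 1 := h1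
    linarith
  set Sm := (Sl.NF m T).filter fun ξ => ‖ξ‖ ≤ B with hSm
  have hSc : (Sm.card : ℝ) ≤ 4 * C₀ * (T : ℝ) ^ ((Sl.Mm m : ℝ) - ε) := by
    have h1 := Sl.card_small m T B hT hB1
    have h2 : (Sm.card : ℝ) * T ≤ C₀ * (4 * s) * (T : ℝ) ^ Sl.Mm m := by
      refine h1.trans ?_
      refine mul_le_mul_of_nonneg_right ?_ (by positivity)
      exact mul_le_mul_of_nonneg_left hBs hC₀0
    have h3 : (Sm.card : ℝ) * s ≤ 4 * C₀ * (T : ℝ) ^ Sl.Mm m := by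
      rw [← hss] at h2
      have h4 : (Sm.card : ℝ) * s * s ≤ 4 * C₀ * (s * s) ^ Sl.Mm m * s := by
        calc (Sm.card : ℝ) * s * s = (Sm.card : ℝ) * (s * s) := by ring
          _ ≤ C₀ * (4 * s) * (s * s) ^ Sl.Mm m := h2
          _ = _ := by ring
      have h5 := le_of_mul_le_mul_right h4 hs0
      rw [hss] at h5
      exact h5
    have h5 : (T : ℝ) ^ ((Sl.Mm m : ℝ) - ε) = (T : ℝ) ^ Sl.Mm m / (T : ℝ) ^ ε := by
      rw [Real.rpow_sub hT0, Real.rpow_natCast]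
    rw [h5, ← mul_div_assoc, le_div_iff₀ (by positivity)]
    refine le_trans ?_ h3
    refine mul_le_mul_of_nonneg_left ?_ (Nat.cast_nonneg _)
    rw [hs]
    exact Real.rpow_le_rpow_of_exponent_le hT1 (by linarith)
  have hcov : (Sl.NF m T).filter (fun ξ => Bd ξ) ⊆ L ∪ Sm := by
    intro ξ hξ
    obtain ⟨hξ1, hξ2⟩ := Finset.mem_filter.1 hξ
    rw [Finset.mem_union]
    rcases le_total (2 * s) ‖ξ‖ with h | h
    · exact Or.inl (Finset.mem_filter.2 ⟨hξ1, hξ2, h⟩)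
    · exact Or.inr (Finset.mem_filter.2 ⟨hξ1, h.trans (Nat.le_ceil _)⟩)
  calc (((Sl.NF m T).filter fun ξ => Bd ξ).card : ℝ) ≤ ((L ∪ Sm).card : ℝ) := by exact_mod_cast Finset.card_le_card hcov
    _ ≤ L.card + Sm.card := by exact_mod_cast Finset.card_union_le _ _
    _ ≤ M * (C₀ * 2 ^ Sl.Mm m) * (T : ℝ) ^ ((Sl.Mm m : ℝ) - ε) + 4 * C₀ * (T : ℝ) ^ ((Sl.Mm m : ℝ) - ε) :=
        add_le_add hLc hSc
    _ = (M * (C₀ * 2 ^ Sl.Mm m) + 4 * C₀) * (T : ℝ) ^ ((Sl.Mm m : ℝ) - ε) := by ring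
    _ ≤ _ := mul_le_mul_of_nonneg_right (by
        have : 0 ≤ C₀ * (T₀ : ℝ) ^ ε := by positivity
        linarith) hbase

/-- **few bad algebraic integers, as a proportion** -/
theorem bad_prop (m G E M : ℕ) (hm : 1 ≤ m) (hG : 1 ≤ G) :
    ∃ c : ℝ, 0 < c ∧ ∃ C : ℝ, 0 ≤ C ∧ ∀ Bd : ℂ → Prop,
      (∀ (H : ℕ) (ξ : ℂ), ((H : ℝ) + 2) ^ E ≤ ‖ξ‖ → Ht m (4 * m + 4) ξ → ∀ S : Finset ℕ,
        (∀ u ∈ S, 1 ≤ u ∧ u ≤ H ∧ Bd (ξ - ((G * u : ℕ) : ℂ))) → S.card ≤ M) →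
      ∀ T : ℕ, 1 ≤ T → ({ξ : ℂ | Sl.SInt m T ξ ∧ Bd ξ}.ncard : ℝ) ≤
        C * (T : ℝ) ^ (-c) * ({ξ : ℂ | Sl.SInt m T ξ}.ncard : ℝ) := by
  classical
  obtain ⟨c, hc, C, hC, h⟩ := bad_count m G E M hG
  obtain ⟨c₁, hc₁, hmany⟩ := Sl.many m hm
  refine ⟨c, hc, C / c₁ ^ 1, by positivity, fun Bd hwin T hT => ?_⟩
  have h1 : {ξ : ℂ | Sl.SInt m T ξ ∧ Bd ξ} ⊆ (((Sl.NF m T).filter fun ξ => Bd ξ : Finset ℂ) : Set ℂ) := by
    rintro ξ ⟨h2, h3⟩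
    rw [Finset.mem_coe, Finset.mem_filter]
    exact ⟨Sl.mem_NF.2 (Sl.SInt.aint h2), h3⟩
  have h2 : {ξ : ℂ | Sl.SInt m T ξ ∧ Bd ξ}.ncard ≤ ((Sl.NF m T).filter fun ξ => Bd ξ).card := by
    rw [← Set.ncard_coe_finset]
    exact Set.ncard_le_ncard h1 (Finset.finite_toSet _)
  have h3 := Sl.prop_bound (k := 1) (c := c) hc₁ hC hT (hmany T hT)
  rw [one_mul, pow_one] at h3
  rw [pow_one] at h3 ⊢
  refine le_trans ?_ h3
  exact (by exact_mod_cast h2 : ({ξ : ℂ | Sl.SInt m T ξ ∧ Bd ξ}.ncard : ℝ) ≤ (((Sl.NF m T).filter fun ξ => Bd ξ).card : ℝ)).trans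
    (h Bd hwin T hT)

end Pool.Agent.Y119.HA
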