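import Pool.Agent.Y119.HA.One
import Pool.Agent.Y118.CM.Cz
import Pool.Agent.Y118.CM.Cl

/-!
# The period rows at complex points
-/

set_option autoImplicit false
set_option maxHeartbeats 400000

open Matrix PowerSeries Pool.Agent.Y119.HY Pool.Agent.Y119.HZ Pool.Agent.Y118.CM

namespace Pool.Agent.Y119.HA

variable {m : ℕ} (β : Fin m → ℚ)

/-- the period rows at `1 / ξ`, `l` a logarithm of `ξ` -/
noncomputable def perx (ξ l : ℂ) (i : ℕ) : Fin (2 * m) → ℂ := fun j =>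
  ∑ a ∈ Finset.range ((j : ℕ) + 1), (-l) ^ a / (a.factorial : ℂ) * eta β (1 / ξ) i ((j : ℕ) - a)

variable {β}

lemma perx_eq (ξ l : ℂ) (i : ℕ) : perx β ξ l i = (fun j : Fin (2 * m) => eta β (1 / ξ) i j) ᵥ*
    E (cm (Am (2 * m))) (-l) := by
  funext j
  show _ = ∑ c : Fin (2 * m), eta β (1 / ξ) i c * E (cm (Am (2 * m))) (-l) c j
  unfold perx
  have hE : ∀ c : Fin (2 * m), E (cm (Am (2 * m))) (-l) c j = ∑ a ∈ Finset.range (2 * m),
        if (j : ℕ) = c + a then (-l) ^ a / (a.factorial : ℂ) else 0 := by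
    intro c
    unfold E
    rw [Matrix.sum_apply]
    refine Finset.sum_congr rfl fun a _ => ?_
    rw [Matrix.smul_apply, ← cm_pow, cm_apply, Am_pow, smul_eq_mul]
    split_ifs
    · push_cast
      ring
    · simp
  simp only [hE, Finset.mul_sum]
  rw [Finset.sum_comm]
  have hsub : Finset.range ((j : ℕ) + 1) ⊆ Finset.range (2 * m) := by
    intro a hl
    rw [Finset.mem_range] at hl ⊢
    have := j.2
    omega
  refine Finset.sum_subset_zero_on_sdiff hsub (fun a hl => ?_) fun a hl => ?_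
  · rw [Finset.mem_sdiff, Finset.mem_range, Finset.mem_range] at hl
    refine Finset.sum_eq_zero fun c _ => ?_
    rw [if_neg (by omega), mul_zero]
  · rw [Finset.mem_range] at hl
    have hj := j.2
    rw [Finset.sum_eq_single (⟨(j : ℕ) - a, by omega⟩ : Fin (2 * m))]
    · rw [if_pos (by simp only; omega), mul_comm]
    · intro c _ hc
      rw [if_neg, mul_zero]
      intro h
      apply hc
      apply Fin.ext
      simp only
      omega
    · intro h
      exact absurd (Finset.mem_univ _) h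

/-- the base change -/
noncomputable def Ccx (β : Fin m → ℚ) (l : ℂ) (C : Matrix (Fin (2 * m)) (Fin (2 * m)) ℂ) : Matrix (Fin (2 * m)) (Fin (2 * m)) ℂ :=
  cm (DN β)⁻¹ * E (cm (Am (2 * m))) (-l) * C

lemma perx_C (hQ : QD (2 * m) (QB β)) {i : ℕ} (hi : m + i < 2 * m) {ξ : ℂ} (hξ : 1 < ‖ξ‖) (l : ℂ)
    (C : Matrix (Fin (2 * m)) (Fin (2 * m)) ℂ) : perx β ξ l i ᵥ* C =
    ((fun c : Fin (2 * m) => (dd β i c : ℂ)) ᵥ* Hf (Hc (2 * m) (QB β)) (1 / ξ)) ᵥ* Ccx β l C := by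
  have h2 : ‖1 / ξ‖ < 1 := by
    rw [norm_div, norm_one, div_lt_one (by linarith)]
    exact hξ
  rw [perx_eq, eta_eq hQ hi h2]
  unfold Ccx
  simp only [vecMul_vecMul, Matrix.mul_assoc]

lemma Ccx_det (hQ : QD (2 * m) (QB β)) (l : ℂ) {C : Matrix (Fin (2 * m)) (Fin (2 * m)) ℂ} (hC : C.det ≠ 0) :
    (Ccx β l C).det ≠ 0 := by
  unfold Ccx
  rw [Matrix.det_mul, Matrix.det_mul]
  refine mul_ne_zero (mul_ne_zero ?_ ?_) hC
  · intro h
    have h1 : cm (DN β) * cm (DN β)⁻¹ = 1 := by rw [← cm_mul, Matrix.mul_nonsing_inv _ (DN_unit hQ), cm_one]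
    have h2 := congrArg Matrix.det h1
    rw [Matrix.det_mul, h, mul_zero, Matrix.det_one] at h2
    exact zero_ne_one h2
  · intro h
    have h2 := congrArg Matrix.det (E_mul_neg (Ac_nil (n := 2 * m)) (-l))
    rw [Matrix.det_mul, h, zero_mul, Matrix.det_one] at h2
    exact zero_ne_one h2

lemma Ccx_mon (hQ : QD (2 * m) (QB β)) (l : ℂ) {C M : Matrix (Fin (2 * m)) (Fin (2 * m)) ℂ} {s : ℂ}
    (h : C * M = s • (cm (Am (2 * m)) * C)) : Ccx β l C * M = s • (cm (Am (2 * m)) * Ccx β l C) := by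
  unfold Ccx
  rw [Matrix.mul_assoc, h, mul_smul_comm, ← Matrix.mul_assoc, Matrix.mul_assoc (cm (DN β)⁻¹), Pool.Agent.Y118.CM.E_comm, ← Matrix.mul_assoc,
    DN_comm hQ, Matrix.mul_assoc (cm (Am (2 * m))), Matrix.mul_assoc (cm (Am (2 * m)))]

lemma Ccx_pol (hQ : QD (2 * m) (QB β)) (l : ℂ) {C Q : Matrix (Fin (2 * m)) (Fin (2 * m)) ℂ} {κ : ℂ}
    (h : C.transpose * cm (J0 (2 * m)) * C = κ • Q) : (Ccx β l C).transpose * cm (Jm (2 * m) (QB β)) * Ccx β l C =
    ((-1) ^ m * κ) • Q := by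
  set Ei := E (cm (Am (2 * m))) (-l) with hE
  have h1 : cm (DN β) * cm (DN β)⁻¹ = 1 := by rw [← cm_mul, Matrix.mul_nonsing_inv _ (DN_unit hQ), cm_one]
  have h2 : cm (Jm (2 * m) (QB β)) = ((-1 : ℂ) ^ m) • ((cm (DN β)).transpose * cm (J0 (2 * m)) * cm (DN β)) := by
    rw [form_relc, smul_smul, ← mul_pow]
    norm_num
  have h3 : (cm (DN β)⁻¹).transpose * cm (Jm (2 * m) (QB β)) * cm (DN β)⁻¹ = ((-1 : ℂ) ^ m) • cm (J0 (2 * m)) := by
    rw [h2, mul_smul_comm, smul_mul_assoc]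
    congr 1
    calc (cm (DN β)⁻¹).transpose * ((cm (DN β)).transpose * cm (J0 (2 * m)) * cm (DN β)) * cm (DN β)⁻¹ =
        (cm (DN β) * cm (DN β)⁻¹).transpose * cm (J0 (2 * m)) * (cm (DN β) * cm (DN β)⁻¹) := by
          rw [Matrix.transpose_mul]
          simp only [Matrix.mul_assoc]
      _ = _ := by rw [h1, Matrix.transpose_one, Matrix.one_mul, Matrix.mul_one]
  have h4 : Ei.transpose * cm (J0 (2 * m)) * Ei = cm (J0 (2 * m)) := E_isom Ac_nil (J0c_rel (2 * m)) _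
  calc (Ccx β l C).transpose * cm (Jm (2 * m) (QB β)) * Ccx β l C =
      C.transpose * (Ei.transpose * ((cm (DN β)⁻¹).transpose * cm (Jm (2 * m) (QB β)) * cm (DN β)⁻¹) * Ei) * C := by
        unfold Ccx
        rw [← hE, Matrix.transpose_mul, Matrix.transpose_mul]
        simp only [Matrix.mul_assoc]
    _ = _ := by
        rw [h3, mul_smul_comm, smul_mul_assoc, h4, mul_smul_comm, smul_mul_assoc, h, smul_smul]

end Pool.Agent.Y119.HA
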