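import Pool.Agent.Y119.HA.One

/-!
# Relations between constants and the values of the hypergeometric functions at one point of a window of algebraic points
-/

set_option autoImplicit false
set_option maxHeartbeats 400000

open Matrix PowerSeries Pool.Agent.Y113 Pool.Agent.Y120.GF Pool.Agent.Y120.GH Pool.Agent.Y119.HY Pool.Agent.Y119.HZ
open Pool.Agent.Y916.Al (Ht)

namespace Pool.Agent.Y119.HA

variable {n : ℕ} {Q : Polynomial ℚ}

/-- **All relations of bounded degree over number fields of bounded degree between constants and the entries of the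
holomorphic part at `1 / (ξ - G u)` hold on the symplectic group, for all `u` with few exceptions.** -/
theorem one_win_alg (hQ : QD n Q) (hH : ∀ i j, SDc (Hp n Q i j)) : ∃ G0 : ℕ, 1 ≤ G0 ∧ ∀ G : ℕ, G0 ≤ G →
    ∀ (p : ℕ) (Ω : Fin p → ℂ) (q m A D d : ℕ), ∃ E : ℕ, ∀ (H : ℕ) (ξ : ℂ), ((H : ℝ) + 2) ^ E ≤ ‖ξ‖ →
    (∀ u ≤ H, 2 ≤ ‖ξ - ((G * u : ℕ) : ℂ)‖) ∧ (Ht m A ξ →
    ∀ w : Fin q → ℂ, ∃ S : Finset ℕ,
      (S.card : Cardinal) ≤ Algebra.trdeg ℚ (IntermediateField.adjoin ℚ (Set.range Ω)) + q ∧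
    ∀ u : ℕ, 1 ≤ u → u ≤ H → u ∉ S →
    ∀ K : IntermediateField ℚ ℂ, FiniteDimensional ℚ K → Module.finrank ℚ K ≤ D →
    ∀ P : MvPolynomial ((Fin p ⊕ Fin q) ⊕ Fin n × Fin n) K, P.totalDegree ≤ d →
    MvPolynomial.aeval (Sum.elim (Sum.elim Ω w) fun x : Fin n × Fin n =>
      Hf (Hc n Q) (1 / (ξ - ((G * u : ℕ) : ℂ))) x.1 x.2) P = 0 →
    ∀ g : Matrix (Fin n) (Fin n) ℂ, g.transpose * cm (Jm n Q) * g = cm (Jm n Q) →
    MvPolynomial.aeval (Sum.elim (Sum.elim Ω w) fun x : Fin n × Fin n => g x.1 x.2) P = 0) := by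
  classical
  obtain ⟨G0, hG0, hwin⟩ := Pool.Agent.Y916.Af.winNs (nrh_hf hQ hH) (sz_hf hQ hH)
  refine ⟨G0, hG0, fun G hG p Ω q m A D d => ?_⟩
  obtain ⟨δ₁, Ex, hE⟩ := hwin G hG p Ω q 1 m D d A
  refine ⟨Ex + G + 2, fun H ξ hξ => ?_⟩
  have hH2 : (2 : ℝ) ≤ (H : ℝ) + 2 := by linarith [(Nat.cast_nonneg H : (0 : ℝ) ≤ H)]
  have hH1 : (1 : ℝ) ≤ (H : ℝ) + 2 := by linarith
  have hbig : ((H : ℝ) + 2) ^ Ex ≤ ‖ξ‖ := (pow_le_pow_right₀ hH1 (by omega)).trans hξ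
  have hsep : ∀ u ≤ H, 2 ≤ ‖ξ - ((G * u : ℕ) : ℂ)‖ := by
    intro u hu
    have h1 := norm_sub_norm_le ξ ((G * u : ℕ) : ℂ)
    rw [Complex.norm_natCast] at h1
    have h2 : ((G * u : ℕ) : ℝ) ≤ G * H := by
      have : G * u ≤ G * H := Nat.mul_le_mul_left _ hu
      exact_mod_cast this
    have h3 : (G : ℝ) * H + 2 ≤ ((H : ℝ) + 2) ^ (Ex + G + 2) := by
      have h4 : ((H : ℝ) + 2) ^ (G + 2) ≤ ((H : ℝ) + 2) ^ (Ex + G + 2) := pow_le_pow_right₀ hH1 (by omega)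
      have h5 : (G : ℝ) ≤ ((H : ℝ) + 2) ^ G := by
        have h6 : (G : ℝ) ≤ 2 ^ G := by exact_mod_cast (Nat.lt_two_pow_self (n := G)).le
        exact h6.trans (pow_le_pow_left₀ (by norm_num) hH2 _)
      have h7 : (1 : ℝ) ≤ ((H : ℝ) + 2) ^ G := one_le_pow₀ hH1
      have h8 : ((H : ℝ) + 2) ^ (G + 2) = ((H : ℝ) + 2) ^ G * ((H : ℝ) + 2) ^ 2 := pow_add _ _ _
      have h9 : (0 : ℝ) ≤ H := Nat.cast_nonneg H
      nlinarith [mul_le_mul_of_nonneg_right h5 h9, mul_nonneg (sub_nonneg.2 h7) h9]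
    linarith
  refine ⟨hsep, fun hHt w => ?_⟩
  obtain ⟨S, hS, hmain⟩ := hE H ξ hbig hHt w
  refine ⟨S, hS, fun u hu1 hu2 huS K hK hKD P hPd hP0 g hg => ?_⟩
  set η : ℂ := ξ - ((G * u : ℕ) : ℂ) with hη
  have hη2 : 2 ≤ ‖η‖ := hsep u hu2
  have hz : ‖1 / η‖ < 1 := by
    rw [norm_div, norm_one, div_lt_one (by linarith)]
    linarith
  set e : Fin 1 × Fin (n * n) → Fin n × Fin n := fun a => ix n a.2 with he
  have hm := hmain (fun _ => u) (fun i j _ => Subsingleton.elim i j) (fun j => ⟨hu1, hu2, huS⟩)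
    (Pool.Agent.Y118.CM.Spt (cm (Jm n Q)) e) (Pool.Agent.Y916.Af.irrD_of_irr
      (Pool.Agent.Y118.CM.sp_irr (Pool.Agent.Y119.HY.Jc_skew hQ) (Pool.Agent.Y119.HY.Jc_det hQ) e) _) (by
      refine ⟨Hf (Hc n Q) (1 / η), form_c hQ hz, ?_⟩
      funext a
      exact evc_hf _ _) (by
      rintro y ⟨g', hg', rfl⟩ j
      exact mem_Vc hQ hz hg') K hK hKD
    (MvPolynomial.rename (Sum.map id fun x : Fin n × Fin n => ((0 : Fin 1), (ix n).symm x)) P)
    ((MvPolynomial.totalDegree_rename_le _ _).trans hPd) (by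
      rw [MvPolynomial.aeval_rename, ← hP0]
      refine congrArg (fun z => MvPolynomial.aeval z P) (funext fun x => ?_)
      rcases x with x | x
      · rfl
      · show Pool.Agent.Y916.Al.evc (1 / η) (hf n Q ((ix n).symm x)) = _
        rw [evc_hf, Equiv.apply_symm_apply]
        rfl) (fun a => g (e a).1 (e a).2) ⟨g, hg, rfl⟩
  rw [MvPolynomial.aeval_rename] at hm
  rw [← hm]
  refine congrArg (fun z => MvPolynomial.aeval z P) (funext fun x => ?_)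
  rcases x with x | x
  · rfl
  · show _ = g (ix n ((ix n).symm x)).1 (ix n ((ix n).symm x)).2
    rw [Equiv.apply_symm_apply]
    rfl

end Pool.Agent.Y119.HA
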