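import Pool.Agent.Y113.MT.Win2
import Pool.Agent.Y119.HA.Mt
import Pool.Agent.Y119.HA.OneW

/-!
# The assembly for windows of algebraic points (port of `Pool.Agent.Y113.MT.AsmW` of helper113)
-/

set_option autoImplicit false
set_option maxHeartbeats 400000

open Matrix PowerSeries Pool.Agent.Y119.HY Pool.Agent.Y119.HZ Pool.Agent.Y118.CM Pool.Agent.Y113.MT
open Pool.Agent.Y916.Al (Ht)

namespace Pool.Agent.Y119.HA

section
variable {m : ℕ} {β : Fin m → ℚ}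

/-- **The data at one point.** -/
theorem index_x2 (hm : 1 ≤ m) (hQ : QD (2 * m) (QB β)) {k : ℕ} {ξ : ℂ} (hξ : 1 < ‖ξ‖) (l : ℂ)
    (hgen : ∀ P : MvPolynomial (Fin (2 * m) × Fin (2 * m)) ℚ, P.totalDegree ≤ k →
      MvPolynomial.aeval (fun x : Fin (2 * m) × Fin (2 * m) => Hf (Hc (2 * m) (QB β)) (1 / ξ) x.1 x.2) P = 0 →
      ∀ g : Matrix (Fin (2 * m)) (Fin (2 * m)) ℂ, g.transpose * cm (Jm (2 * m) (QB β)) * g = cm (Jm (2 * m) (QB β)) →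
      MvPolynomial.aeval (fun x : Fin (2 * m) × Fin (2 * m) => g x.1 x.2) P = 0)
    {C : Matrix (Fin (2 * m)) (Fin (2 * m)) ℂ} {M A : Matrix (Fin (2 * m)) (Fin (2 * m)) ℚ} {q κ : ℂ} (hC : C.det ≠ 0)
    (hM : C * cq M = q • (NN ℂ (2 * m) * C)) (hκ : κ ≠ 0) (hA : C * cq A * Cᵀ = κ • SS ℂ (2 * m))
    {Fil H : ℕ → Submodule ℂ (Fin (2 * m) → ℂ)} (hFil : ∀ p, m ≤ p → Fil p = Flx β ξ l C p) (hH : Polarised Fil A H) {r : ℕ}
    {x : Fin r → Matrix (Fin (2 * m)) (Fin (2 * m)) ℚ} (hbr : ∀ a b, x a * x b - x b * x a ∈ Submodule.span ℚ (Set.range x))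
    (hPm : ∀ Φ : Matrix (Fin (2 * m)) (Fin (2 * m)) ℂ, (∀ p < 2 * m, ∀ v ∈ H p, v ᵥ* Φ = (p : ℂ) • v) →
      Φ ∈ Submodule.span ℂ (Set.range fun a => cq (x a))) :
    ∃ (B Λ Φ : Matrix (Fin (2 * m)) (Fin (2 * m)) ℂ) (κ' c : ℂ),
      ID (Jm (2 * m) (QB β)) (DN β) q k (Hf (Hc (2 * m) (QB β)) (1 / ξ)) (Ccx β l C) B Λ Φ M A x κ' c := by
  set J := cm (Jm (2 * m) (QB β)) with hJ
  set g := Hf (Hc (2 * m) (QB β)) (1 / ξ) with hg
  set G := Ccx β l C with hG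
  set S := cm (J0 (2 * m)) with hS
  have hJd : J.det ≠ 0 := Jc_det hQ
  have hJu : IsUnit J.det := isUnit_iff_ne_zero.2 hJd
  have hCu : IsUnit C.det := isUnit_iff_ne_zero.2 hC
  have hCTu : IsUnit Cᵀ.det := by rwa [Matrix.det_transpose]
  have hGd : G.det ≠ 0 := Ccx_det hQ l hC
  have hGu : IsUnit G.det := isUnit_iff_ne_zero.2 hGd
  have hSS : S * S = -1 := by
    rw [hS, ← cm_mul, J0_sq ⟨m, by ring⟩, cm_neg, cm_one]
  have hgJ : gᵀ * J * g = J := by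
    have h1 : ‖1 / ξ‖ < 1 := by
      rw [norm_div, norm_one, div_lt_one (by linarith)]
      exact hξ
    exact form_c hQ h1
  have hA' : C * cq A * Cᵀ = κ • S := by rw [hA, SS_eq]
  -- `A` in terms of `C`
  have hCSC : (Cᵀ * S * C) * cq A = -κ • (1 : Matrix (Fin (2 * m)) (Fin (2 * m)) ℂ) := by
    have e1 : (Cᵀ * S * C) * cq A * Cᵀ = -κ • Cᵀ := by
      calc (Cᵀ * S * C) * cq A * Cᵀ = Cᵀ * S * (C * cq A * Cᵀ) := by simp only [Matrix.mul_assoc]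
        _ = κ • (Cᵀ * (S * S)) := by rw [hA', Matrix.mul_smul, Matrix.mul_assoc]
        _ = -κ • Cᵀ := by rw [hSS, Matrix.mul_neg, Matrix.mul_one, smul_neg, neg_smul]
    calc (Cᵀ * S * C) * cq A = (Cᵀ * S * C) * cq A * (Cᵀ * Cᵀ⁻¹) := by rw [Matrix.mul_nonsing_inv _ hCTu, Matrix.mul_one]
      _ = (-κ • Cᵀ) * Cᵀ⁻¹ := by rw [← e1]; simp only [Matrix.mul_assoc]
      _ = _ := by rw [Matrix.smul_mul, Matrix.mul_nonsing_inv _ hCTu]
  have hpol : Gᵀ * J * G = ((-1 : ℂ) ^ m * 1) • (Cᵀ * S * C) := Ccx_pol hQ l (by rw [one_smul])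
  rw [mul_one] at hpol
  have hGA : G * cq A * Gᵀ = (-κ * (-1) ^ m) • J⁻¹ := by
    have e1 : (Gᵀ * J * G) * cq A = (-κ * (-1) ^ m) • (1 : Matrix (Fin (2 * m)) (Fin (2 * m)) ℂ) := by
      rw [hpol, Matrix.smul_mul, hCSC, smul_smul]
      congr 1
      ring
    have e2 : J * G * cq A * Gᵀ = (-κ * (-1) ^ m) • (1 : Matrix (Fin (2 * m)) (Fin (2 * m)) ℂ) := by
      have hGTu : IsUnit Gᵀ.det := by rwa [Matrix.det_transpose]
      calc J * G * cq A * Gᵀ = Gᵀ⁻¹ * Gᵀ * (J * G * cq A * Gᵀ) := by rw [Matrix.nonsing_inv_mul _ hGTu, Matrix.one_mul]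
        _ = Gᵀ⁻¹ * ((Gᵀ * J * G) * cq A) * Gᵀ := by simp only [Matrix.mul_assoc]
        _ = (-κ * (-1) ^ m) • (Gᵀ⁻¹ * Gᵀ) := by rw [e1, Matrix.mul_smul, Matrix.smul_mul, Matrix.mul_one]
        _ = _ := by rw [Matrix.nonsing_inv_mul _ hGTu]
    calc G * cq A * Gᵀ = J⁻¹ * J * (G * cq A * Gᵀ) := by rw [Matrix.nonsing_inv_mul _ hJu, Matrix.one_mul]
      _ = J⁻¹ * (J * G * cq A * Gᵀ) := by simp only [Matrix.mul_assoc]
      _ = _ := by rw [e2, Matrix.mul_smul, Matrix.mul_one]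
  have hk' : (-κ * (-1) ^ m) ≠ 0 := mul_ne_zero (neg_ne_zero.2 hκ) (pow_ne_zero _ (by norm_num))
  have hAt : Aᵀ = -A := by
    apply cq_inj
    rw [cq_neg, cq_tr]
    have hSt : Sᵀ = -S := by
      rw [hS, ← SS_eq]
      exact SS_tr m
    have h1 : C * (cq A)ᵀ * Cᵀ = C * (-cq A) * Cᵀ := by
      have h2 := congrArg Matrix.transpose hA'
      rw [Matrix.transpose_mul, Matrix.transpose_mul, Matrix.transpose_transpose, Matrix.transpose_smul, hSt, smul_neg,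
        ← hA'] at h2
      rw [Matrix.mul_neg, Matrix.neg_mul, ← h2, Matrix.mul_assoc]
    have h2 := congrArg (fun Z => C⁻¹ * Z * Cᵀ⁻¹) h1
    have h3 : ∀ Z : Matrix (Fin (2 * m)) (Fin (2 * m)) ℂ, C⁻¹ * (C * Z * Cᵀ) * Cᵀ⁻¹ = Z := by
      intro Z
      calc C⁻¹ * (C * Z * Cᵀ) * Cᵀ⁻¹ = (C⁻¹ * C) * Z * (Cᵀ * Cᵀ⁻¹) := by simp only [Matrix.mul_assoc]
        _ = Z := by rw [Matrix.nonsing_inv_mul _ hCu, Matrix.mul_nonsing_inv _ hCTu, Matrix.one_mul, Matrix.mul_one]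
    simp only [h3] at h2
    exact h2
  -- the matrix `P`
  set P := cq (DN β) * (g * G) with hP
  have hgJi : g * J⁻¹ * gᵀ = J⁻¹ := by
    have h1 : (J⁻¹ * gᵀ * J) * g = 1 := by
      rw [Matrix.mul_assoc, Matrix.mul_assoc, ← Matrix.mul_assoc gᵀ, hgJ, Matrix.nonsing_inv_mul _ hJu]
    have h2 : g * (J⁻¹ * gᵀ * J) = 1 := mul_eq_one_comm.1 h1
    calc g * J⁻¹ * gᵀ = (g * (J⁻¹ * gᵀ * J)) * J⁻¹ := by
          simp only [Matrix.mul_assoc]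
          rw [Matrix.mul_nonsing_inv _ hJu, Matrix.mul_one]
      _ = _ := by rw [h2, Matrix.one_mul]
  have hPA : P * cq A * Pᵀ = (κ • (1 : ℂ)) • S := by
    calc P * cq A * Pᵀ = cq (DN β) * (g * (G * cq A * Gᵀ) * gᵀ) * (cq (DN β))ᵀ := by
          rw [hP, Matrix.transpose_mul, Matrix.transpose_mul]
          simp only [Matrix.mul_assoc]
      _ = (-κ * (-1) ^ m) • (cq (DN β) * J⁻¹ * (cq (DN β))ᵀ) := by
          rw [hGA, Matrix.mul_smul, Matrix.smul_mul, hgJi, Matrix.mul_smul, Matrix.smul_mul]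
      _ = _ := by
          have h1 := DN_J hQ
          rw [cm_cq] at h1
          rw [h1, smul_smul]
          congr 1
          have e3 : ((-1 : ℂ)) ^ m * (-1) ^ m = 1 := by
            rw [← mul_pow]
            norm_num
          rw [smul_eq_mul]
          linear_combination κ * e3
  have hPd : P.det ≠ 0 := by
    intro h0
    have h1 := congrArg Matrix.det hPA
    rw [Matrix.det_mul, Matrix.det_mul, h0, zero_mul, zero_mul, Matrix.det_smul] at h1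
    have h2 : S.det ≠ 0 := by
      intro h3
      have h4 := congrArg Matrix.det hSS
      rw [Matrix.det_mul, h3, zero_mul] at h4
      have h5 : (-1 : Matrix (Fin (2 * m)) (Fin (2 * m)) ℂ).det ≠ 0 := by
        rw [Matrix.det_neg, Matrix.det_one, mul_one]
        exact pow_ne_zero _ (by norm_num)
      exact h5 h4.symm
    refine mul_ne_zero (pow_ne_zero _ ?_) h2 h1.symm
    simpa using hκ
  have hProw : ∀ a : Fin (2 * m), (a : ℕ) < m → P a = perx β ξ l a ᵥ* C := by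
    intro a ha
    rw [perx_C hQ (by omega) hξ l C, ← hg, ← hG, ← DN_row β a, vecMul_vecMul]
    rfl
  obtain ⟨B, Λ, c, hc, hBA, hBs, hBH, hBL, hLl⟩ := Pool.Agent.Y31.MT.idx m hm Fil H A P hH hAt hPd (by
    intro a b hab
    rw [hPA, Matrix.smul_apply, hS, cm_apply]
    unfold J0
    rw [Matrix.of_apply, if_neg (by omega)]
    simp) (by
    intro i hi
    rw [hFil _ (by omega)]
    unfold Flx
    congr 1
    ext v
    constructor
    · rintro ⟨a, ha, rfl⟩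
      refine ⟨⟨a, by omega⟩, by show a < i; omega, ?_⟩
      exact (hProw ⟨a, by omega⟩ (by show a < m; omega)).symm
    · rintro ⟨a, ha, rfl⟩
      refine ⟨a, by omega, ?_⟩
      exact hProw a (by omega))
  have hBd : B.det ≠ 0 := by
    intro h0
    have h1 := congrArg Matrix.det hBA
    rw [Matrix.det_mul, Matrix.det_mul, h0, zero_mul, zero_mul, Matrix.det_smul] at h1
    exact mul_ne_zero (pow_ne_zero _ hc) (SS_det m) h1.symm
  have hBu : IsUnit B.det := isUnit_iff_ne_zero.2 hBd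
  set Dg : Matrix (Fin (2 * m)) (Fin (2 * m)) ℂ := Matrix.diagonal (fun i : Fin (2 * m) => ((2 * m - 1 - (i : ℕ) : ℕ) : ℂ)) with hDg
  have hBP : B * (B⁻¹ * Dg * B) = Dg * B := by
    rw [← Matrix.mul_assoc, ← Matrix.mul_assoc, Matrix.mul_nonsing_inv _ hBu, Matrix.one_mul]
  refine ⟨B, Λ, B⁻¹ * Dg * B, _, c, hgJ, hgen, hk', hc, ?_, hGA, hBL, hLl, hBA, hBs, hBP, hbr, hPm _ ?_⟩
  · have h1 := Ccx_mon hQ l (C := C) (M := cq M) (s := q) (by rw [hM, NN_eq])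
    rw [← NN_eq] at h1
    exact h1
  · intro p hp v hv
    set w := v ᵥ* B⁻¹ with hw
    have hvw : v = w ᵥ* B := by
      rw [hw, vecMul_vecMul, Matrix.nonsing_inv_mul _ hBu, vecMul_one]
    have hw0 : ∀ i : Fin (2 * m), (i : ℕ) ≠ 2 * m - 1 - p → w i = 0 := by
      intro i hi
      have h1 : v ⬝ᵥ (cq A *ᵥ B (Fin.rev i)) = 0 := by
        have hrev : ((Fin.rev i : Fin (2 * m)) : ℕ) = 2 * m - (i + 1) := Fin.val_rev i
        have hi2 := i.2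
        refine hH.orth p hp (2 * m - 1 - (Fin.rev i : Fin (2 * m))) (by omega) (by omega) v hv _ (hBH _)
      have h2 : v ⬝ᵥ (cq A *ᵥ B (Fin.rev i)) = (w ᵥ* (B * cq A * Bᵀ)) (Fin.rev i) := by
        rw [← vecMul_vecMul, ← vecMul_vecMul, ← hvw, Matrix.dotProduct_mulVec]
        rfl
      rw [h2, hBA] at h1
      have h3 : (w ᵥ* (c • SS ℂ (2 * m))) (Fin.rev i) = c * (w i * (-1) ^ (i : ℕ)) := by
        rw [Matrix.vecMul_smul, Pi.smul_apply, smul_eq_mul]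
        congr 1
        show ∑ j, w j * SS ℂ (2 * m) j (Fin.rev i) = _
        rw [Finset.sum_eq_single i]
        · unfold SS
          rw [Matrix.of_apply, if_pos (by rw [Fin.val_rev]; have := i.2; omega)]
        · intro j _ hj
          unfold SS
          rw [Matrix.of_apply, if_neg, mul_zero]
          intro h4
          apply hj
          rw [Fin.val_rev] at h4
          have := i.2
          have := j.2
          exact Fin.ext (by omega)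
        · intro h4
          exact absurd (Finset.mem_univ _) h4
      rw [h3] at h1
      have h5 := (mul_eq_zero.1 h1).resolve_left hc
      exact (mul_eq_zero.1 h5).resolve_right (pow_ne_zero _ (by norm_num))
    have h6 : v ᵥ* (B⁻¹ * Dg * B) = (w ᵥ* Dg) ᵥ* B := by
      rw [← vecMul_vecMul, ← vecMul_vecMul]
    rw [h6]
    have h7 : w ᵥ* Dg = (p : ℂ) • w := by
      funext i
      rw [hDg, Matrix.vecMul_diagonal, Pi.smul_apply, smul_eq_mul]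
      by_cases hi : (i : ℕ) = 2 * m - 1 - p
      · rw [hi, show 2 * m - 1 - (2 * m - 1 - p) = p by omega, mul_comm]
      · rw [hw0 i hi, zero_mul, mul_zero]
    rw [h7, Matrix.smul_vecMul, ← hvw]


/-- the conclusion at the point `1 / ξ` -/
def Conc_x (β : Fin m → ℚ) (ξ l : ℂ) (C : Matrix (Fin (2 * m)) (Fin (2 * m)) ℂ) (A : Matrix (Fin (2 * m)) (Fin (2 * m)) ℚ) : Prop :=
  ∀ Fil H : ℕ → Submodule ℂ (Fin (2 * m) → ℂ), (∀ p, m ≤ p → Fil p = Flx β ξ l C p) → Polarised Fil A H →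
    ∀ V : Submodule ℚ (Matrix (Fin (2 * m)) (Fin (2 * m)) ℚ), (∀ X ∈ V, ∀ Y ∈ V, X * Y - Y * X ∈ V) →
    (∀ Φ : Matrix (Fin (2 * m)) (Fin (2 * m)) ℂ, (∀ p < 2 * m, ∀ v ∈ H p, v ᵥ* Φ = (p : ℂ) • v) →
      Φ ∈ Submodule.span ℂ (cq '' (V : Set (Matrix (Fin (2 * m)) (Fin (2 * m)) ℚ)))) →
    ∀ X : Matrix (Fin (2 * m)) (Fin (2 * m)) ℚ, X * A + A * Xᵀ = 0 → X ∈ V

/-- **The windows theorem for a class of base changes.** -/
theorem win_core_x (hm : 2 ≤ m) (hβ : ∀ j, ∀ a : ℤ, β j ≠ a) : ∃ G0 : ℕ, 1 ≤ G0 ∧ ∀ G : ℕ, G0 ≤ G →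
    ∀ (g₀ A₀ p : ℕ) (Ω : Fin p → ℂ) (q' : ℕ)
      (𝒞 : (Fin p ⊕ Fin q' → ℂ) → ℂ → ℂ → Matrix (Fin (2 * m)) (Fin (2 * m)) ℂ → Matrix (Fin (2 * m)) (Fin (2 * m)) ℚ → Prop),
    (∀ (a : ℕ → Fin p ⊕ Fin q' → ℂ) (q κ : ℕ → ℂ) (C : ℕ → Matrix (Fin (2 * m)) (Fin (2 * m)) ℂ)
      (A : ℕ → Matrix (Fin (2 * m)) (Fin (2 * m)) ℚ), (∀ k, 𝒞 (a k) (q k) (κ k) (C k) (A k)) → (∀ k, κ k ≠ 0) →
      (∀ k, C k * cq (A k) * (C k)ᵀ = κ k • SS ℂ (2 * m)) →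
      ∀ D : Derivation ℤ UF UF, (∀ z ∈ UK, D z = 0) → (∀ i, D (rh fun k => a k i) = 0) → (gm C).map D = 0) →
    ∃ E : ℕ, ∀ (H : ℕ) (ξ : ℂ), ((H : ℝ) + 2) ^ E ≤ ‖ξ‖ → (∀ u ≤ H, 2 ≤ ‖ξ - ((G * u : ℕ) : ℂ)‖) ∧ (Ht g₀ A₀ ξ →
      ∀ w : Fin q' → ℂ, ∃ S : Finset ℕ,
      (S.card : Cardinal) ≤ Algebra.trdeg ℚ (IntermediateField.adjoin ℚ (Set.range Ω)) + q' ∧
      ∀ u : ℕ, 1 ≤ u → u ≤ H → u ∉ S → ∀ (l : ℂ) (C : Matrix (Fin (2 * m)) (Fin (2 * m)) ℂ)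
        (M A : Matrix (Fin (2 * m)) (Fin (2 * m)) ℚ) (q κ : ℂ), 𝒞 (Sum.elim Ω w) q κ C A → C.det ≠ 0 → q ≠ 0 →
        C * cq M = q • (NN ℂ (2 * m) * C) → κ ≠ 0 → C * cq A * Cᵀ = κ • SS ℂ (2 * m) →
        Conc_x β (ξ - ((G * u : ℕ) : ℂ)) l C A) := by
  have hβ' : ∀ j, ∀ l : ℕ, (l : ℚ) + β j ≠ 0 ∧ (l : ℚ) + -β j ≠ 0 := by
    intro j l
    constructor
    · intro h
      apply hβ j (-(l : ℤ))
      push_cast
      linear_combination h
    · intro h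
      apply hβ j (l : ℤ)
      push_cast
      linear_combination -h
  have hQ : QD (2 * m) (QB β) := QD_QB (by omega) hβ'
  obtain ⟨G0, hG01, hG0⟩ := one_win_alg hQ (fun i j => sdc_hps hβ' hQ i j)
  refine ⟨G0, hG01, fun G hG g₀ A₀ p Ω q' 𝒞 hK => ?_⟩
  by_contra hcon
  push Not at hcon
  have h1 : ∀ k : ℕ, ∃ (η l : ℂ) (w : Fin q' → ℂ) (C : Matrix (Fin (2 * m)) (Fin (2 * m)) ℂ)
      (M A X : Matrix (Fin (2 * m)) (Fin (2 * m)) ℚ) (q κ : ℂ)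
      (x : Fin (2 * m * (2 * m)) → Matrix (Fin (2 * m)) (Fin (2 * m)) ℚ), q ≠ 0 ∧ X * A + A * Xᵀ = 0 ∧
      X ∉ Submodule.span ℚ (Set.range x) ∧ 𝒞 (Sum.elim Ω w) q κ C A ∧ κ ≠ 0 ∧ C * cq A * Cᵀ = κ • SS ℂ (2 * m) ∧
      (∀ P : MvPolynomial ((Fin p ⊕ Fin q') ⊕ Fin (2 * m) × Fin (2 * m)) ℚ, P.totalDegree ≤ k →
        MvPolynomial.aeval (Sum.elim (Sum.elim Ω w) fun z : Fin (2 * m) × Fin (2 * m) =>
          Hf (Hc (2 * m) (QB β)) (1 / η) z.1 z.2) P = 0 →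
        ∀ h : Matrix (Fin (2 * m)) (Fin (2 * m)) ℂ, hᵀ * cq (Jm (2 * m) (QB β)) * h = cq (Jm (2 * m) (QB β)) →
        MvPolynomial.aeval (Sum.elim (Sum.elim Ω w) fun z : Fin (2 * m) × Fin (2 * m) => h z.1 z.2) P = 0) ∧
      ∃ (B Λ Φ : Matrix (Fin (2 * m)) (Fin (2 * m)) ℂ) (κ' c : ℂ),
      ID (Jm (2 * m) (QB β)) (DN β) q k (Hf (Hc (2 * m) (QB β)) (1 / η)) (Ccx β l C) B Λ Φ M A x κ' c := by
    intro k
    obtain ⟨E, hE⟩ := hG0 G hG p Ω q' g₀ A₀ 1 k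
    obtain ⟨H, ξ, hHt, hbad⟩ := hcon E
    obtain ⟨hlt, hw⟩ := hE H ξ hHt
    obtain ⟨hht, w, hbad⟩ := hbad hlt
    obtain ⟨S, hS, hS2⟩ := hw hht w
    obtain ⟨u, hu1, hu2, huS, l, C, M, A, q, κ, hCC, hC, hq, hM, hκ, hA, hnot⟩ := hbad S hS
    unfold Conc_x at hnot
    push Not at hnot
    obtain ⟨Fil, Hh, hFil, hHh, V, hV, hΦ, X, hX, hXV⟩ := hnot
    obtain ⟨x, hx⟩ := exists_family V
    have ht2 : 1 < ‖ξ - ((G * u : ℕ) : ℂ)‖ := by linarith [hlt u hu2]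
    have hgen2 : ∀ P : MvPolynomial ((Fin p ⊕ Fin q') ⊕ Fin (2 * m) × Fin (2 * m)) ℚ, P.totalDegree ≤ k →
        MvPolynomial.aeval (Sum.elim (Sum.elim Ω w) fun z : Fin (2 * m) × Fin (2 * m) =>
          Hf (Hc (2 * m) (QB β)) (1 / (ξ - ((G * u : ℕ) : ℂ))) z.1 z.2) P = 0 →
        ∀ h : Matrix (Fin (2 * m)) (Fin (2 * m)) ℂ, hᵀ * cq (Jm (2 * m) (QB β)) * h = cq (Jm (2 * m) (QB β)) →
        MvPolynomial.aeval (Sum.elim (Sum.elim Ω w) fun z : Fin (2 * m) × Fin (2 * m) => h z.1 z.2) P = 0 := by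
      intro R hR h0 h hh
      have h1 := hS2 u hu1 hu2 huS ⊥ inferInstance (by rw [IntermediateField.finrank_bot])
        (MvPolynomial.map (algebraMap ℚ (⊥ : IntermediateField ℚ ℂ)) R)
        ((Finset.sup_mono (MvPolynomial.support_map_subset _ _)).trans hR) (by
          rw [MvPolynomial.aeval_map_algebraMap]
          exact h0) h hh
      rwa [MvPolynomial.aeval_map_algebraMap] at h1
    refine ⟨ξ - ((G * u : ℕ) : ℂ), l, w, C, M, A, X, q, κ, x, hq, hX, by rwa [hx], hCC, hκ, hA, hgen2,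
      index_x2 (by omega) hQ ht2 l ?_ hC hM hκ hA hFil hHh ?_ ?_⟩
    · intro P hP h0 h hh
      have h2 := hgen2 (MvPolynomial.rename Sum.inr P) ((MvPolynomial.totalDegree_rename_le _ _).trans hP) (by
        rw [MvPolynomial.aeval_rename]
        exact h0) h hh
      rw [MvPolynomial.aeval_rename] at h2
      exact h2
    · intro a b
      rw [hx]
      have hxa : ∀ a, x a ∈ V := fun a => by
        rw [← hx]
        exact Submodule.subset_span ⟨a, rfl⟩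
      exact hV _ (hxa a) _ (hxa b)
    · intro Φ hΦ'
      refine (Submodule.span_le.2 ?_) (hΦ Φ hΦ')
      rintro _ ⟨Y, hY, rfl⟩
      refine cq_span ?_
      rw [hx]
      exact hY
  choose η l w C M A X q κ x hq hX hXx hCC hκ hA hgen B Λ Φ κ' c hID using h1
  have hJr : (NN ℂ (2 * m))ᵀ * cq (Jm (2 * m) (QB β)) = -(cq (Jm (2 * m) (QB β)) * NN ℂ (2 * m)) := by
    have h2 : (cm (Am (2 * m))).transpose * cm (Jm (2 * m) (QB β)) + cm (Jm (2 * m) (QB β)) * cm (Am (2 * m)) = 0 :=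
      Pool.Agent.Y119.HY.Jc_rel
    rw [← NN_eq] at h2
    exact eq_neg_of_add_eq_zero_left h2
  have hD0 : cq (DN β)⁻¹ * NN ℂ (2 * m) = NN ℂ (2 * m) * cq (DN β)⁻¹ := by
    rw [NN_eq]
    exact (DN_comm hQ : Commute (cm (DN β)⁻¹) (cm (Am (2 * m))))
  obtain ⟨k, hk⟩ := ultra2 Pool.Agent.Y412.MT.lie1 Pool.Agent.Y961.MT.lie2 Pool.Agent.Y195.MT.lie3 Pool.Agent.Y155.MT.fin hm
    (a := fun k => Sum.elim Ω (w k)) hq (Jm_det hQ) (Jm_skew hQ) hJr hD0 (s := fun k => -(l k)) (C := C)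
    (hK (fun k => Sum.elim Ω (w k)) q κ C A hCC hκ hA) hID (by
      intro k
      show cm (DN β)⁻¹ * E (cm (Am (2 * m))) (-(l k)) * C k = _
      rw [cm_cq]
      congr 2
      unfold E EF
      rw [NN_eq]) hgen hX
  exact hXx k hk

end

end Pool.Agent.Y119.HA
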