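import Pool.Agent.Y916.Af.Gs3
import Pool.Agent.Y118.CM.Sp
import Pool.Agent.Y119.HY.Fin2

/-!
# The hypergeometric family at complex points: G-functions, relations, the form
-/

set_option autoImplicit false

open Matrix PowerSeries Pool.Agent.Y113 Pool.Agent.Y120.GF Pool.Agent.Y120.GH Pool.Agent.Y119.HZ

namespace Pool.Agent.Y119.HA

open Pool.Agent.Y119.HY (QD Am Jm cm E Hf Hc E_isom E_mul_neg)

variable {n : ℕ} {Q : Polynomial ℚ}

/-- the entries of the holomorphic part form a family of G-functions -/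
theorem gfs_hf (hQ : QD n Q) (hH : ∀ i j, SDc (Hp n Q i j)) :
    ∃ (T : Polynomial ℤ) (A : Fin (n * n) → Fin (n * n) → Polynomial ℤ), Pool.Agent.Y916.Af.GFs T A (hf n Q) := by
  obtain ⟨D', b, hD, hb⟩ := exists_b n Q
  obtain ⟨q, C, hG⟩ := gsys_Hp hQ hH hb
  have hG' := hG.reindex (ix n)
  have hT : Polynomial.X * T1 D' ≠ 0 := by
    refine mul_ne_zero Polynomial.X_ne_zero (mul_ne_zero (Polynomial.C_ne_zero.2 (by exact_mod_cast hD)) ?_)
    intro h0
    have := congrArg (Polynomial.eval 0) h0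
    simp at this
  have hode : ∀ i : Fin (n * n), Pool.Agent.Y113.ps (Polynomial.X * T1 D') * d⁄dX ℚ (hf n Q i) =
      ∑ j, Pool.Agent.Y113.ps (A2 n D' b (ix n i) (ix n j)) * hf n Q j := by
    intro i
    have h1 := ode_A2 hQ hb (ix n i)
    have h2 : ∑ j : Fin (n * n), Pool.Agent.Y113.ps (A2 n D' b (ix n i) (ix n j)) * hf n Q j =
        ∑ q, Pool.Agent.Y113.ps (A2 n D' b (ix n i) q) * Hp n Q q.1 q.2 :=
      Equiv.sum_comp (ix n) fun q => Pool.Agent.Y113.ps (A2 n D' b (ix n i) q) * Hp n Q q.1 q.2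
    exact h1.trans h2.symm
  exact ⟨_, fun a c => A2 n D' b (ix n a) (ix n c), hT, hode, ⟨C, hG'.size⟩, ⟨q, C, hG'⟩, qu_hf hQ hH hb⟩

theorem nrh_hf (hQ : QD n Q) (hH : ∀ i j, SDc (Hp n Q i j)) : Pool.Agent.Y916.Af.NRh (hf n Q) := by
  obtain ⟨T, A, h⟩ := gfs_hf hQ hH
  exact Pool.Agent.Y916.Af.nrh_of_gfs h

theorem sz_hf (hQ : QD n Q) (hH : ∀ i j, SDc (Hp n Q i j)) : Pool.Agent.Y916.Af.SZ (hf n Q) := by
  obtain ⟨T, A, h⟩ := gfs_hf hQ hH
  exact h.hsize

/-- the values -/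
theorem evc_hf (z : ℂ) (i : Fin (n * n)) :
    Pool.Agent.Y916.Al.evc z (hf n Q i) = Hf (Hc n Q) z (ix n i).1 (ix n i).2 := by
  unfold Hf
  rw [Matrix.of_apply]
  unfold Pool.Agent.Y119.HY.ps Pool.Agent.Y916.Al.evc hf
  refine tsum_congr fun m => ?_
  have h2 : coeff m (Hp n Q (ix n i).1 (ix n i).2) = Pool.Agent.Y119.HY.Hq n Q m (ix n i).1 (ix n i).2 :=
    congrFun (congrFun (cf_Hp (Q := Q) m) _) _
  rw [h2]
  rfl

theorem an_ev {R : MvPolynomial (Fin (n * n)) (Polynomial ℚ)} {f : Fin (n * n) → ℂ → ℂ}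
    (hf : ∀ j, AnalyticOnNhd ℂ (f j) (Metric.ball 0 1)) :
    AnalyticOnNhd ℂ (fun z => MvPolynomial.eval₂ (evq z) (fun j => f j z) R) (Metric.ball 0 1) := by
  induction R using MvPolynomial.induction_on with
  | C p =>
    simp only [MvPolynomial.eval₂_C]
    have h1 : (fun z => evq z p) = fun z => (p.map (algebraMap ℚ ℂ)).eval z := by
      funext z
      unfold evq
      show Polynomial.aeval z p = _
      rw [Polynomial.eval_map, Polynomial.aeval_def]
    rw [h1]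
    intro z _
    exact (Polynomial.differentiable _).analyticAt z
  | add p q hp hq =>
    simp only [MvPolynomial.eval₂_add]
    exact fun z hz => (hp z hz).add (hq z hz)
  | mul_X p j hp =>
    simp only [MvPolynomial.eval₂_mul, MvPolynomial.eval₂_X]
    exact fun z hz => (hp z hz).mul (hf j z hz)

/-- analytic functions on the disc which vanish on the interval are zero -/
theorem zero_of_real {f : ℂ → ℂ} (hf : AnalyticOnNhd ℂ f (Metric.ball 0 1)) (h0 : ∀ x : ℝ, 0 < x → x < 1 → f (x : ℂ) = 0)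
    {z : ℂ} (hz : ‖z‖ < 1) : f z = 0 := by
  have h1 : ∃ᶠ w in nhdsWithin (((1 / 2 : ℝ)) : ℂ) {(((1 / 2 : ℝ)) : ℂ)}ᶜ, f w = 0 := by
    rw [Metric.nhdsWithin_basis_ball.frequently_iff]
    intro ε hε
    set x : ℝ := 1 / 2 + min (ε / 2) (1 / 4) with hx
    have h3 : 0 < min (ε / 2) (1 / 4) := by positivity
    have h4 : min (ε / 2) (1 / 4) ≤ 1 / 4 := min_le_right _ _
    have h5 : min (ε / 2) (1 / 4) ≤ ε / 2 := min_le_left _ _
    refine ⟨(x : ℂ), ⟨?_, ?_⟩, h0 x (by rw [hx]; linarith) (by rw [hx]; linarith)⟩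
    · rw [Metric.mem_ball, Complex.dist_eq, ← Complex.ofReal_sub, Complex.norm_real, Real.norm_eq_abs, hx, add_sub_cancel_left,
        abs_of_pos h3]
      linarith
    · rw [Set.mem_compl_iff, Set.mem_singleton_iff, Complex.ofReal_inj, hx]
      linarith
  have h2 := hf.eqOn_zero_of_preconnected_of_frequently_eq_zero (convex_ball (0 : ℂ) 1).isPreconnected
    (z₀ := (((1 / 2 : ℝ)) : ℂ)) (by
      rw [Metric.mem_ball, dist_zero_right, Complex.norm_real]
      norm_num) h1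
  exact h2 (by rwa [Metric.mem_ball, dist_zero_right])

/-- **invariance of the relations between the entries of the holomorphic part, at complex points** -/
theorem rel_inv_c (hQ : QD n Q) {R : MvPolynomial (Fin (n * n)) (Polynomial ℚ)} (hR : MvPolynomial.aeval (hf n Q) R = 0)
    {z : ℂ} (hz : ‖z‖ < 1) {κ : Matrix (Fin n) (Fin n) ℂ} (hκ : κ.transpose * cm (Jm n Q) * κ = cm (Jm n Q)) :
    MvPolynomial.eval₂ (evq z) (fun j => (Hf (Hc n Q) z * κ) (ix n j).1 (ix n j).2) R = 0 := by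
  refine zero_of_real (f := fun z => MvPolynomial.eval₂ (evq z) (fun j => (Hf (Hc n Q) z * κ) (ix n j).1 (ix n j).2) R)
    (an_ev fun j => ?_) (fun x hx hx1 => rel_inv hQ hR hx hx1 hκ) hz
  simp only [Matrix.mul_apply]
  intro w hw
  refine Finset.analyticAt_fun_sum _ fun c _ => ?_
  exact ((Pool.Agent.Y119.HY.Hf_an (Pool.Agent.Y119.HY.sol_c hQ) Pool.Agent.Y119.HY.Ac_nil _ _) w hw).mul analyticAt_const

/-- **the holomorphic part preserves the form** -/
theorem form_c (hQ : QD n Q) {z : ℂ} (hz : ‖z‖ < 1) :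
    (Hf (Hc n Q) z).transpose * cm (Jm n Q) * Hf (Hc n Q) z = cm (Jm n Q) := by
  ext a b
  have h1 := zero_of_real (f := fun z => ((Hf (Hc n Q) z).transpose * cm (Jm n Q) * Hf (Hc n Q) z) a b - cm (Jm n Q) a b)
    (z := z) ?_ ?_ hz
  · exact sub_eq_zero.1 h1
  · have han : ∀ i j, AnalyticOnNhd ℂ (fun z => Hf (Hc n Q) z i j) (Metric.ball 0 1) := fun i j =>
      Pool.Agent.Y119.HY.Hf_an (Pool.Agent.Y119.HY.sol_c hQ) Pool.Agent.Y119.HY.Ac_nil i j
    simp only [Matrix.mul_apply, Matrix.transpose_apply]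
    intro w hw
    refine AnalyticAt.sub (Finset.analyticAt_fun_sum _ fun c _ => AnalyticAt.mul
      (Finset.analyticAt_fun_sum _ fun d _ => (han d a w hw).mul analyticAt_const) (han c b w hw)) analyticAt_const
  · intro x hx hx1
    have hN : cm (Am n) ^ n = 0 := Pool.Agent.Y119.HY.Ac_nil
    have hNJ : (cm (Am n)).transpose * cm (Jm n Q) + cm (Jm n Q) * cm (Am n) = 0 := Pool.Agent.Y119.HY.Jc_rel
    have h2 := Pool.Agent.Y119.HY.self_pair hN hNJ (by
      rw [← Pool.Agent.Y119.HY.cm_transpose, ← Pool.Agent.Y119.HY.cm_mul, ← Pool.Agent.Y119.HY.cm_mul,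
        ← Pool.Agent.Y119.HY.cm_add, Bm_rel hQ, Pool.Agent.Y119.HY.cm_zero]) (Pool.Agent.Y119.HY.sol_c hQ)
      (Pool.Agent.Y119.HY.real_mem_Lens hx hx1)
    have h3 : Hf (Hc n Q) (x : ℂ) = Pool.Agent.Y119.HY.Yf (cm (Am n)) (Hc n Q) (x : ℂ) * E (cm (Am n)) (-Complex.log (x : ℂ)) := by
      unfold Pool.Agent.Y119.HY.Yf
      rw [Matrix.mul_assoc, E_mul_neg hN, mul_one]
    have h4 := isom_mul h2 (E_isom hN hNJ (-Complex.log (x : ℂ)))
    rw [← h3] at h4
    show _ - _ = (0 : ℂ)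
    rw [h4, sub_self]

/-- the points of the symplectic group satisfy the relations between the entries of the holomorphic part -/
theorem mem_Vc (hQ : QD n Q) {z : ℂ} (hz : ‖z‖ < 1) {g : Matrix (Fin n) (Fin n) ℂ}
    (hg : g.transpose * cm (Jm n Q) * g = cm (Jm n Q)) :
    (fun i => g (ix n i).1 (ix n i).2) ∈ Pool.Agent.Y916.Af.Vc (hf n Q) z := by
  obtain ⟨W, hW1, hW2, hW3⟩ := isom_inv (Pool.Agent.Y119.HY.Jc_det hQ) (form_c hQ hz)
  intro R hR
  have h3 := rel_inv_c hQ (R := R) hR hz (isom_mul hW3 hg)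
  rw [← Matrix.mul_assoc, hW1, one_mul] at h3
  exact h3

end Pool.Agent.Y119.HA
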