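import Pool.Agent.Y119.HA.M12
import Pool.Agent.Y929.HG.Step
import Pool.Agent.Y606.HG.Spn
import Pool.Agent.Y421.HG.Der
import Pool.Agent.Y986.HG.Tan
import Pool.Agent.Y232.HG.Rel
import Pool.Agent.Y362.HG.Lim
import Pool.Agent.Y421.HG.Ker
import Pool.Agent.Y916.Sl.Many

/-!
# Project HG at algebraic points: steps of the Hodge filtration, conjugates of algebraic integers
-/

set_option autoImplicit false

open Matrix Filter Pool.Agent.Y119.HY Pool.Agent.Y119.HZ Pool.Agent.Y118.CM Pool.Agent.Y119.HG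
open Pool.Agent.Y916.Al (Ht)

namespace Pool.Agent.Y119.HA

/-- a sum over `Fin p` as a sum over `Fin m` -/
theorem sum_dite {M : Type*} [AddCommMonoid M] {p m : ℕ} (hpm : p ≤ m) (f : Fin p → M) :
    ∑ i : Fin p, f i = ∑ i : Fin m, if h : (i : ℕ) < p then f ⟨i, h⟩ else 0 := by
  rw [Finset.sum_fin_eq_sum_range, Fin.sum_univ_eq_sum_range (fun i => if h : i < p then f ⟨i, h⟩ else 0) m]
  refine Finset.sum_subset (Finset.range_mono hpm) fun i _ hi => ?_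
  rw [Finset.mem_range, not_lt] at hi
  rw [dif_neg (by omega)]

/-- **no step of the Hodge filtration is defined over a number field of bounded degree** -/
theorem step_x {m : ℕ} (hm : 3 ≤ m) {β : Fin m → ℚ} (hβ : ∀ j, ∀ a : ℤ, β j ≠ a) (g₀ A₀ D : ℕ) :
    ∃ t0 : ℕ, 2 ≤ t0 ∧ ∀ ξ l : ℂ, (t0 : ℝ) ≤ ‖ξ‖ → Ht g₀ A₀ ξ →
    ∀ K : IntermediateField ℚ ℂ, FiniteDimensional ℚ K → Module.finrank ℚ K ≤ D →
    ∀ (C : Matrix (Fin (2 * m)) (Fin (2 * m)) ℂ) (M Q : Matrix (Fin (2 * m)) (Fin (2 * m)) ℚ) (s κ : ℂ), C.det ≠ 0 → s ≠ 0 →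
    C * cm M = s • (cm (Am (2 * m)) * C) → Cᵀ * cm (J0 (2 * m)) * C = κ • cm Q →
    ∀ p : ℕ, 1 ≤ p → p ≤ m → ¬ ∃ T : Set (Fin (2 * m) → K),
      Submodule.span ℂ (Set.range fun i : Fin p => perx β ξ l i ᵥ* C) =
        Submodule.span ℂ ((fun (x : Fin (2 * m) → K) i => ((x i : K) : ℂ)) '' T) := by
  obtain ⟨t0, ht2, ht0⟩ := m2_x Pool.Agent.Y421.HG.t_DER Pool.Agent.Y986.HG.t_TAN Pool.Agent.Y232.HG.t_REL
    Pool.Agent.Y362.HG.t_LIM (Pool.Agent.Y929.HG.t_STEP Pool.Agent.Y421.HG.t_KER) hm hβ g₀ A₀ D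
  refine ⟨t0, ht2, fun ξ l hξ hht K hK hKD C M Q s κ hC hs hM hQ p hp1 hpm hdef => ?_⟩
  have hξ1 : 1 < ‖ξ‖ := by
    have h1 : (2 : ℝ) ≤ t0 := by exact_mod_cast ht2
    linarith
  obtain ⟨r1, r2, r3, r4⟩ := Pool.Agent.Y681.HG.t_RM ℂ m
  obtain ⟨hTd, -, -, -⟩ := tt_x m l C (cm M) (cm Q) s κ hC hM hQ
  have hsym := sym_x (by omega) hβ hξ1
  set G := Gx β ξ with hG
  set T := Tx l C with hT
  set W := G * (Rm m ℂ * T) with hW
  have hGi : G * (Om m ℂ * Gᵀ * (-Om m ℂ)) = 1 := by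
    rw [← Matrix.mul_assoc, ← Matrix.mul_assoc, hsym, Matrix.mul_neg, Om_sq, neg_neg]
  have hTu : IsUnit T.det := isUnit_iff_ne_zero.2 hTd
  have hWi : W * (T⁻¹ * (Rm m ℂ)ᵀ * (Om m ℂ * Gᵀ * (-Om m ℂ))) = 1 := by
    calc W * (T⁻¹ * (Rm m ℂ)ᵀ * (Om m ℂ * Gᵀ * (-Om m ℂ))) =
        G * (Rm m ℂ * (T * T⁻¹) * (Rm m ℂ)ᵀ) * (Om m ℂ * Gᵀ * (-Om m ℂ)) := by
          rw [hW]
          simp only [Matrix.mul_assoc]
      _ = 1 := by rw [Matrix.mul_nonsing_inv _ hTu, Matrix.mul_one, r1, Matrix.mul_one, hGi]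
  have hrow : ∀ i : Fin m, perx β ξ l i ᵥ* C = W (Sum.inl i) := fun i => row_x (by omega) hβ hξ1 l C i
  set w : Fin p → Fin (2 * m) → ℂ := fun i => perx β ξ l i ᵥ* C with hw
  have hwW : ∀ i : Fin p, w i = W (Sum.inl ⟨i, by omega⟩) := fun i => hrow ⟨i, by omega⟩
  have hLI : LinearIndependent ℂ w := by
    have h1 : LinearIndependent ℂ (fun x : S m => W x) := by
      rw [Fintype.linearIndependent_iff]
      intro c hc
      have h2 : c ᵥ* W = 0 := by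
        funext j
        have := congrFun hc j
        rw [Finset.sum_apply] at this
        exact this
      have h3 : c = 0 := by
        have h4 := congrArg (fun v => v ᵥ* (T⁻¹ * (Rm m ℂ)ᵀ * (Om m ℂ * Gᵀ * (-Om m ℂ)))) h2
        simp only [vecMul_vecMul, zero_vecMul] at h4
        rw [hWi, vecMul_one] at h4
        exact h4
      exact fun i => congrFun h3 i
    have h5 := h1.comp (fun i : Fin p => (Sum.inl (⟨i, by omega⟩ : Fin m) : S m)) (by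
      intro i j hij
      have h6 := Sum.inl.inj hij
      exact Fin.ext (Fin.mk.inj h6))
    have h6 : w = fun i : Fin p => W (Sum.inl (⟨i, by omega⟩ : Fin m)) := funext hwW
    rw [h6]
    exact h5
  obtain ⟨x, e, e', h1, h2⟩ := Pool.Agent.Y606.HG.t_SPN (2 * m) p K w hLI hdef
  refine ht0 ξ l hξ hht K hK hKD C M Q s κ hC hs hM hQ p hp1 hpm x e e' (fun i hi => ?_) fun j => ?_
  · rw [← h1 ⟨i, hi⟩]
    exact (hrow i).symm
  · rw [h2 j, sum_dite hpm]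
    refine Finset.sum_congr rfl fun i _ => ?_
    split_ifs with h
    · congr 1
      exact hrow i
    · rfl

/-- the largest conjugate of an algebraic integer has bounded height relative to its absolute value -/
theorem ht_conj {g : ℕ} {ξ ξ' : ℂ} (hint : IsIntegral ℤ ξ) (hdeg : (minpoly ℚ ξ).natDegree ≤ g)
    (hr : Polynomial.aeval ξ' (minpoly ℚ ξ) = 0) (hmax : ∀ z : ℂ, Polynomial.aeval z (minpoly ℚ ξ) = 0 → ‖z‖ ≤ ‖ξ'‖)
    (h2 : 2 ≤ ‖ξ'‖) : Ht g (2 * g) ξ' := by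
  have hmin : minpoly ℚ ξ = (minpoly ℤ ξ).map (algebraMap ℤ ℚ) := minpoly.isIntegrallyClosed_eq_field_fractions' ℚ hint
  have hmon : (minpoly ℤ ξ).Monic := minpoly.monic hint
  have hd : (minpoly ℤ ξ).natDegree = (minpoly ℚ ξ).natDegree := by
    rw [hmin, hmon.natDegree_map]
  have hev : ∀ z : ℂ, Polynomial.aeval z (minpoly ℚ ξ) = Polynomial.aeval z (minpoly ℤ ξ) := fun z => by
    rw [hmin, Polynomial.aeval_map_algebraMap]
  refine ⟨minpoly ℤ ξ, hmon.ne_zero, by rw [hd]; exact hdeg, fun j => ?_, by rw [← hev]; exact hr⟩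
  have h5 := Polynomial.coeff_le_of_roots_le (f := Int.castRingHom ℂ) (B := ‖ξ'‖) j hmon (IsAlgClosed.splits _)
    (fun z hz => hmax z (by
      rw [hev]
      have h6 := (Polynomial.mem_roots'.1 hz).2
      rw [Polynomial.IsRoot.def, Polynomial.eval_map] at h6
      exact h6))
  rw [Polynomial.coeff_map] at h5
  have h7 : ‖(Int.castRingHom ℂ) ((minpoly ℤ ξ).coeff j)‖ = |((minpoly ℤ ξ).coeff j : ℝ)| := by
    rw [eq_intCast, Complex.norm_intCast]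
  rw [h7] at h5
  have h1' : (1 : ℝ) ≤ ‖ξ'‖ := by linarith
  have hn : (minpoly ℤ ξ).natDegree ≤ g := by rw [hd]; exact hdeg
  have h8 : (((minpoly ℤ ξ).natDegree.choose j : ℕ) : ℝ) ≤ ‖ξ'‖ ^ g := by
    have h9 : (minpoly ℤ ξ).natDegree.choose j ≤ 2 ^ (minpoly ℤ ξ).natDegree := Nat.choose_le_two_pow _ _
    calc (((minpoly ℤ ξ).natDegree.choose j : ℕ) : ℝ) ≤ 2 ^ (minpoly ℤ ξ).natDegree := by exact_mod_cast h9
      _ ≤ 2 ^ g := pow_le_pow_right₀ (by norm_num) hn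
      _ ≤ ‖ξ'‖ ^ g := pow_le_pow_left₀ (by norm_num) h2 _
  calc |((minpoly ℤ ξ).coeff j : ℝ)| ≤ ‖ξ'‖ ^ ((minpoly ℤ ξ).natDegree - j) * ((minpoly ℤ ξ).natDegree.choose j : ℕ) := h5
    _ ≤ ‖ξ'‖ ^ g * ‖ξ'‖ ^ g := mul_le_mul (pow_le_pow_right₀ h1' (by omega)) h8 (Nat.cast_nonneg _) (by positivity)
    _ = ‖ξ'‖ ^ (2 * g) := by rw [← pow_add, two_mul]

/-- **all but finitely many algebraic integers of bounded degree have a conjugate which is large with respect to its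
height** -/
theorem finite_conj (g t0 : ℕ) (P : ℂ → Prop) (hP : ∀ ξ : ℂ, (t0 : ℝ) ≤ ‖ξ‖ → Ht g (2 * g) ξ → P ξ) :
    {ξ : ℂ | IsIntegral ℤ ξ ∧ (minpoly ℚ ξ).natDegree ≤ g ∧ ∀ ξ' : ℂ, Polynomial.aeval ξ' (minpoly ℚ ξ) = 0 → 1 < ‖ξ'‖ →
      ¬ P ξ'}.Finite := by
  refine (Pool.Agent.Y916.Sl.sint_fin g (t0 + 2)).subset ?_
  rintro ξ ⟨hint, hdeg, hall⟩
  refine ⟨hint, hdeg, ?_⟩
  by_contra hcon
  push Not at hcon
  obtain ⟨z, hz, hzT⟩ := hcon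
  have hQ : minpoly ℚ ξ ≠ 0 := minpoly.ne_zero (hint.tower_top)
  have hfin : {z : ℂ | Polynomial.aeval z (minpoly ℚ ξ) = 0}.Finite := by
    refine (Finset.finite_toSet ((minpoly ℚ ξ).map (algebraMap ℚ ℂ)).roots.toFinset).subset fun w hw => ?_
    rw [Finset.mem_coe, Multiset.mem_toFinset, Polynomial.mem_roots
      ((Polynomial.map_ne_zero_iff (algebraMap ℚ ℂ).injective).2 hQ), Polynomial.IsRoot.def, Polynomial.eval_map]
    exact hw
  obtain ⟨ξ', hξ', hmax⟩ := Set.exists_max_image _ (fun w : ℂ => ‖w‖) hfin ⟨z, hz⟩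
  have h1 : ((t0 + 2 : ℕ) : ℝ) < ‖ξ'‖ := lt_of_lt_of_le hzT (hmax z hz)
  push_cast at h1
  have h0 : (0 : ℝ) ≤ t0 := Nat.cast_nonneg t0
  exact hall ξ' hξ' (by linarith) (hP ξ' (by linarith) (ht_conj hint hdeg hξ' (fun w hw => hmax w hw) (by linarith)))

end Pool.Agent.Y119.HA
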