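import Pool.Agent.Y119.HA.Per

/-!
# No Hodge flags over number fields at algebraic points
-/

set_option autoImplicit false
set_option maxHeartbeats 400000

open Matrix PowerSeries Pool.Agent.Y113 Pool.Agent.Y120.GF Pool.Agent.Y120.GH Pool.Agent.Y119.HY Pool.Agent.Y119.HZ
open Pool.Agent.Y118.CM
open Pool.Agent.Y916.Al (Ht)

namespace Pool.Agent.Y119.HA

section
variable {p : ℕ} {Q : Polynomial ℚ}

/-- **no flags over number fields of bounded degree** -/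
theorem no_flag_x (hQ : QD (p + 4) Q) (hH : ∀ i j, SDc (Hp (p + 4) Q i j)) {d d' : Fin (p + 4) → ℚ} (h0 : d 0 ≠ 0)
    (h1 : d' 0 = 0) (h2 : d' 1 = d 0) (h3 : d' 2 = d 1)
    (h4 : Q.coeff 0 * (2 * d 0 * d 2 - d 1 ^ 2) = Q.coeff 2 * d 0 ^ 2) (g₀ A D : ℕ) : ∃ t0 : ℕ, ∀ ξ : ℂ, (t0 : ℝ) ≤ ‖ξ‖ → Ht g₀ A ξ →
    ∀ K : IntermediateField ℚ ℂ, FiniteDimensional ℚ K → Module.finrank ℚ K ≤ D → ∀ β : K,
    ¬ Pool.Agent.Y118.CM.Bad (Q.coeff 0 : ℂ) (Q.coeff 2 : ℂ) (β : ℂ) ((fun k => (d k : ℂ)) ᵥ* Hf (Hc (p + 4) Q) (1 / ξ))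
      ((fun k => (d' k : ℂ)) ᵥ* Hf (Hc (p + 4) Q) (1 / ξ)) := by
  obtain ⟨t0, ht0⟩ := one_fibre_alg hQ hH g₀ A D 6
  refine ⟨t0, fun ξ hξ hht K hK hKD β hbad => ?_⟩
  have key := ht0 ξ hξ hht K hK hKD
  set Z := Hf (Hc (p + 4) Q) (1 / ξ) with hZ
  obtain ⟨g, hg, hgb⟩ := exists_g hQ (d := fun k => (d k : ℂ)) (d' := fun k => (d' k : ℂ))
    (by exact_mod_cast h0) (by exact_mod_cast h1) (by exact_mod_cast h2) (by exact_mod_cast h3) (by exact_mod_cast h4) (β : ℂ)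
  set a0 := aP K d 0 with ha0
  set a1 := aP K d 1 with ha1
  set a2 := aP K d 2 with ha2
  set b0 := aP K d' 0 with hb0
  set b1 := aP K d' 1 with hb1
  set b2 := aP K d' 2 with hb2
  have da0 : a0.totalDegree ≤ 1 := aP_deg _ _
  have da1 : a1.totalDegree ≤ 1 := aP_deg _ _
  have da2 : a2.totalDegree ≤ 1 := aP_deg _ _
  have db0 : b0.totalDegree ≤ 1 := aP_deg _ _
  have db1 : b1.totalDegree ≤ 1 := aP_deg _ _
  have db2 : b2.totalDegree ≤ 1 := aP_deg _ _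
  set F2 := a0 * b1 - a1 * b0 with hF2
  set F3 := a0 * (a0 * b2 - a2 * b0) - a1 * F2 with hF3
  set F4 := (MvPolynomial.C (algebraMap ℚ K (Q.coeff 0)) * (MvPolynomial.C 2 * (a0 * a2) - a1 ^ 2) -
    MvPolynomial.C (algebraMap ℚ K (Q.coeff 2)) * a0 ^ 2) * F2 ^ 2 - MvPolynomial.C β * F3 ^ 2 with hF4
  have dF2 : F2.totalDegree ≤ 2 := td_sub (td_mul da0 db1) (td_mul da1 db0)
  have dF3 : F3.totalDegree ≤ 3 := td_sub (td_mul da0 (td_sub (td_mul da0 db2) (td_mul da2 db0))) (td_mul da1 dF2)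
  have dF4 : F4.totalDegree ≤ 6 := by
    refine td_sub (td_mul (a := 2) (b := 4) (td_sub (td_C (td_sub (td_C (td_mul da0 da2) _) (td_pow da1 2)) _)
      (td_C (td_pow da0 2) _)) (td_pow dF2 2)) (td_C (td_pow dF3 2) _)
  -- evaluation
  have ev2 : ∀ h : Matrix (Fin (p + 4)) (Fin (p + 4)) ℂ, MvPolynomial.aeval (fun x : Fin (p + 4) × Fin (p + 4) => h x.1 x.2) F2 =
      ex ((fun k => (d k : ℂ)) ᵥ* h) 0 * ex ((fun k => (d' k : ℂ)) ᵥ* h) 1 -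
        ex ((fun k => (d k : ℂ)) ᵥ* h) 1 * ex ((fun k => (d' k : ℂ)) ᵥ* h) 0 := by
    intro h
    rw [(ex_lit _).1, (ex_lit _).1, (ex_lit _).2.1, (ex_lit _).2.1, hF2, map_sub, map_mul, map_mul, ha0, ha1, hb0, hb1,
      aP_eval, aP_eval, aP_eval, aP_eval]
  have ev3 : ∀ h : Matrix (Fin (p + 4)) (Fin (p + 4)) ℂ, MvPolynomial.aeval (fun x : Fin (p + 4) × Fin (p + 4) => h x.1 x.2) F3 =
      ex ((fun k => (d k : ℂ)) ᵥ* h) 0 * (ex ((fun k => (d k : ℂ)) ᵥ* h) 0 * ex ((fun k => (d' k : ℂ)) ᵥ* h) 2 -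
        ex ((fun k => (d k : ℂ)) ᵥ* h) 2 * ex ((fun k => (d' k : ℂ)) ᵥ* h) 0) - ex ((fun k => (d k : ℂ)) ᵥ* h) 1 *
        (ex ((fun k => (d k : ℂ)) ᵥ* h) 0 * ex ((fun k => (d' k : ℂ)) ᵥ* h) 1 -
        ex ((fun k => (d k : ℂ)) ᵥ* h) 1 * ex ((fun k => (d' k : ℂ)) ᵥ* h) 0) := by
    intro h
    rw [hF3, map_sub, map_mul _ a1, ev2]
    rw [(ex_lit _).1, (ex_lit _).1, (ex_lit _).2.1, (ex_lit _).2.1, (ex_lit _).2.2, (ex_lit _).2.2]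
    simp only [map_sub, map_mul, ha0, ha1, ha2, hb0, hb2, aP_eval]
  have ev4 : ∀ h : Matrix (Fin (p + 4)) (Fin (p + 4)) ℂ, MvPolynomial.aeval (fun x : Fin (p + 4) × Fin (p + 4) => h x.1 x.2) F4 =
      ((Q.coeff 0 : ℂ) * (2 * ex ((fun k => (d k : ℂ)) ᵥ* h) 0 * ex ((fun k => (d k : ℂ)) ᵥ* h) 2 -
        ex ((fun k => (d k : ℂ)) ᵥ* h) 1 ^ 2) - (Q.coeff 2 : ℂ) * ex ((fun k => (d k : ℂ)) ᵥ* h) 0 ^ 2) *
        (ex ((fun k => (d k : ℂ)) ᵥ* h) 0 * ex ((fun k => (d' k : ℂ)) ᵥ* h) 1 -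
        ex ((fun k => (d k : ℂ)) ᵥ* h) 1 * ex ((fun k => (d' k : ℂ)) ᵥ* h) 0) ^ 2 -
      (β : ℂ) * (ex ((fun k => (d k : ℂ)) ᵥ* h) 0 * (ex ((fun k => (d k : ℂ)) ᵥ* h) 0 * ex ((fun k => (d' k : ℂ)) ᵥ* h) 2 -
        ex ((fun k => (d k : ℂ)) ᵥ* h) 2 * ex ((fun k => (d' k : ℂ)) ᵥ* h) 0) - ex ((fun k => (d k : ℂ)) ᵥ* h) 1 *
        (ex ((fun k => (d k : ℂ)) ᵥ* h) 0 * ex ((fun k => (d' k : ℂ)) ᵥ* h) 1 -
        ex ((fun k => (d k : ℂ)) ᵥ* h) 1 * ex ((fun k => (d' k : ℂ)) ᵥ* h) 0)) ^ 2 := by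
    intro h
    rw [hF4, map_sub, map_mul _ _ (F2 ^ 2), map_mul _ _ (F3 ^ 2), map_pow _ F2, map_pow _ F3, ev2, ev3]
    rw [(ex_lit ((fun k => (d k : ℂ)) ᵥ* h)).1, (ex_lit ((fun k => (d k : ℂ)) ᵥ* h)).2.1, (ex_lit ((fun k => (d k : ℂ)) ᵥ* h)).2.2]
    simp only [map_sub, map_mul, map_pow, MvPolynomial.aeval_C, ha0, ha1, ha2, aP_eval]
    have e1 : algebraMap K ℂ (algebraMap ℚ K (Q.coeff 0)) = (Q.coeff 0 : ℂ) := rfl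
    have e2 : algebraMap K ℂ (algebraMap ℚ K (Q.coeff 2)) = (Q.coeff 2 : ℂ) := rfl
    have e3 : algebraMap K ℂ β = (β : ℂ) := rfl
    have e4 : algebraMap K ℂ 2 = 2 := map_ofNat _ 2
    rw [e1, e2, e3, e4]
    ring
  apply hgb
  unfold Pool.Agent.Y118.CM.Bad at hbad ⊢
  rcases hbad with h | h | h | h
  · left
    have h5 := key a0 (da0.trans (by norm_num)) (by
      rw [ha0, aP_eval, ← (ex_lit ((fun k => (d k : ℂ)) ᵥ* Z)).1]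
      exact h) g hg
    rw [ha0, aP_eval, ← (ex_lit ((fun k => (d k : ℂ)) ᵥ* g)).1] at h5
    exact h5
  · right; left
    have h5 := key F2 (dF2.trans (by norm_num)) (by rw [ev2]; exact h) g hg
    rw [ev2] at h5
    exact h5
  · right; right; left
    have h5 := key F3 (dF3.trans (by norm_num)) (by rw [ev3]; exact h) g hg
    rw [ev3] at h5
    exact h5
  · right; right; right
    have h5 := key F4 dF4 (by rw [ev4]; exact sub_eq_zero.2 h) g hg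
    rw [ev4] at h5
    exact sub_eq_zero.1 h5

end

theorem main_x {n : ℕ} {Q : Polynomial ℚ} (hQ : QD n Q) (hn : 4 ≤ n) (hH : ∀ i j, SDc (Hp n Q i j)) {d d' : ℕ → ℚ}
    (h0 : d 0 ≠ 0) (h1 : d' 0 = 0) (h2 : d' 1 = d 0) (h3 : d' 2 = d 1)
    (h4 : Q.coeff 0 * (2 * d 0 * d 2 - d 1 ^ 2) = Q.coeff 2 * d 0 ^ 2) (g₀ A D : ℕ) : ∃ t0 : ℕ, ∀ ξ : ℂ, (t0 : ℝ) ≤ ‖ξ‖ → Ht g₀ A ξ →
    ∀ K : IntermediateField ℚ ℂ, FiniteDimensional ℚ K → Module.finrank ℚ K ≤ D →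
    ∀ (C : Matrix (Fin n) (Fin n) ℂ) (M Qb : Matrix (Fin n) (Fin n) ℚ) (s κ : ℂ), C.det ≠ 0 → s ≠ 0 →
    C * cm M = s • (cm (Am n) * C) → C.transpose * cm (Jm n Q) * C = κ • cm Qb →
    ∀ (x0 x1 : Fin n → K) (c c' c'' : ℂ),
    ((fun k : Fin n => (d k : ℂ)) ᵥ* Hf (Hc n Q) (1 / ξ)) ᵥ* C = (fun i => c * (x0 i : ℂ)) →
    ((fun k : Fin n => (d' k : ℂ)) ᵥ* Hf (Hc n Q) (1 / ξ)) ᵥ* C =
      (fun i => c' * (x0 i : ℂ) + c'' * (x1 i : ℂ)) → False := by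
  obtain ⟨p, rfl⟩ : ∃ p, n = p + 4 := ⟨n - 4, by omega⟩
  have hQ0 : Q.coeff 0 ≠ 0 := by
    have := hQ.ne 0
    rwa [Nat.cast_zero, ← Polynomial.coeff_zero_eq_eval_zero] at this
  have hQ1 : Q.coeff 1 = 0 := hQ.sym 1 odd_one
  obtain ⟨t0, ht0⟩ := no_flag_x hQ hH (d := fun k : Fin (p + 4) => d k) (d' := fun k : Fin (p + 4) => d' k) h0 h1 h2 h3 h4 g₀ A D
  refine ⟨t0, fun ξ hξ hht K hK hKD C M Qb s κ hC hs hM hP x0 x1 c c' c'' e0 e1 => ?_⟩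
  have h := flag_inv hQ0 hQ1 K hC hs hM hP e0 e1
  rcases h with h | h | h | ⟨β, h⟩
  · exact ht0 ξ hξ hht K hK hKD 0 (Or.inl h)
  · exact ht0 ξ hξ hht K hK hKD 0 (Or.inr (Or.inl h))
  · exact ht0 ξ hξ hht K hK hKD 0 (Or.inr (Or.inr (Or.inl h)))
  · exact ht0 ξ hξ hht K hK hKD β (Or.inr (Or.inr (Or.inr h)))

/-- **no Hodge flags over number fields of bounded degree** -/
theorem no_flag_cyx {m : ℕ} {β : Fin m → ℚ} (hm : 2 ≤ m) (hβ : ∀ j, ∀ a : ℤ, β j ≠ a) (g₀ A D : ℕ) : ∃ t0 : ℕ, 2 ≤ t0 ∧ ∀ ξ l : ℂ, (t0 : ℝ) ≤ ‖ξ‖ → Ht g₀ A ξ →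
    ∀ K : IntermediateField ℚ ℂ, FiniteDimensional ℚ K → Module.finrank ℚ K ≤ D →
    ∀ (C : Matrix (Fin (2 * m)) (Fin (2 * m)) ℂ) (M Qb : Matrix (Fin (2 * m)) (Fin (2 * m)) ℚ) (s κ : ℂ), C.det ≠ 0 → s ≠ 0 →
    C * cm M = s • (cm (Am (2 * m)) * C) → C.transpose * cm (J0 (2 * m)) * C = κ • cm Qb →
    ∀ (x0 x1 : Fin (2 * m) → K) (c c' c'' : ℂ),
    perx β ξ l 0 ᵥ* C = (fun i => c * (x0 i : ℂ)) →
    perx β ξ l 1 ᵥ* C = (fun i => c' * (x0 i : ℂ) + c'' * (x1 i : ℂ)) → False := by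
  have hβ' : ∀ j, ∀ l : ℕ, (l : ℚ) + β j ≠ 0 ∧ (l : ℚ) + -β j ≠ 0 := by
    intro j l
    constructor
    · intro h
      apply hβ j (-(l : ℤ))
      push_cast
      linear_combination h
    · intro h
      apply hβ j (l : ℤ)
      push_cast
      linear_combination -h
  have hQ : QD (2 * m) (QB β) := QD_QB (by omega) hβ'
  have hne : ∀ j, β j ≠ 0 := fun j h => hβ j 0 (by rw [h]; simp)
  obtain ⟨t0, ht0⟩ := main_x hQ (by omega) (fun i j => sdc_hps hβ' hQ i j) (d := dd β 0) (d' := dd β 1) (dd_ne hne) dd_zero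
    (dd_succ 0) (dd_succ 1) dd_quad g₀ A D
  refine ⟨max t0 2, le_max_right _ _, fun ξ l hξ hht K hK hKD C M Qb s κ hC hs hM hP x0 x1 c c' c'' e0 e1 => ?_⟩
  have ht2 : (2 : ℝ) ≤ ‖ξ‖ := le_trans (by exact_mod_cast le_max_right t0 2) hξ
  have ht3 : (t0 : ℝ) ≤ ‖ξ‖ := le_trans (by exact_mod_cast le_max_left t0 2) hξ
  rw [perx_C hQ (by omega) (by linarith) l] at e0 e1
  exact ht0 ξ ht3 hht K hK hKD (Ccx β l C) M Qb s ((-1) ^ m * κ) (Ccx_det hQ l hC) hs (Ccx_mon hQ l hM)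
    (Ccx_pol hQ l hP) x0 x1 c c' c'' e0 e1

end Pool.Agent.Y119.HA
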