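import Pool.Agent.Y119.HA.Flag
import Pool.Agent.Y119.HG.Mn
import Pool.Agent.Y730.HG.Sym
import Pool.Agent.Y681.HG.Rm
import Pool.Agent.Y274.HG.TT

/-!
# Project HG at algebraic points: the period matrices
-/

set_option autoImplicit false
set_option maxHeartbeats 400000

open Matrix PowerSeries Pool.Agent.Y119.HY Pool.Agent.Y119.HZ Pool.Agent.Y118.CM Pool.Agent.Y119.HG Pool.Agent.Y730.HG
open Pool.Agent.Y916.Al (Ht)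

namespace Pool.Agent.Y119.HA

/-- the generic part of the period matrix at `1 / ξ` -/
noncomputable def Gx {m : ℕ} (β : Fin m → ℚ) (ξ : ℂ) : Matrix (S m) (S m) ℂ :=
  Rm m ℂ * (cm (DN β) * Hf (Hc (2 * m) (QB β)) (1 / ξ) * cm (DN β)⁻¹) * (Rm m ℂ)ᵀ

/-- the limit part -/
noncomputable def Tx {m : ℕ} (l : ℂ) (C : Matrix (Fin (2 * m)) (Fin (2 * m)) ℂ) : Matrix (Fin (2 * m)) (Fin (2 * m)) ℂ :=
  E (cm (Am (2 * m))) (-l) * C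

theorem norm_inv_lt {ξ : ℂ} (hξ : 1 < ‖ξ‖) : ‖1 / ξ‖ < 1 := by
  rw [norm_div, norm_one, div_lt_one (by linarith)]
  exact hξ

theorem tt_x (m : ℕ) (l : ℂ) (C M Q : Matrix (Fin (2 * m)) (Fin (2 * m)) ℂ) (s κ : ℂ) (hC : C.det ≠ 0)
    (h1 : C * M = s • (cm (Am (2 * m)) * C)) (h2 : Cᵀ * cm (J0 (2 * m)) * C = κ • Q) :
    (Tx l C).det ≠ 0 ∧ Tx l C * M = s • (Nn (2 * m) ℂ * Tx l C) ∧ (Tx l C)ᵀ * Jn (2 * m) ℂ * Tx l C = κ • Q ∧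
      Tx l C * (C⁻¹ * Jn (2 * m) ℂ * (C⁻¹)ᵀ) * (Tx l C)ᵀ = Jn (2 * m) ℂ := by
  rw [Pool.Agent.Y274.HG.Nn_eq, Pool.Agent.Y274.HG.Jn_eq]
  unfold Tx
  exact Pool.Agent.Y274.HG.abs_TT (E_mul_neg (Ac_nil (n := 2 * m)) (-l))
    (Pool.Agent.Y118.CM.E_comm _ _) (E_isom Ac_nil (J0c_rel (2 * m)) _) (Pool.Agent.Y274.HG.J_sq m) hC h1 h2

theorem sym_x {m : ℕ} (hm : 1 ≤ m) {β : Fin m → ℚ} (hβ : ∀ j, ∀ a : ℤ, β j ≠ a) {ξ : ℂ} (hξ : 1 < ‖ξ‖) :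
    Gx β ξ * Om m ℂ * (Gx β ξ)ᵀ = Om m ℂ := by
  have hR := Pool.Agent.Y681.HG.t_RM
  have hQ : QD (2 * m) (QB β) := QD_QB hm (hbeta hβ)
  obtain ⟨r1, r2, r3, r4⟩ := hR ℂ m
  have hg := dual_form (by rw [← cm_mul, J0_sq ⟨m, by ring⟩, cm_neg, cm_one]) (conj_form hQ (form_c hQ (norm_inv_lt hξ)))
  rw [J0_eq] at hg
  set g := cm (DN β) * Hf (Hc (2 * m) (QB β)) (1 / ξ) * cm (DN β)⁻¹ with hgdef
  have hGx : Gx β ξ = Rm m ℂ * g * (Rm m ℂ)ᵀ := rfl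
  have r5 : (Rm m ℂ)ᵀ * Om m ℂ * Rm m ℂ = Jn (2 * m) ℂ := by
    rw [← r3]
    calc (Rm m ℂ)ᵀ * (Rm m ℂ * Jn (2 * m) ℂ * (Rm m ℂ)ᵀ) * Rm m ℂ =
        ((Rm m ℂ)ᵀ * Rm m ℂ) * Jn (2 * m) ℂ * ((Rm m ℂ)ᵀ * Rm m ℂ) := by simp only [Matrix.mul_assoc]
      _ = _ := by rw [r2, Matrix.one_mul, Matrix.mul_one]
  rw [hGx]
  calc Rm m ℂ * g * (Rm m ℂ)ᵀ * Om m ℂ * (Rm m ℂ * g * (Rm m ℂ)ᵀ)ᵀ =
      Rm m ℂ * (g * ((Rm m ℂ)ᵀ * Om m ℂ * Rm m ℂ) * gᵀ) * (Rm m ℂ)ᵀ := by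
        rw [Matrix.transpose_mul, Matrix.transpose_mul, Matrix.transpose_transpose]
        simp only [Matrix.mul_assoc]
    _ = _ := by rw [r5, hg, r3]

theorem row_x {m : ℕ} (hm : 1 ≤ m) {β : Fin m → ℚ} (hβ : ∀ j, ∀ a : ℤ, β j ≠ a) {ξ : ℂ} (hξ : 1 < ‖ξ‖) (l : ℂ)
    (C : Matrix (Fin (2 * m)) (Fin (2 * m)) ℂ) (i : Fin m) :
    perx β ξ l i ᵥ* C = (Gx β ξ * (Rm m ℂ * Tx l C)) (Sum.inl i) := by
  have hR := Pool.Agent.Y681.HG.t_RM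
  have hQ : QD (2 * m) (QB β) := QD_QB hm (hbeta hβ)
  obtain ⟨r1, r2, r3, r4⟩ := hR ℂ m
  have hi := i.2
  have hi2 : (i : ℕ) < 2 * m := by omega
  have hdd : (fun c : Fin (2 * m) => (dd β i c : ℂ)) = (Pi.single (⟨i, hi2⟩ : Fin (2 * m)) (1 : ℂ)) ᵥ* cm (DN β) := by
    rw [← dd_row hQ hi2, vecMul_vecMul, DI_DN hQ, vecMul_one]
  rw [perx_C hQ (by omega) hξ l C, hdd]
  have hCcx : Ccx β l C = cm (DN β)⁻¹ * Tx l C := by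
    unfold Ccx Tx
    rw [Matrix.mul_assoc]
  have hrow : Rm m ℂ (Sum.inl i) = Pi.single (⟨i, hi2⟩ : Fin (2 * m)) (1 : ℂ) := by
    funext b
    show (if (b : ℕ) = i then (1 : ℂ) else 0) = _
    rw [Pi.single_apply]
    have : ((b : ℕ) = i) ↔ b = ⟨i, hi2⟩ := by
      rw [Fin.ext_iff]
    simp only [this]
  have hrhs : Gx β ξ * (Rm m ℂ * Tx l C) = Rm m ℂ * (cm (DN β) * Hf (Hc (2 * m) (QB β)) (1 / ξ) *
      (cm (DN β)⁻¹ * Tx l C)) := by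
    unfold Gx
    calc _ = Rm m ℂ * (cm (DN β) * Hf (Hc (2 * m) (QB β)) (1 / ξ) *
      (cm (DN β)⁻¹ * (((Rm m ℂ)ᵀ * Rm m ℂ) * Tx l C))) := by simp only [Matrix.mul_assoc]
      _ = _ := by rw [r2, Matrix.one_mul]
  rw [hrhs, hCcx]
  have hrr : ∀ X : Matrix (Fin (2 * m)) (Fin (2 * m)) ℂ, (Rm m ℂ * X) (Sum.inl i) = Rm m ℂ (Sum.inl i) ᵥ* X := fun X => rfl
  rw [hrr, hrow, vecMul_vecMul, vecMul_vecMul]
  simp only [Matrix.mul_assoc]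

theorem gen_x {m : ℕ} (hm : 1 ≤ m) {β : Fin m → ℚ} (hβ : ∀ j, ∀ a : ℤ, β j ≠ a) (g₀ A₀ D d : ℕ) : ∃ t0 : ℕ, ∀ ξ : ℂ,
    (t0 : ℝ) ≤ ‖ξ‖ → Ht g₀ A₀ ξ → ∀ K : IntermediateField ℚ ℂ, FiniteDimensional ℚ K → Module.finrank ℚ K ≤ D →
    ∀ P : MvPolynomial (S m × S m) K, P.totalDegree ≤ d → MvPolynomial.aeval (fun x => Gx β ξ x.1 x.2) P = 0 →
    ∀ g : Matrix (S m) (S m) ℂ, g * Om m ℂ * gᵀ = Om m ℂ → MvPolynomial.aeval (fun x => g x.1 x.2) P = 0 := by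
  have hR := Pool.Agent.Y681.HG.t_RM
  have hβ' := hbeta hβ
  have hQ : QD (2 * m) (QB β) := QD_QB hm hβ'
  obtain ⟨r1, r2, r3, r4⟩ := hR ℂ m
  obtain ⟨t0, ht0⟩ := one_fibre_alg hQ (fun i j => sdc_hps hβ' hQ i j) g₀ A₀ D d
  refine ⟨t0, fun ξ hξ hht K hK hKD P hPd hP0 g hg => ?_⟩
  -- rational matrices
  let A : Matrix (S m) (Fin (2 * m)) ℚ := Rm m ℚ * DN β
  let B : Matrix (Fin (2 * m)) (S m) ℚ := (DN β)⁻¹ * (Rm m ℚ)ᵀ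
  have hRc : (Rm m ℚ).map (algebraMap ℚ ℂ) = Rm m ℂ := by
    ext s l
    rw [Matrix.map_apply]
    unfold Rm
    rw [Matrix.of_apply, Matrix.of_apply]
    rcases s with i | j
    · simp only
      split_ifs <;> simp
    · simp only
      split_ifs <;> simp
  have hA : A.map (algebraMap ℚ ℂ) = Rm m ℂ * cm (DN β) := by
    show (Rm m ℚ * DN β).map (algebraMap ℚ ℂ) = _
    rw [Matrix.map_mul, hRc]
    rfl
  have hB : B.map (algebraMap ℚ ℂ) = cm (DN β)⁻¹ * (Rm m ℂ)ᵀ := by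
    show ((DN β)⁻¹ * (Rm m ℚ)ᵀ).map (algebraMap ℚ ℂ) = _
    rw [Matrix.map_mul, Matrix.transpose_map, hRc]
    rfl
  -- the substitution
  let f : S m × S m → MvPolynomial (Fin (2 * m) × Fin (2 * m)) K := fun x =>
    ∑ i, ∑ j, MvPolynomial.C (algebraMap ℚ K (A x.1 i * B j x.2)) * MvPolynomial.X (i, j)
  have hf1 : ∀ x, (f x).totalDegree ≤ 1 := by
    intro x
    refine MvPolynomial.totalDegree_finsetSum_le fun i _ => MvPolynomial.totalDegree_finsetSum_le fun j _ => ?_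
    refine (MvPolynomial.totalDegree_mul _ _).trans ?_
    rw [MvPolynomial.totalDegree_C, MvPolynomial.totalDegree_X, zero_add]
  have hfe : ∀ (h : Matrix (Fin (2 * m)) (Fin (2 * m)) ℂ) (R : MvPolynomial (S m × S m) K),
      MvPolynomial.aeval (fun x => h x.1 x.2) (MvPolynomial.aeval f R) =
      MvPolynomial.aeval (fun x : S m × S m => ((Rm m ℂ * cm (DN β)) * h * (cm (DN β)⁻¹ * (Rm m ℂ)ᵀ)) x.1 x.2) R := by
    intro h R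
    rw [MvPolynomial.comp_aeval_apply]
    refine congrArg (fun z => MvPolynomial.aeval z R) (funext fun x => ?_)
    show MvPolynomial.aeval (fun x : Fin (2 * m) × Fin (2 * m) => h x.1 x.2) (∑ i, ∑ j,
      MvPolynomial.C (algebraMap ℚ K (A x.1 i * B j x.2)) * MvPolynomial.X (i, j)) = _
    rw [map_sum]
    simp only [map_sum, map_mul, MvPolynomial.aeval_C, MvPolynomial.aeval_X]
    rw [← hA, ← hB, Matrix.mul_apply]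
    simp only [Matrix.mul_apply, Matrix.map_apply, Finset.sum_mul]
    rw [Finset.sum_comm]
    refine Finset.sum_congr rfl fun j _ => Finset.sum_congr rfl fun i _ => ?_
    have e1 : ∀ q : ℚ, algebraMap K ℂ (algebraMap ℚ K q) = algebraMap ℚ ℂ q := fun q =>
      (IsScalarTower.algebraMap_apply ℚ K ℂ q).symm
    rw [e1, e1]
    ring
  have hP' : MvPolynomial.aeval (fun x => Hf (Hc (2 * m) (QB β)) (1 / ξ) x.1 x.2) (MvPolynomial.aeval f P) = 0 := by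
    rw [hfe, ← hP0]
    refine congrArg (fun z => MvPolynomial.aeval z P) (funext fun x => ?_)
    have : (Rm m ℂ * cm (DN β)) * Hf (Hc (2 * m) (QB β)) (1 / ξ) * (cm (DN β)⁻¹ * (Rm m ℂ)ᵀ) = Gx β ξ := by
      unfold Gx
      simp only [Matrix.mul_assoc]
    rw [this]
  -- the isometry
  have hgt : gᵀ * Om m ℂ * g = Om m ℂ := by
    have hOO : Om m ℂ * Om m ℂ = -1 := by
      rw [← r3]
      calc Rm m ℂ * Jn (2 * m) ℂ * (Rm m ℂ)ᵀ * (Rm m ℂ * Jn (2 * m) ℂ * (Rm m ℂ)ᵀ) =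
          Rm m ℂ * (Jn (2 * m) ℂ * ((Rm m ℂ)ᵀ * Rm m ℂ) * Jn (2 * m) ℂ) * (Rm m ℂ)ᵀ := by simp only [Matrix.mul_assoc]
        _ = _ := by rw [r2, Matrix.mul_one, r4, Matrix.mul_neg, Matrix.mul_one, Matrix.neg_mul, r1]
    have h1 := dual_form (J := Om m ℂ) (g := gᵀ) hOO (by rw [Matrix.transpose_transpose]; exact hg)
    rwa [Matrix.transpose_transpose] at h1
  set k := (Rm m ℂ)ᵀ * g * Rm m ℂ with hk
  have hkf : kᵀ * cm (J0 (2 * m)) * k = cm (J0 (2 * m)) := by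
    rw [J0_eq, hk]
    calc ((Rm m ℂ)ᵀ * g * Rm m ℂ)ᵀ * Jn (2 * m) ℂ * ((Rm m ℂ)ᵀ * g * Rm m ℂ) =
        (Rm m ℂ)ᵀ * (gᵀ * (Rm m ℂ * Jn (2 * m) ℂ * (Rm m ℂ)ᵀ) * g) * Rm m ℂ := by
          rw [Matrix.transpose_mul, Matrix.transpose_mul, Matrix.transpose_transpose]
          simp only [Matrix.mul_assoc]
      _ = (Rm m ℂ)ᵀ * (Rm m ℂ * Jn (2 * m) ℂ * (Rm m ℂ)ᵀ) * Rm m ℂ := by rw [r3, hgt]
      _ = ((Rm m ℂ)ᵀ * Rm m ℂ) * Jn (2 * m) ℂ * ((Rm m ℂ)ᵀ * Rm m ℂ) := by simp only [Matrix.mul_assoc]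
      _ = _ := by rw [r2, Matrix.one_mul, Matrix.mul_one]
  have h5 := ht0 ξ hξ hht K hK hKD (MvPolynomial.aeval f P) ((totalDegree_lin f hf1 P).trans hPd) hP' _ (conj_form' hQ hkf)
  rw [hfe] at h5
  rw [← h5]
  refine congrArg (fun z => MvPolynomial.aeval z P) (funext fun x => ?_)
  have : Rm m ℂ * cm (DN β) * (cm (DN β)⁻¹ * k * cm (DN β)) * (cm (DN β)⁻¹ * (Rm m ℂ)ᵀ) = g := by
    calc Rm m ℂ * cm (DN β) * (cm (DN β)⁻¹ * k * cm (DN β)) * (cm (DN β)⁻¹ * (Rm m ℂ)ᵀ) =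
        Rm m ℂ * ((cm (DN β) * cm (DN β)⁻¹) * k * (cm (DN β) * cm (DN β)⁻¹)) * (Rm m ℂ)ᵀ := by
          simp only [Matrix.mul_assoc]
      _ = (Rm m ℂ * (Rm m ℂ)ᵀ) * g * (Rm m ℂ * (Rm m ℂ)ᵀ) := by
          rw [DN_DI hQ, Matrix.one_mul, Matrix.mul_one, hk]
          simp only [Matrix.mul_assoc]
      _ = _ := by rw [r1, Matrix.one_mul, Matrix.mul_one]
  rw [this]

end Pool.Agent.Y119.HA
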