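import Pool.Agent.Y119.HA.Gen

/-!
# Project HG at algebraic points: the theorems in matrix form
-/

set_option autoImplicit false

open Matrix Filter Pool.Agent.Y119.HY Pool.Agent.Y119.HZ Pool.Agent.Y118.CM Pool.Agent.Y119.HG
open Pool.Agent.Y916.Al (Ht)

namespace Pool.Agent.Y119.HA

theorem dat_x (hDER : T_DER) (hTAN : T_TAN) (hREL : T_REL) (hLIM : T_LIM) {m : ℕ} (hm : 1 ≤ m) {β : Fin m → ℚ}
    (hβ : ∀ j, ∀ a : ℤ, β j ≠ a) {g₀ A₀ D : ℕ} {ξ l : ℕ → ℂ} (hξ : ∀ i : ℕ, (i : ℝ) ≤ ‖ξ i‖) (hξ2 : ∀ i, 2 ≤ ‖ξ i‖)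
    (hht : ∀ i, Ht g₀ A₀ (ξ i)) {K : ℕ → IntermediateField ℚ ℂ} (hK : ∀ i, FiniteDimensional ℚ (K i))
    (hKD : ∀ i, Module.finrank ℚ (K i) ≤ D) {C : ℕ → Matrix (Fin (2 * m)) (Fin (2 * m)) ℂ}
    {M Q : ℕ → Matrix (Fin (2 * m)) (Fin (2 * m)) ℚ} {s κ : ℕ → ℂ} (hC : ∀ i, (C i).det ≠ 0) (hs : ∀ i, s i ≠ 0)
    (hM : ∀ i, C i * cm (M i) = s i • (cm (Am (2 * m)) * C i)) (hQ : ∀ i, (C i)ᵀ * cm (J0 (2 * m)) * C i = κ i • cm (Q i)) :
    Dat (UK K) UL m (gM fun i => Gx β (ξ i)) (gM fun i => Rm m ℂ * Tx (l i) (C i)) := by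
  have hRM := Pool.Agent.Y681.HG.t_RM
  classical
  obtain ⟨r1, r2, r3, r4⟩ := hRM UL m
  set G : Matrix (S m) (S m) UL := gM fun i => Gx β (ξ i) with hG
  -- the symplectic relation
  have hsym : G * Om m UL * Gᵀ = Om m UL := by
    rw [hG, ← gM_Om, ← gM_transpose, ← gM_mul, ← gM_mul]
    congr 1
    funext i
    exact sym_x hm hβ (lt_of_lt_of_le one_lt_two (hξ2 i))
  -- the relations
  have hrel : ∀ P : MvPolynomial (S m × S m) (UK K), MvPolynomial.aeval (fun x => G x.1 x.2) P = 0 →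
      ∀ g : Matrix (S m) (S m) UL, g * Om m UL * gᵀ = Om m UL → MvPolynomial.aeval (fun x => g x.1 x.2) P = 0 := by
    intro P hP g hg
    have h1 := hREL (S m × S m) K (fun i x => Gx β (ξ i) x.1 x.2)
      {g | (Matrix.of fun a b => g (a, b)) * Om m ℂ * (Matrix.of fun a b => g (a, b))ᵀ = Om m ℂ} (fun d => by
        obtain ⟨t0, h⟩ := gen_x hm hβ g₀ A₀ D d
        refine ⟨t0, fun i hi P hPd hP0 g hg => ?_⟩
        exact h (ξ i) (le_trans (by exact_mod_cast hi) (hξ i)) (hht i) (K i) (hK i) (hKD i) P hPd hP0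
          (Matrix.of fun a b => g (a, b)) hg) P hP
    choose f hf using fun x : S m × S m => gm_surj (g x.1 x.2)
    have h2 : gM (fun i => (Matrix.of fun a b => f (a, b) i : Matrix (S m) (S m) ℂ)) = g := by
      ext a b
      exact hf (a, b)
    have h3 : ∀ᶠ i in (hyperfilter ℕ : Filter ℕ), (fun j => f j i) ∈
        {g : S m × S m → ℂ | (Matrix.of fun a b => g (a, b)) * Om m ℂ * (Matrix.of fun a b => g (a, b))ᵀ = Om m ℂ} := by
      have h4 : gM (fun i => (Matrix.of fun a b => f (a, b) i : Matrix (S m) (S m) ℂ) * Om m ℂ *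
          (Matrix.of fun a b => f (a, b) i : Matrix (S m) (S m) ℂ)ᵀ) = gM fun _ => Om m ℂ := by
        rw [gM_mul, gM_mul, gM_transpose, gM_Om, h2, hg]
      have h5 : ∀ a b, ∀ᶠ i in (hyperfilter ℕ : Filter ℕ), ((Matrix.of fun a b => f (a, b) i : Matrix (S m) (S m) ℂ) * Om m ℂ *
          (Matrix.of fun a b => f (a, b) i : Matrix (S m) (S m) ℂ)ᵀ) a b = Om m ℂ a b := fun a b =>
        gm_ext.1 (congrFun (congrFun h4 a) b)
      have h6 : ∀ᶠ i in (hyperfilter ℕ : Filter ℕ), ∀ a b, ((Matrix.of fun a b => f (a, b) i : Matrix (S m) (S m) ℂ) * Om m ℂ *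
          (Matrix.of fun a b => f (a, b) i : Matrix (S m) (S m) ℂ)ᵀ) a b = Om m ℂ a b :=
        eventually_all.2 fun a => eventually_all.2 fun b => h5 a b
      filter_upwards [h6] with i hi
      exact Matrix.ext hi
    have h7 := h1 f h3
    rw [← h7]
    refine congrArg (fun z => MvPolynomial.aeval z P) (funext fun x => ?_)
    exact (hf x).symm
  -- the limit matrix
  set T : Matrix (Fin (2 * m)) (Fin (2 * m)) UL := gM fun i => Tx (l i) (C i) with hT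
  have htt := fun i => tt_x m (l i) (C i) (cm (M i)) (cm (Q i)) (s i) (κ i) (hC i) (hM i) (hQ i)
  have hTd : T.det ≠ 0 := by
    rw [hT, gM_det]
    exact gm_ne fun i => (htt i).1
  have hRT : (gM fun i => Rm m ℂ * Tx (l i) (C i)) = Rm m UL * T := by rw [gM_mul, gM_Rm]
  rw [hRT]
  refine ⟨fun X Z hZ => ?_, ?_, ?_, ?_⟩
  · obtain ⟨D', hD'⟩ := hDER (UK K) UL (S m × S m) (fun x => G x.1 x.2) (fun x => (Ysp X Z * G) x.1 x.2) fun P hP =>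
      hTAN (UK K) UL m G hsym hrel P hP X Z hZ
    exact ⟨D', by
      ext a b
      exact hD' (a, b)⟩
  · obtain ⟨π, hπ⟩ := hLIM (UK K) UL m hm T (kM fun i => (M i).map (algebraMap ℚ (K i)))
      (kM fun i => (Q i).map (algebraMap ℚ (K i))) (gm s) (gm κ) hTd (gm_ne hs) (by
        rw [kM_rat, ← gM_Nn, hT, ← gM_mul, ← gM_mul, ← gM_smul]
        congr 1
        funext i
        exact (htt i).2.1) (by
        rw [kM_rat, ← gM_Jn, hT, ← gM_transpose, ← gM_mul, ← gM_mul, ← gM_smul]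
        congr 1
        funext i
        exact (htt i).2.2.1)
    let μ : Matrix (S m) (Fin (2 * m)) UL →ₗ[UL] Matrix (Fin (2 * m)) (Fin (2 * m)) UL :=
      { toFun := fun X => (Rm m UL)ᵀ * X
        map_add' := fun X Y => Matrix.mul_add _ _ _
        map_smul' := fun c X => Matrix.mul_smul _ _ _ }
    have hμ : ∀ X, μ X = (Rm m UL)ᵀ * X := fun _ => rfl
    refine ⟨π.comp μ, fun D' h0 => ?_⟩
    have h1 : (Rm m UL * T).map D' = Rm m UL * T.map D' := by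
      ext a b
      rw [Matrix.map_apply, Matrix.mul_apply, Matrix.mul_apply, map_sum]
      refine Finset.sum_congr rfl fun l _ => ?_
      rw [D'.leibniz, Rm_der, smul_zero, add_zero, smul_eq_mul, Matrix.map_apply]
    have h2 : π (T.map D') = 0 := by
      rw [← h0, LinearMap.comp_apply, hμ, h1, ← Matrix.mul_assoc, r2, Matrix.one_mul]
    obtain ⟨z, hz⟩ := hπ D' h2
    exact ⟨z, by rw [h1, hz, Matrix.mul_smul]⟩
  · refine ⟨Om m UL * Gᵀ * (-Om m UL), ?_⟩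
    rw [← Matrix.mul_assoc, ← Matrix.mul_assoc, hsym, Matrix.mul_neg, Om_sq, neg_neg]
  · have hu : IsUnit T.det := isUnit_iff_ne_zero.2 hTd
    refine ⟨T⁻¹ * (Rm m UL)ᵀ, ?_, ?_⟩
    · rw [Matrix.mul_assoc, ← Matrix.mul_assoc T, Matrix.mul_nonsing_inv _ hu, Matrix.one_mul, r1]
    · rw [Matrix.mul_assoc, ← Matrix.mul_assoc (Rm m UL)ᵀ, r2, Matrix.one_mul, Matrix.nonsing_inv_mul _ hu]

/-- M1 at algebraic points -/
theorem m1_x (hDER : T_DER) (hTAN : T_TAN) (hREL : T_REL) (hLIM : T_LIM) (hEND : T_END) {m : ℕ} (hm : 4 ≤ m) {β : Fin m → ℚ}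
    (hβ : ∀ j, ∀ a : ℤ, β j ≠ a) (g₀ A₀ D : ℕ) : ∃ t0 : ℕ, 2 ≤ t0 ∧ ∀ ξ l : ℂ, (t0 : ℝ) ≤ ‖ξ‖ → Ht g₀ A₀ ξ →
    ∀ K : IntermediateField ℚ ℂ, FiniteDimensional ℚ K → Module.finrank ℚ K ≤ D →
    ∀ (C : Matrix (Fin (2 * m)) (Fin (2 * m)) ℂ) (M Q : Matrix (Fin (2 * m)) (Fin (2 * m)) ℚ) (s κ : ℂ), C.det ≠ 0 → s ≠ 0 →
    C * cm M = s • (cm (Am (2 * m)) * C) → Cᵀ * cm (J0 (2 * m)) * C = κ • cm Q →
    ∀ (a a' : Matrix (Fin (2 * m)) (Fin (2 * m)) K) (c b d : Matrix (Fin m) (Fin m) ℂ), (∀ i j, i < j → c i j = 0) →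
    (∀ i j, j < i → d i j = 0) →
    Gx β ξ * (Rm m ℂ * Tx l C) * a.map (algebraMap K ℂ) = fromBlocks c 0 b d * (Gx β ξ * (Rm m ℂ * Tx l C)) →
    Gx β ξ * (Rm m ℂ * Tx l C) * a'.map (algebraMap K ℂ) = fromBlocks dᵀ 0 (-bᵀ) cᵀ * (Gx β ξ * (Rm m ℂ * Tx l C)) →
    ∃ σ : ℂ, ∀ i, c i i = σ ∧ d i i = σ := by
  by_contra hcon
  push Not at hcon
  choose ξ l hξ hht K hK hKD C M Q s κ hC hs hM hQ a a' c b d hc hd h1 h2 h3 using
    fun i : ℕ => hcon (max i 2) (le_max_right _ _)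
  have hξ1 : ∀ i : ℕ, (i : ℝ) ≤ ‖ξ i‖ := fun i => le_trans (by exact_mod_cast le_max_left i 2) (hξ i)
  have hξ2 : ∀ i : ℕ, (2 : ℝ) ≤ ‖ξ i‖ := fun i => le_trans (by exact_mod_cast le_max_right i 2) (hξ i)
  have hdat := dat_x hDER hTAN hREL hLIM (by omega) hβ (D := D) (l := l) hξ1 hξ2 hht (K := K) hK hKD hC hs hM hQ
  obtain ⟨σ, hσ⟩ := hEND (UK K) UL m hm (Fin (2 * m)) _ _ hdat (kM a) (kM a') (gM c) (gM b) (gM d)
    (fun i j hij => by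
      rw [gM_apply]
      have : (fun l => c l i j) = 0 := funext fun l => hc l i j hij
      rw [this, gm_zero])
    (fun i j hij => by
      rw [gM_apply]
      have : (fun l => d l i j) = 0 := funext fun l => hd l i j hij
      rw [this, gm_zero])
    (by
      rw [kM_map, ← gM_zero, ← gM_blocks, ← gM_mul, ← gM_mul, ← gM_mul]
      congr 1
      funext i
      exact h1 i)
    (by
      rw [kM_map, ← gM_zero, ← gM_transpose, ← gM_transpose, ← gM_transpose, ← gM_neg, ← gM_blocks, ← gM_mul, ← gM_mul,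
        ← gM_mul]
      congr 1
      funext i
      exact h2 i)
  have hm0 : 0 < m := by omega
  have h4 : ∀ j : Fin m, ∀ᶠ i in (hyperfilter ℕ : Filter ℕ), c i j j = c i ⟨0, hm0⟩ ⟨0, hm0⟩ ∧ d i j j = c i ⟨0, hm0⟩ ⟨0, hm0⟩ := by
    intro j
    have h5 : gm (fun i => c i j j) = gm fun i => c i ⟨0, hm0⟩ ⟨0, hm0⟩ := (hσ j).1.trans (hσ ⟨0, hm0⟩).1.symm
    have h6 : gm (fun i => d i j j) = gm fun i => c i ⟨0, hm0⟩ ⟨0, hm0⟩ := (hσ j).2.trans (hσ ⟨0, hm0⟩).1.symm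
    exact (gm_ext.1 h5).and (gm_ext.1 h6)
  obtain ⟨i, hi⟩ := (eventually_all.2 h4).exists
  obtain ⟨j, hj⟩ := h3 i (c i ⟨0, hm0⟩ ⟨0, hm0⟩)
  exact hj (hi j).1 (hi j).2

/-- M2 at algebraic points -/
theorem m2_x (hDER : T_DER) (hTAN : T_TAN) (hREL : T_REL) (hLIM : T_LIM) (hSTEP : T_STEP) {m : ℕ} (hm : 3 ≤ m) {β : Fin m → ℚ}
    (hβ : ∀ j, ∀ a : ℤ, β j ≠ a) (g₀ A₀ D : ℕ) : ∃ t0 : ℕ, 2 ≤ t0 ∧ ∀ ξ l : ℂ, (t0 : ℝ) ≤ ‖ξ‖ → Ht g₀ A₀ ξ →
    ∀ K : IntermediateField ℚ ℂ, FiniteDimensional ℚ K → Module.finrank ℚ K ≤ D →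
    ∀ (C : Matrix (Fin (2 * m)) (Fin (2 * m)) ℂ) (M Q : Matrix (Fin (2 * m)) (Fin (2 * m)) ℚ) (s κ : ℂ), C.det ≠ 0 → s ≠ 0 →
    C * cm M = s • (cm (Am (2 * m)) * C) → Cᵀ * cm (J0 (2 * m)) * C = κ • cm Q →
    ∀ p : ℕ, 1 ≤ p → p ≤ m → ∀ (x : Fin p → Fin (2 * m) → K) (e e' : Fin p → Fin p → ℂ),
    (∀ (i : Fin m) (hi : (i : ℕ) < p), (Gx β ξ * (Rm m ℂ * Tx l C)) (Sum.inl i) = ∑ j, e ⟨i, hi⟩ j • fun l => ((x j l : K) : ℂ)) →
    (∀ j : Fin p, (fun l => ((x j l : K) : ℂ)) = ∑ i : Fin m, if h : (i : ℕ) < p then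
      e' j ⟨i, h⟩ • (Gx β ξ * (Rm m ℂ * Tx l C)) (Sum.inl i) else 0) →
    False := by
  -- one step
  have key : ∀ p : ℕ, 1 ≤ p → p ≤ m → ∃ t0 : ℕ, 2 ≤ t0 ∧ ∀ ξ l : ℂ, (t0 : ℝ) ≤ ‖ξ‖ → Ht g₀ A₀ ξ →
      ∀ K : IntermediateField ℚ ℂ, FiniteDimensional ℚ K → Module.finrank ℚ K ≤ D →
      ∀ (C : Matrix (Fin (2 * m)) (Fin (2 * m)) ℂ) (M Q : Matrix (Fin (2 * m)) (Fin (2 * m)) ℚ) (s κ : ℂ), C.det ≠ 0 → s ≠ 0 →
      C * cm M = s • (cm (Am (2 * m)) * C) → Cᵀ * cm (J0 (2 * m)) * C = κ • cm Q →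
      ∀ (x : Matrix (Fin p) (Fin (2 * m)) K) (e e' : Matrix (Fin p) (Fin p) ℂ),
      (∀ (i : Fin m) (hi : (i : ℕ) < p), (Gx β ξ * (Rm m ℂ * Tx l C)) (Sum.inl i) =
        ∑ j, e ⟨i, hi⟩ j • fun l => ((x j l : K) : ℂ)) →
      (∀ j : Fin p, (fun l => ((x j l : K) : ℂ)) = ∑ i : Fin m, if h : (i : ℕ) < p then
        e' j ⟨i, h⟩ • (Gx β ξ * (Rm m ℂ * Tx l C)) (Sum.inl i) else 0) →
      False := by
    intro p hp1 hpm
    by_contra hcon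
    push Not at hcon
    choose ξ l hξ hht K hK hKD C M Q s κ hC hs hM hQ x e e' h1 h2 _ using fun i : ℕ => hcon (max i 2) (le_max_right _ _)
    have hξ1 : ∀ i : ℕ, (i : ℝ) ≤ ‖ξ i‖ := fun i => le_trans (by exact_mod_cast le_max_left i 2) (hξ i)
    have hξ2 : ∀ i : ℕ, (2 : ℝ) ≤ ‖ξ i‖ := fun i => le_trans (by exact_mod_cast le_max_right i 2) (hξ i)
    have hdat := dat_x hDER hTAN hREL hLIM (by omega) hβ (D := D) (l := l) hξ1 hξ2 hht (K := K) hK hKD hC hs hM hQ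
    refine hSTEP (UK K) UL m hm (Fin (2 * m)) _ _ hdat p hp1 hpm (kM x) (gM e) (gM e') ?_ ?_
    · intro i hi
      funext l₁
      rw [← gM_mul, gM_apply]
      have h3 : ∀ r, (Gx β (ξ r) * (Rm m ℂ * Tx (l r) (C r))) (Sum.inl i) l₁ = ∑ j, e r ⟨i, hi⟩ j * ((x r j l₁ : K r) : ℂ) := by
        intro r
        have := congrFun (h1 r i hi) l₁
        rw [this, Finset.sum_apply]
        rfl
      simp only [h3]
      rw [Finset.sum_apply]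
      have h4 : (fun r => ∑ j, e r ⟨i, hi⟩ j * ((x r j l₁ : K r) : ℂ)) = ∑ j, (fun r => e r ⟨i, hi⟩ j) * fun r => ((x r j l₁ : K r) : ℂ) := by
        funext r
        rw [Finset.sum_apply]
        rfl
      rw [h4, gm_eq, map_sum]
      exact Finset.sum_congr rfl fun j _ => map_mul _ _ _
    · intro j
      funext l₁
      have h3 : ∀ r, ((x r j l₁ : K r) : ℂ) = ∑ i : Fin m, if h : (i : ℕ) < p then
          e' r j ⟨i, h⟩ * (Gx β (ξ r) * (Rm m ℂ * Tx (l r) (C r))) (Sum.inl i) l₁ else 0 := by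
        intro r
        have := congrFun (h2 r j) l₁
        rw [this, Finset.sum_apply]
        refine Finset.sum_congr rfl fun i _ => ?_
        split_ifs
        · rfl
        · rfl
      show gm (fun r => ((x r j l₁ : K r) : ℂ)) = _
      simp only [h3]
      rw [Finset.sum_apply]
      have h4 : (fun r => ∑ i : Fin m, if h : (i : ℕ) < p then
          e' r j ⟨i, h⟩ * (Gx β (ξ r) * (Rm m ℂ * Tx (l r) (C r))) (Sum.inl i) l₁ else 0) = ∑ i : Fin m, if h : (i : ℕ) < p then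
          (fun r => e' r j ⟨i, h⟩) * fun r => (Gx β (ξ r) * (Rm m ℂ * Tx (l r) (C r))) (Sum.inl i) l₁ else 0 := by
        funext r
        rw [Finset.sum_apply]
        refine Finset.sum_congr rfl fun i _ => ?_
        split_ifs
        · rfl
        · rfl
      rw [h4, gm_eq, map_sum]
      refine Finset.sum_congr rfl fun i _ => ?_
      by_cases hi : (i : ℕ) < p
      · rw [dif_pos hi, dif_pos hi, map_mul, ← gM_mul]
        rfl
      · rw [dif_neg hi, dif_neg hi, map_zero]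
        rfl
  -- the maximum
  have key2 : ∀ p : ℕ, ∃ t0 : ℕ, 2 ≤ t0 ∧ (1 ≤ p → p ≤ m → ∀ ξ l : ℂ, (t0 : ℝ) ≤ ‖ξ‖ → Ht g₀ A₀ ξ →
      ∀ K : IntermediateField ℚ ℂ, FiniteDimensional ℚ K → Module.finrank ℚ K ≤ D →
      ∀ (C : Matrix (Fin (2 * m)) (Fin (2 * m)) ℂ) (M Q : Matrix (Fin (2 * m)) (Fin (2 * m)) ℚ) (s κ : ℂ), C.det ≠ 0 → s ≠ 0 →
      C * cm M = s • (cm (Am (2 * m)) * C) → Cᵀ * cm (J0 (2 * m)) * C = κ • cm Q →
      ∀ (x : Matrix (Fin p) (Fin (2 * m)) K) (e e' : Matrix (Fin p) (Fin p) ℂ),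
      (∀ (i : Fin m) (hi : (i : ℕ) < p), (Gx β ξ * (Rm m ℂ * Tx l C)) (Sum.inl i) =
        ∑ j, e ⟨i, hi⟩ j • fun l => ((x j l : K) : ℂ)) →
      (∀ j : Fin p, (fun l => ((x j l : K) : ℂ)) = ∑ i : Fin m, if h : (i : ℕ) < p then
        e' j ⟨i, h⟩ • (Gx β ξ * (Rm m ℂ * Tx l C)) (Sum.inl i) else 0) →
      False) := by
    intro p
    by_cases h : 1 ≤ p ∧ p ≤ m
    · obtain ⟨t0, h2, h3⟩ := key p h.1 h.2
      exact ⟨t0, h2, fun _ _ => h3⟩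
    · exact ⟨2, le_rfl, fun h1 h2 => absurd ⟨h1, h2⟩ h⟩
  choose t0 h2 h3 using key2
  refine ⟨(Finset.range (m + 1)).sup t0 + 2, by omega, fun ξ l hξ hht K hK hKD C M Q s κ hC hs hM hQ p hp1 hpm x e e' e1 e2 => ?_⟩
  have h4 : t0 p ≤ (Finset.range (m + 1)).sup t0 := Finset.le_sup (Finset.mem_range.2 (by omega))
  exact h3 p hp1 hpm ξ l (le_trans (by exact_mod_cast (by omega : t0 p ≤ (Finset.range (m + 1)).sup t0 + 2)) hξ) hht K hK hKD C M Q s κ hC hs hM hQ x e e' e1 e2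

end Pool.Agent.Y119.HA
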