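import Pool.Agent.Y119.HA.Base
import Mathlib.RingTheory.AlgebraicIndependent.Transcendental

/-!
# All relations of bounded degree between the entries of the holomorphic part at algebraic points near the origin
-/

set_option autoImplicit false

open Matrix PowerSeries Pool.Agent.Y113 Pool.Agent.Y120.GF Pool.Agent.Y120.GH Pool.Agent.Y119.HZ

namespace Pool.Agent.Y119.HA

open Pool.Agent.Y119.HY (QD Am Jm cm E Hf Hc E_isom E_mul_neg)
open Pool.Agent.Y916.Al (Ht)

variable {n : ℕ} {Q : Polynomial ℚ}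

/-- shifts of points of bounded height -/
theorem ht_add (m A G : ℕ) : ∃ B : ℝ, ∀ ξ : ℂ, B ≤ ‖ξ‖ → Ht m A ξ → Ht m (A + 1) (ξ + G) := by
  classical
  set b : ℝ := ∑ j ∈ Finset.range (m + 1), ∑ i ∈ Finset.range (m + 1),
    |(((Polynomial.X - Polynomial.C (G : ℤ)) ^ j).coeff i : ℝ)| with hb
  have hb0 : 0 ≤ b := Finset.sum_nonneg fun _ _ => Finset.sum_nonneg fun _ _ => abs_nonneg _
  refine ⟨2 * G + 2 + 2 * (2 ^ A * b), fun ξ hξ ⟨p, hp0, hpd, hpc, hp⟩ => ?_⟩
  have hG0 : (0 : ℝ) ≤ G := Nat.cast_nonneg G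
  have h2b : 0 ≤ 2 ^ A * b := by positivity
  have hξ1 : ‖ξ‖ ≤ 2 * ‖ξ + G‖ := by
    have h1 := norm_sub_norm_le ξ (-(G : ℂ))
    rw [norm_neg, Complex.norm_natCast, sub_neg_eq_add] at h1
    linarith
  set q : Polynomial ℤ := p.comp (Polynomial.X - Polynomial.C (G : ℤ)) with hq
  have hqd : q.natDegree ≤ m := by
    rw [hq, Polynomial.natDegree_comp, Polynomial.natDegree_X_sub_C, mul_one]
    exact hpd
  refine ⟨q, ?_, hqd, fun i => ?_, ?_⟩
  · intro h0
    apply hp0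
    have h1 : q.comp (Polynomial.X + Polynomial.C (G : ℤ)) = p := by
      rw [hq, Polynomial.comp_assoc]
      simp
    rw [← h1, h0, Polynomial.zero_comp]
  · by_cases hi : i ≤ m
    · have h1 : q = ∑ j ∈ Finset.range (m + 1), Polynomial.C (p.coeff j) * (Polynomial.X - Polynomial.C (G : ℤ)) ^ j := by
        rw [hq, Polynomial.comp, Polynomial.eval₂_eq_sum_range' _ (Nat.lt_succ_of_le hpd)]
      have h2 : (q.coeff i : ℝ) = ∑ j ∈ Finset.range (m + 1), (p.coeff j : ℝ) *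
          (((Polynomial.X - Polynomial.C (G : ℤ)) ^ j).coeff i : ℝ) := by
        rw [h1, Polynomial.finsetSum_coeff]
        push_cast
        refine Finset.sum_congr rfl fun j _ => ?_
        rw [Polynomial.coeff_C_mul]
        push_cast
        rfl
      rw [h2]
      calc |∑ j ∈ Finset.range (m + 1), (p.coeff j : ℝ) * (((Polynomial.X - Polynomial.C (G : ℤ)) ^ j).coeff i : ℝ)|
          ≤ ∑ j ∈ Finset.range (m + 1), ‖ξ‖ ^ A * |(((Polynomial.X - Polynomial.C (G : ℤ)) ^ j).coeff i : ℝ)| := by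
            refine (Finset.abs_sum_le_sum_abs _ _).trans (Finset.sum_le_sum fun j _ => ?_)
            rw [abs_mul]
            exact mul_le_mul_of_nonneg_right (hpc j) (abs_nonneg _)
        _ ≤ ‖ξ‖ ^ A * b := by
            rw [← Finset.mul_sum]
            refine mul_le_mul_of_nonneg_left ?_ (by positivity)
            refine Finset.sum_le_sum fun j _ => ?_
            exact Finset.single_le_sum (f := fun i => |(((Polynomial.X - Polynomial.C (G : ℤ)) ^ j).coeff i : ℝ)|)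
              (fun _ _ => abs_nonneg _) (Finset.mem_range.2 (Nat.lt_succ_of_le hi))
        _ ≤ (2 * ‖ξ + G‖) ^ A * b := mul_le_mul_of_nonneg_right (pow_le_pow_left₀ (norm_nonneg _) hξ1 _) hb0
        _ = (2 ^ A * b) * ‖ξ + G‖ ^ A := by rw [mul_pow]; ring
        _ ≤ ‖ξ + G‖ * ‖ξ + G‖ ^ A := mul_le_mul_of_nonneg_right (by linarith) (by positivity)
        _ = ‖ξ + G‖ ^ (A + 1) := by rw [pow_succ]; ring
    · rw [Polynomial.coeff_eq_zero_of_natDegree_lt (by omega)]
      simp only [Int.cast_zero, abs_zero]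
      positivity
  · rw [hq, Polynomial.aeval_comp]
    simpa using hp

/-- **All relations of bounded degree over number fields of bounded degree between the entries of the holomorphic part at
`1 / ξ`, `ξ` algebraic of bounded degree, of height at most `|ξ|^A`, `|ξ|` large, hold on the symplectic group.** -/
theorem one_fibre_alg (hQ : QD n Q) (hH : ∀ i j, SDc (Hp n Q i j)) (m A D d : ℕ) :
    ∃ E₀ : ℕ, ∀ ξ : ℂ, (E₀ : ℝ) ≤ ‖ξ‖ → Ht m A ξ →
    ∀ K : IntermediateField ℚ ℂ, FiniteDimensional ℚ K → Module.finrank ℚ K ≤ D →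
    ∀ P : MvPolynomial (Fin n × Fin n) K, P.totalDegree ≤ d →
    MvPolynomial.aeval (fun x => Hf (Hc n Q) (1 / ξ) x.1 x.2) P = 0 →
    ∀ g : Matrix (Fin n) (Fin n) ℂ, g.transpose * cm (Jm n Q) * g = cm (Jm n Q) →
    MvPolynomial.aeval (fun x => g x.1 x.2) P = 0 := by
  classical
  obtain ⟨G0, hG0, hwin⟩ := Pool.Agent.Y916.Af.winNs (nrh_hf hQ hH) (sz_hf hQ hH)
  obtain ⟨δ₁, Ex, hE⟩ := hwin G0 le_rfl 0 Fin.elim0 0 1 m D d (A + 1)
  obtain ⟨B, hB⟩ := ht_add m A G0
  obtain ⟨N₁, hN₁⟩ := exists_nat_ge B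
  refine ⟨N₁ + 3 ^ Ex + G0 + 2, fun ξ hξ hHt K hK hKD P hPd hP0 g hg => ?_⟩
  push_cast at hξ
  have hG0R : (0 : ℝ) ≤ G0 := Nat.cast_nonneg G0
  have hN0R : (0 : ℝ) ≤ N₁ := Nat.cast_nonneg N₁
  have h3 : (0 : ℝ) ≤ 3 ^ Ex := by positivity
  have hHt' := hB ξ (by linarith) hHt
  have hbig : (((1 : ℕ) : ℝ) + 2) ^ Ex ≤ ‖ξ + G0‖ := by
    have h1 := norm_sub_norm_le ξ (-(G0 : ℂ))
    rw [norm_neg, Complex.norm_natCast, sub_neg_eq_add] at h1
    have h4 : (((1 : ℕ) : ℝ) + 2) ^ Ex = 3 ^ Ex := by norm_num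
    rw [h4]
    linarith
  obtain ⟨S, hS, hmain⟩ := hE 1 (ξ + G0) hbig hHt' Fin.elim0
  have hcard : S.card = 0 := by
    have h1 : (S.card : Cardinal) ≤ 0 := by
      refine hS.trans (le_of_eq ?_)
      rw [Nat.cast_zero, add_zero]
      have h2 : IntermediateField.adjoin ℚ (Set.range (Fin.elim0 : Fin 0 → ℂ)) = ⊥ := by
        rw [IntermediateField.adjoin_eq_bot_iff]
        rintro _ ⟨i, -⟩
        exact i.elim0
      rw [h2]
      exact trdeg_eq_zero
    have h2 : (S.card : Cardinal) = 0 := le_antisymm h1 bot_le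
    exact_mod_cast h2
  have hS0 : S = ∅ := Finset.card_eq_zero.1 hcard
  subst hS0
  have hz : ‖1 / ξ‖ < 1 := by
    rw [norm_div, norm_one, div_lt_one (by linarith)]
    linarith
  have hpt : ∀ u : Fin 1 → ℕ, u = (fun _ => 1) → (fun j : Fin 1 => (ξ + G0) - ((G0 * u j : ℕ) : ℂ)) = fun _ => ξ := by
    rintro u rfl
    funext j
    push_cast
    ring
  set e : Fin 1 × Fin (n * n) → Fin n × Fin n := fun a => ix n a.2 with he
  have hm := hmain (fun _ => 1) (fun i j _ => Subsingleton.elim i j) (fun j => ⟨le_rfl, le_rfl, by simp⟩)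
    (Pool.Agent.Y118.CM.Spt (cm (Jm n Q)) e) (Pool.Agent.Y916.Af.irrD_of_irr
      (Pool.Agent.Y118.CM.sp_irr (Pool.Agent.Y119.HY.Jc_skew hQ) (Pool.Agent.Y119.HY.Jc_det hQ) e) _) (by
      rw [hpt _ rfl]
      refine ⟨Hf (Hc n Q) (1 / ξ), form_c hQ hz, ?_⟩
      funext a
      exact evc_hf _ _) (by
      rintro y ⟨g', hg', rfl⟩ j
      have h5 : (ξ + G0) - ((G0 * 1 : ℕ) : ℂ) = ξ := by
        push_cast
        ring
      rw [h5]
      exact mem_Vc hQ hz hg') K hK hKD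
    (MvPolynomial.rename (fun x : Fin n × Fin n => (Sum.inr ((0 : Fin 1), (ix n).symm x) :
      (Fin 0 ⊕ Fin 0) ⊕ Fin 1 × Fin (n * n))) P) ((MvPolynomial.totalDegree_rename_le _ _).trans hPd) (by
      rw [MvPolynomial.aeval_rename, ← hP0, hpt _ rfl]
      refine congrArg (fun z => MvPolynomial.aeval z P) (funext fun x => ?_)
      show Pool.Agent.Y916.Al.evc (1 / ξ) (hf n Q ((ix n).symm x)) = _
      rw [evc_hf, Equiv.apply_symm_apply]) (fun a => g (e a).1 (e a).2) ⟨g, hg, rfl⟩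
  rw [MvPolynomial.aeval_rename] at hm
  rw [← hm]
  refine congrArg (fun z => MvPolynomial.aeval z P) (funext fun x => ?_)
  show _ = g (ix n ((ix n).symm x)).1 (ix n ((ix n).symm x)).2
  rw [Equiv.apply_symm_apply]

end Pool.Agent.Y119.HA
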