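import Pool.Agent.Y119.HA.Base
import Pool.Agent.Y916.Sl.Many

/-!
# Almost all tuples of fibres of the hypergeometric family at algebraic integers of bounded degree
-/

set_option autoImplicit false

open Matrix PowerSeries Pool.Agent.Y113 Pool.Agent.Y120.GF Pool.Agent.Y120.GH Pool.Agent.Y119.HZ

namespace Pool.Agent.Y119.HA

open Pool.Agent.Y119.HY (QD Am Jm cm E Hf Hc E_isom E_mul_neg)

variable {n : ℕ} {Q : Polynomial ℚ} {k : ℕ}

/-! ### spaces of coefficients -/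

theorem mul_span (L : IntermediateField ℚ ℂ) {W' W'' : Submodule ℚ ℂ} {x : ℂ} (h : ∀ w ∈ W', w * x ∈ W'') {v : ℂ}
    (hv : v ∈ Submodule.span L (W' : Set ℂ)) : v * x ∈ Submodule.span L (W'' : Set ℂ) := by
  induction hv using Submodule.span_induction with
  | mem w hw => exact Submodule.subset_span (h w hw)
  | zero =>
    rw [zero_mul]
    exact Submodule.zero_mem _
  | add a b _ _ ha hb =>
    rw [add_mul]
    exact Submodule.add_mem _ ha hb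
  | smul c a _ ha =>
    rw [smul_mul_assoc]
    exact Submodule.smul_mem _ c ha

theorem Vn_span (L : IntermediateField ℚ ℂ) {n : Fin k → ℕ} (Ω : ∀ i, Matrix (Fin (n i)) (Fin (n i)) ℂ)
    {V V' : Submodule ℚ ℂ} (h : ∀ v ∈ V, v ∈ Submodule.span L (V' : Set ℂ)) (d : ℕ) :
    ∀ v ∈ Vn Ω V d, v ∈ Submodule.span L (Vn Ω V' d : Set ℂ) := by
  induction d with
  | zero => exact h
  | succ d ih =>
    rintro _ ⟨u, rfl⟩
    rw [extMap_apply]
    refine Submodule.sum_mem _ fun b _ => ?_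
    exact mul_span L (fun w hw => mem_Ext_one Ω b hw) (ih _ (u b).2)

/-! ### the irreducible set -/

/-- the product of the symplectic groups and of the lines of the logarithms -/
def Ys (k n : ℕ) (Q : Polynomial ℚ) : Set (Fin k × Option (Fin (n * n)) → ℂ) :=
  {y | ∀ j, (fun o => y (j, o)) ∈ {y : Option (Fin (n * n)) → ℂ |
    (fun s => y (some s)) ∈ Pool.Agent.Y118.CM.Spt (cm (Jm n Q)) (ix n)}}

theorem ys_irr (hQ : QD n Q) (d : ℕ) : Pool.Agent.Y916.Af.IrrD d (Ys k n Q) :=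
  Pool.Agent.Y916.Af.prod_irrD _ fun _ => Pool.Agent.Y916.Af.opt_irrD _ (Pool.Agent.Y916.Af.irrD_of_irr
    (Pool.Agent.Y118.CM.sp_irr (Pool.Agent.Y119.HY.Jc_skew hQ) (Pool.Agent.Y119.HY.Jc_det hQ) (ix n)) d)

/-- the coordinates -/
def cf2 (v : Vx (fun _ : Fin k => n)) : Fin k × Option (Fin (n * n)) := (v.1, v.2)

/-- the point of a tuple of matrices and numbers -/
def yp (Z : Fin k → Matrix (Fin n) (Fin n) ℂ) (l : Fin k → ℂ) : Fin k × Option (Fin (n * n)) → ℂ :=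
  fun a => a.2.elim (l a.1) fun j => Z a.1 (ix n j).1 (ix n j).2

theorem yp_mem {Z : Fin k → Matrix (Fin n) (Fin n) ℂ} (hZ : ∀ i, (Z i).transpose * cm (Jm n Q) * Z i = cm (Jm n Q))
    (l : Fin k → ℂ) : yp Z l ∈ Ys k n Q := fun j => ⟨Z j, hZ j, rfl⟩

theorem aeval_yp (Ω : Fin k → Matrix (Fin n) (Fin n) ℂ) (Z : Fin k → Matrix (Fin n) (Fin n) ℂ) (l : Fin k → ℂ)
    (P : MvPolynomial (Jx (fun _ : Fin k => n)) ℂ) :
    MvPolynomial.aeval (yp Z l) (MvPolynomial.rename cf2 (MvPolynomial.aeval (sub' (n := fun _ : Fin k => n) Ω) P)) =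
      MvPolynomial.aeval (pw (n := fun _ : Fin k => n) l fun i => Z i * E (cm (Am n)) (-l i) * Ω i) P := by
  rw [MvPolynomial.aeval_rename]
  have h1 : (yp Z l ∘ cf2) = Pool.Agent.Y120.GH.pt (r := fun _ : Fin k => n * n) (fun i j => Z i (ix n j).1 (ix n j).2) l := rfl
  rw [h1]
  have h2 : MvPolynomial.aeval (Pool.Agent.Y120.GH.pt (r := fun _ : Fin k => n * n) (fun i j => Z i (ix n j).1 (ix n j).2) l)
      (MvPolynomial.aeval (sub' (n := fun _ : Fin k => n) Ω) P) =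
      MvPolynomial.aeval (fun v => MvPolynomial.aeval (Pool.Agent.Y120.GH.pt (r := fun _ : Fin k => n * n)
        (fun i j => Z i (ix n j).1 (ix n j).2) l) (sub' (n := fun _ : Fin k => n) Ω v)) P := MvPolynomial.aeval_bind₁ _ _ _
  rw [h2]
  have h3 := fun v => aeval_sub' (n := fun _ : Fin k => n) Ω Z l v
  simp only [h3]

/-! ### almost all tuples -/

/-- the exceptional tuples -/
def ExcH (n : ℕ) (Q : Polynomial ℚ) (δ d : ℕ) (V : Submodule ℚ ℂ) {k : ℕ} (Ω : Fin k → Matrix (Fin n) (Fin n) ℂ)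
    (α : Fin k → ℂ) : Prop :=
  ∃ ℓ : Fin k → ℂ, (∀ i, Complex.exp (ℓ i) = α i) ∧
    ∃ L : IntermediateField ℚ ℂ, FiniteDimensional ℚ L ∧ Module.finrank ℚ L ≤ d ∧
    ∃ P : MvPolynomial (Jx (fun _ : Fin k => n)) ℂ, P.totalDegree ≤ δ ∧
      (∀ s, P.coeff s ∈ Submodule.span L (V : Set ℂ)) ∧
      MvPolynomial.aeval (pw (n := fun _ : Fin k => n) ℓ fun i => Hf (Hc n Q) (1 / α i) * E (cm (Am n)) (-ℓ i) * Ω i) P = 0 ∧
      ∃ (l : Fin k → ℂ) (g : Fin k → Matrix (Fin n) (Fin n) ℂ),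
        (∀ i, (g i).transpose * cm (Jm n Q) * g i = cm (Jm n Q)) ∧
        MvPolynomial.aeval (pw (n := fun _ : Fin k => n) l fun i => g i * Ω i) P ≠ 0

theorem exc_of (hQ : QD n Q) (δ₁ : ℕ) {δ d : ℕ} {V : Submodule ℚ ℂ} {Ω : Fin k → Matrix (Fin n) (Fin n) ℂ}
    {α : Fin k → ℂ} (h1 : ∀ i, 1 < ‖α i‖) (hα : ExcH n Q δ d V Ω α) :
    Pool.Agent.Y916.Af.ExcD δ₁ (hf n Q) (δ * dg (fun _ : Fin k => n)) d (Vn (n := fun _ : Fin k => n) Ω V δ) α := by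
  obtain ⟨ℓ, hℓ, L, hL1, hL2, P, hPd, hPc, hP0, l, g, hg, hPg⟩ := hα
  have hz : ∀ i, ‖1 / α i‖ < 1 := by
    intro i
    rw [norm_div, norm_one, div_lt_one (by linarith [h1 i])]
    exact h1 i
  have hN : cm (Am n) ^ n = 0 := Pool.Agent.Y119.HY.Ac_nil
  have hEiso : ∀ s : ℂ, (E (cm (Am n)) s).transpose * cm (Jm n Q) * E (cm (Am n)) s = cm (Jm n Q) :=
    fun s => E_isom hN Pool.Agent.Y119.HY.Jc_rel s
  set W : Submodule ℚ ℂ := (Submodule.span L (V : Set ℂ)).restrictScalars ℚ with hW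
  have hMV := aeval_MV' (n := fun _ : Fin k => n) Ω (V := W) hPd hPc
  refine ⟨ℓ, hℓ, Ys k n Q, ys_irr hQ δ₁, ?_, ?_, L, hL1, hL2,
    MvPolynomial.rename cf2 (MvPolynomial.aeval (sub' (n := fun _ : Fin k => n) Ω) P), ?_, ?_, ?_, ?_⟩
  · have h3 : Pool.Agent.Y916.Af.ptc (hf n Q) α ℓ = yp (fun i => Hf (Hc n Q) (1 / α i)) ℓ := by
      funext a
      rcases a with ⟨i, _ | j⟩
      · rfl
      · exact evc_hf _ _
    rw [h3]
    exact yp_mem (fun i => form_c hQ (hz i)) ℓ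
  · intro y hy j
    obtain ⟨g', hg', h4⟩ := hy j
    have h5 : (fun i => y (j, some i)) = fun i => g' (ix n i).1 (ix n i).2 := h4
    rw [h5]
    exact mem_Vc hQ (hz j) hg'
  · exact (MvPolynomial.totalDegree_rename_le _ _).trans hMV.2
  · intro s
    have hinj : Function.Injective (cf2 (k := k) (n := n)) := by
      rintro ⟨i, a⟩ ⟨j, b⟩ hab
      simp only [cf2, Prod.mk.injEq] at hab
      obtain ⟨rfl, rfl⟩ := hab
      rfl
    by_cases hs : ∃ s', s = Finsupp.mapDomain cf2 s'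
    · obtain ⟨s', rfl⟩ := hs
      rw [MvPolynomial.coeff_rename_mapDomain _ hinj]
      exact Vn_span L (n := fun _ : Fin k => n) Ω (V := W) (V' := V) (fun v hv => hv) δ _ (hMV.1 s')
    · rw [MvPolynomial.coeff_rename_eq_zero]
      · exact Submodule.zero_mem _
      · intro u hu
        exact absurd ⟨u, hu.symm⟩ hs
  · have h3 : Pool.Agent.Y916.Af.ptc (hf n Q) α ℓ = yp (fun i => Hf (Hc n Q) (1 / α i)) ℓ := by
      funext a
      rcases a with ⟨i, _ | j⟩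
      · rfl
      · exact evc_hf _ _
    rw [h3, aeval_yp]
    exact hP0
  · refine ⟨yp (fun i => g i * E (cm (Am n)) (l i)) l, yp_mem (fun i => isom_mul (hg i) (hEiso (l i))) l, ?_⟩
    rw [aeval_yp]
    have h4 : (fun i => g i * E (cm (Am n)) (l i) * E (cm (Am n)) (-l i) * Ω i) = fun i => g i * Ω i := by
      funext i
      have e1 : E (cm (Am n)) (l i) * E (cm (Am n)) (-l i) = 1 := E_mul_neg hN (l i)
      rw [Matrix.mul_assoc (g i), e1, mul_one]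
    rw [h4]
    exact hPg

/-- **almost all tuples of algebraic integers of bounded degree** -/
theorem tup_hyp (hQ : QD n Q) (hH : ∀ i j, SDc (Hp n Q i j)) (k m δ d D : ℕ) (hm : 1 ≤ m) :
    ∃ c : ℝ, 0 < c ∧ ∃ C : ℝ, 0 ≤ C ∧ ∀ V : Submodule ℚ ℂ, Module.Finite ℚ V → Module.finrank ℚ V ≤ D →
      ∀ (Ω : Fin k → Matrix (Fin n) (Fin n) ℂ) (T : ℕ), 1 ≤ T →
      {α : Fin k → ℂ | (∀ i, Pool.Agent.Y916.Sl.SInt m T (α i)) ∧ ExcH n Q δ d V Ω α}.Finite ∧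
      ({α : Fin k → ℂ | (∀ i, Pool.Agent.Y916.Sl.SInt m T (α i)) ∧ ExcH n Q δ d V Ω α}.ncard : ℝ) ≤
        C * (T : ℝ) ^ (-c) * ({ξ : ℂ | Pool.Agent.Y916.Sl.SInt m T ξ}.ncard : ℝ) ^ k := by
  classical
  obtain ⟨δ₁, c, hc, C, hC, h1⟩ := Pool.Agent.Y916.Af.tupDs (nrh_hf hQ hH) (sz_hf hQ hH) k m
    (δ * dg (fun _ : Fin k => n)) d ((Fintype.card (Option (Ix (fun _ : Fin k => n)))) ^ δ * D)
  obtain ⟨c₁, hc₁, hmany⟩ := Pool.Agent.Y916.Sl.many m hm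
  obtain ⟨C₂, hC₂, h₂⟩ := Pool.Agent.Y916.Af.small_tuples m k 1 le_rfl
  refine ⟨min c 1, lt_min hc one_pos, (C + C₂) / c₁ ^ k, by positivity, fun V hV hVD Ω T hT => ?_⟩
  have hT1 : (1 : ℝ) ≤ T := by exact_mod_cast hT
  obtain ⟨hfin, hrank⟩ := Vn_fin (n := fun _ : Fin k => n) Ω V δ
  obtain ⟨h2, h3⟩ := h1 (Vn (n := fun _ : Fin k => n) Ω V δ) hfin (hrank.trans (Nat.mul_le_mul_left _ hVD)) T hT
  have h4 := h₂ T hT
  set B2 := (Fintype.piFinset fun _ : Fin k => Pool.Agent.Y916.Sl.NF m T).filter fun α => ∃ i, ‖α i‖ ≤ (1 : ℕ) with hB2'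
  set X := {α : Fin k → ℂ | (∀ i, Pool.Agent.Y916.Sl.AInt m T (α i)) ∧ Pool.Agent.Y916.Af.ExcD δ₁ (hf n Q)
    (δ * dg (fun _ : Fin k => n)) d (Vn (n := fun _ : Fin k => n) Ω V δ) α} with hX
  have hsub : {α : Fin k → ℂ | (∀ i, Pool.Agent.Y916.Sl.SInt m T (α i)) ∧ ExcH n Q δ d V Ω α} ⊆
      X ∪ (B2 : Set (Fin k → ℂ)) := by
    rintro α ⟨hα, hE⟩
    by_cases hs : ∃ i, ‖α i‖ ≤ (1 : ℕ)
    · right
      rw [hB2', Finset.mem_coe, Finset.mem_filter, Fintype.mem_piFinset]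
      exact ⟨fun i => Pool.Agent.Y916.Sl.mem_NF.2 (Pool.Agent.Y916.Sl.SInt.aint (hα i)), hs⟩
    · left
      push Not at hs
      refine ⟨fun i => Pool.Agent.Y916.Sl.SInt.aint (hα i), exc_of hQ δ₁ (fun i => by simpa using hs i) hE⟩
  have hfin2 : (X ∪ (B2 : Set (Fin k → ℂ))).Finite := h2.union (Finset.finite_toSet _)
  refine ⟨hfin2.subset hsub, ?_⟩
  have h5 := (Set.ncard_le_ncard hsub hfin2).trans (Set.ncard_union_le _ _)
  rw [Set.ncard_coe_finset] at h5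
  have h6 : (T : ℝ) ^ (((k * Pool.Agent.Y916.Sl.Mm m : ℕ) : ℝ) - c) ≤
      (T : ℝ) ^ (((k * Pool.Agent.Y916.Sl.Mm m : ℕ) : ℝ) - min c 1) :=
    Real.rpow_le_rpow_of_exponent_le hT1 (by linarith [min_le_left c 1])
  have h7 : (T : ℝ) ^ (((k * Pool.Agent.Y916.Sl.Mm m : ℕ) : ℝ) - 1) ≤
      (T : ℝ) ^ (((k * Pool.Agent.Y916.Sl.Mm m : ℕ) : ℝ) - min c 1) :=
    Real.rpow_le_rpow_of_exponent_le hT1 (by linarith [min_le_right c 1])
  have h8 : ({α : Fin k → ℂ | (∀ i, Pool.Agent.Y916.Sl.SInt m T (α i)) ∧ ExcH n Q δ d V Ω α}.ncard : ℝ) ≤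
      (C + C₂) * (T : ℝ) ^ (((k * Pool.Agent.Y916.Sl.Mm m : ℕ) : ℝ) - min c 1) := by
    calc ({α : Fin k → ℂ | (∀ i, Pool.Agent.Y916.Sl.SInt m T (α i)) ∧ ExcH n Q δ d V Ω α}.ncard : ℝ) ≤
          (X.ncard : ℝ) + B2.card := by exact_mod_cast h5
      _ ≤ C * (T : ℝ) ^ (((k * Pool.Agent.Y916.Sl.Mm m : ℕ) : ℝ) - min c 1) +
          C₂ * (T : ℝ) ^ (((k * Pool.Agent.Y916.Sl.Mm m : ℕ) : ℝ) - min c 1) :=
          add_le_add (h3.trans (mul_le_mul_of_nonneg_left h6 hC)) (h4.trans (mul_le_mul_of_nonneg_left h7 hC₂))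
      _ = _ := by ring
  exact h8.trans (Pool.Agent.Y916.Sl.prop_bound hc₁ (by positivity) hT (hmany T hT))

end Pool.Agent.Y119.HA
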