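import Pool.Agent.Y119.HA.Tup

/-!
# Windows of fibres of the hypergeometric family at algebraic points
-/

set_option autoImplicit false

open Matrix PowerSeries Pool.Agent.Y113 Pool.Agent.Y120.GF Pool.Agent.Y120.GH Pool.Agent.Y119.HZ

namespace Pool.Agent.Y119.HA

open Pool.Agent.Y119.HY (QD Am Jm cm E Hf Hc E_isom E_mul_neg)
open Pool.Agent.Y916.Al (Ht)

variable {n : ℕ} {Q : Polynomial ℚ} {k : ℕ}

/-- the degree of a substitution -/
theorem aeval_degm {K : Type*} [CommRing K] {σ τ : Type*} {δ e : ℕ} (f : σ → MvPolynomial τ K)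
    (hf : ∀ i, (f i).totalDegree ≤ e) (P : MvPolynomial σ K) (hP : P.totalDegree ≤ δ) :
    (MvPolynomial.aeval f P).totalDegree ≤ δ * e := by
  classical
  rw [MvPolynomial.aeval_def, MvPolynomial.eval₂_eq]
  refine (MvPolynomial.totalDegree_finsetSum _ _).trans (Finset.sup_le fun s hs => ?_)
  refine (MvPolynomial.totalDegree_mul _ _).trans ?_
  have h1 : (algebraMap K (MvPolynomial τ K) (P.coeff s)).totalDegree = 0 := MvPolynomial.totalDegree_C _
  rw [h1, zero_add]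
  refine (MvPolynomial.totalDegree_finsetProd _ _).trans ?_
  calc ∑ i ∈ s.support, (f i ^ s i).totalDegree ≤ ∑ i ∈ s.support, s i * e :=
        Finset.sum_le_sum fun i _ => (MvPolynomial.totalDegree_pow _ _).trans (Nat.mul_le_mul_left _ (hf i))
    _ = (∑ i ∈ s.support, s i) * e := (Finset.sum_mul _ _ _).symm
    _ ≤ δ * e := Nat.mul_le_mul_right _ ((MvPolynomial.le_totalDegree hs).trans hP)

/-- the variables: the entries of `Ω`, further constants, the logarithms and the entries of the period matrices -/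
abbrev Cx (n q k : ℕ) : Type := (Fin n × Fin n ⊕ Fin q) ⊕ Jx (fun _ : Fin k => n)

/-- the point -/
def cpt {q : ℕ} (Ω : Matrix (Fin n) (Fin n) ℂ) (w : Fin q → ℂ) (l : Fin k → ℂ) (X : Fin k → Matrix (Fin n) (Fin n) ℂ) :
    Cx n q k → ℂ := Sum.elim (Sum.elim (fun p => Ω p.1 p.2) w) (pw (n := fun _ : Fin k => n) l X)

/-- the substitution -/
noncomputable def sK (K : Type) [Field K] [Algebra ℚ K] (n q k : ℕ) :
    Cx n q k → MvPolynomial ((Fin (n * n) ⊕ Fin q) ⊕ Fin k × Option (Fin (n * n))) K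
  | Sum.inl (Sum.inl p) => MvPolynomial.X (Sum.inl (Sum.inl ((ix n).symm p)))
  | Sum.inl (Sum.inr i) => MvPolynomial.X (Sum.inl (Sum.inr i))
  | Sum.inr ⟨j, none⟩ => MvPolynomial.X (Sum.inr (j, none))
  | Sum.inr ⟨j, some p⟩ => ∑ c, ∑ d, MvPolynomial.X (Sum.inr (j, some ((ix n).symm (p.1, c)))) *
      (∑ l ∈ Finset.range n, MvPolynomial.C (algebraMap ℚ K (qe n l c d)) * MvPolynomial.X (Sum.inr (j, none)) ^ l) *
      MvPolynomial.X (Sum.inl (Sum.inl ((ix n).symm (d, p.2))))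

theorem sK_deg (K : Type) [Field K] [Algebra ℚ K] (n q k : ℕ) (v : Cx n q k) : (sK K n q k v).totalDegree ≤ n + 2 := by
  rcases v with (p | i) | ⟨j, _ | p⟩
  · show (MvPolynomial.X _ : MvPolynomial _ K).totalDegree ≤ _
    rw [MvPolynomial.totalDegree_X]
    omega
  · show (MvPolynomial.X _ : MvPolynomial _ K).totalDegree ≤ _
    rw [MvPolynomial.totalDegree_X]
    omega
  · show (MvPolynomial.X _ : MvPolynomial _ K).totalDegree ≤ _
    rw [MvPolynomial.totalDegree_X]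
    omega
  · refine (MvPolynomial.totalDegree_finsetSum _ _).trans (Finset.sup_le fun c _ => ?_)
    refine (MvPolynomial.totalDegree_finsetSum _ _).trans (Finset.sup_le fun d _ => ?_)
    refine (MvPolynomial.totalDegree_mul _ _).trans ?_
    rw [MvPolynomial.totalDegree_X]
    have h2 : (∑ l ∈ Finset.range n, MvPolynomial.C (algebraMap ℚ K (qe n l c d)) *
        (MvPolynomial.X (Sum.inr (j, none)) : MvPolynomial ((Fin (n * n) ⊕ Fin q) ⊕ Fin k × Option (Fin (n * n))) K) ^ l).totalDegree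
        ≤ n := by
      refine (MvPolynomial.totalDegree_finsetSum _ _).trans (Finset.sup_le fun l hl => ?_)
      refine (MvPolynomial.totalDegree_mul _ _).trans ?_
      rw [MvPolynomial.totalDegree_C, zero_add, MvPolynomial.totalDegree_X_pow]
      exact (Finset.mem_range.1 hl).le
    have h3 := MvPolynomial.totalDegree_mul (MvPolynomial.X (Sum.inr (j, some ((ix n).symm (p.1, c)))) :
      MvPolynomial ((Fin (n * n) ⊕ Fin q) ⊕ Fin k × Option (Fin (n * n))) K) (∑ l ∈ Finset.range n,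
        MvPolynomial.C (algebraMap ℚ K (qe n l c d)) * MvPolynomial.X (Sum.inr (j, none)) ^ l)
    rw [MvPolynomial.totalDegree_X] at h3
    omega

theorem sK_val (K : IntermediateField ℚ ℂ) {q : ℕ} (Ω : Matrix (Fin n) (Fin n) ℂ) (w : Fin q → ℂ) (l : Fin k → ℂ)
    (Z : Fin k → Matrix (Fin n) (Fin n) ℂ) (v : Cx n q k) :
    MvPolynomial.aeval (Sum.elim (Sum.elim (fun a => Ω (ix n a).1 (ix n a).2) w) (yp Z l)) (sK K n q k v) =
      cpt Ω w l (fun i => Z i * E (cm (Am n)) (-l i) * Ω) v := by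
  rcases v with (p | i) | ⟨j, _ | p⟩
  · show MvPolynomial.aeval _ (MvPolynomial.X _) = Ω p.1 p.2
    rw [MvPolynomial.aeval_X]
    show Ω (ix n ((ix n).symm p)).1 (ix n ((ix n).symm p)).2 = _
    rw [Equiv.apply_symm_apply]
  · show MvPolynomial.aeval _ (MvPolynomial.X _) = w i
    rw [MvPolynomial.aeval_X]
    rfl
  · show MvPolynomial.aeval _ (MvPolynomial.X _) = l j
    rw [MvPolynomial.aeval_X]
    rfl
  · show MvPolynomial.aeval _ (∑ c, ∑ d, MvPolynomial.X (Sum.inr (j, some ((ix n).symm (p.1, c)))) *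
      (∑ l ∈ Finset.range n, MvPolynomial.C (algebraMap ℚ K (qe n l c d)) * MvPolynomial.X (Sum.inr (j, none)) ^ l) *
      MvPolynomial.X (Sum.inl (Sum.inl ((ix n).symm (d, p.2))))) = (Z j * E (cm (Am n)) (-l j) * Ω) p.1 p.2
    rw [map_sum, Matrix.mul_apply]
    simp only [Matrix.mul_apply, Finset.sum_mul]
    rw [Finset.sum_comm]
    refine Finset.sum_congr rfl fun c _ => ?_
    rw [map_sum]
    refine Finset.sum_congr rfl fun d _ => ?_
    rw [map_mul, map_mul, map_sum, MvPolynomial.aeval_X, MvPolynomial.aeval_X, E_qe]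
    congr 1
    · congr 1
      · show Z j (ix n ((ix n).symm (p.1, c))).1 (ix n ((ix n).symm (p.1, c))).2 = _
        rw [Equiv.apply_symm_apply]
      · refine Finset.sum_congr rfl fun e _ => ?_
        rw [map_mul, map_pow, MvPolynomial.aeval_X, MvPolynomial.aeval_C]
        rfl
    · show Ω (ix n ((ix n).symm (d, p.2))).1 (ix n ((ix n).symm (d, p.2))).2 = _
      rw [Equiv.apply_symm_apply]

theorem sK_aeval (K : IntermediateField ℚ ℂ) {q : ℕ} (Ω : Matrix (Fin n) (Fin n) ℂ) (w : Fin q → ℂ) (l : Fin k → ℂ)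
    (Z : Fin k → Matrix (Fin n) (Fin n) ℂ) (P : MvPolynomial (Cx n q k) K) :
    MvPolynomial.aeval (Sum.elim (Sum.elim (fun a => Ω (ix n a).1 (ix n a).2) w) (yp Z l))
      (MvPolynomial.aeval (sK K n q k) P) = MvPolynomial.aeval (cpt Ω w l (fun i => Z i * E (cm (Am n)) (-l i) * Ω)) P := by
  have h2 : MvPolynomial.aeval (Sum.elim (Sum.elim (fun a => Ω (ix n a).1 (ix n a).2) w) (yp Z l))
      (MvPolynomial.aeval (sK K n q k) P) = MvPolynomial.aeval (fun v => MvPolynomial.aeval (Sum.elim (Sum.elim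
        (fun a => Ω (ix n a).1 (ix n a).2) w) (yp Z l)) (sK K n q k v)) P := MvPolynomial.aeval_bind₁ _ _ _
  rw [h2]
  simp only [sK_val]

/-- **windows** -/
theorem win_hyp (hQ : QD n Q) (hH : ∀ i j, SDc (Hp n Q i j)) :
    ∃ G0 : ℕ, 1 ≤ G0 ∧ ∀ G : ℕ, G0 ≤ G → ∀ (Ω : Matrix (Fin n) (Fin n) ℂ) (q k m d δ A : ℕ), ∃ Ex : ℕ, ∀ (H : ℕ) (ξ : ℂ),
      ((H : ℝ) + 2) ^ Ex ≤ ‖ξ‖ → Ht m A ξ → ∀ w : Fin q → ℂ, ∃ S : Finset ℕ,
      (S.card : Cardinal) ≤ Algebra.trdeg ℚ (IntermediateField.adjoin ℚ (insert (2 * Real.pi * Complex.I)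
        (Set.range fun p : Fin n × Fin n => Ω p.1 p.2))) + q + 1 ∧
      ∀ u : Fin k → ℕ, Function.Injective u → (∀ j, 1 ≤ u j ∧ u j ≤ H ∧ u j ∉ S) →
      (∀ j, 1 < ‖ξ - ((G * u j : ℕ) : ℂ)‖) ∧
      ∀ ℓ : Fin k → ℂ, (∀ j, Complex.exp (ℓ j) = ξ - ((G * u j : ℕ) : ℂ)) →
      ∀ K : IntermediateField ℚ ℂ, FiniteDimensional ℚ K → Module.finrank ℚ K ≤ d →
      ∀ P : MvPolynomial (Cx n q k) K, P.totalDegree ≤ δ →
      MvPolynomial.aeval (cpt Ω w ℓ (fun j => Hf (Hc n Q) (1 / (ξ - ((G * u j : ℕ) : ℂ))) * E (cm (Am n)) (-ℓ j) * Ω)) P = 0 →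
      ∀ (l : Fin k → ℂ) (g : Fin k → Matrix (Fin n) (Fin n) ℂ),
      (∀ j, (g j).transpose * cm (Jm n Q) * g j = cm (Jm n Q)) →
      MvPolynomial.aeval (cpt Ω w l (fun j => g j * Ω)) P = 0 := by
  classical
  obtain ⟨G0, hG0, hW⟩ := Pool.Agent.Y916.Af.winDs (nrh_hf hQ hH) (sz_hf hQ hH)
  refine ⟨G0, hG0, fun G hG Ω q k m d δ A => ?_⟩
  obtain ⟨δ₁, Ex, h1⟩ := hW G hG (n * n) (fun a => Ω (ix n a).1 (ix n a).2) q k m d (δ * (n + 2)) A
  have hG1 : 1 ≤ G := hG0.trans hG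
  have hGR : (1 : ℝ) ≤ G := by exact_mod_cast hG1
  refine ⟨Ex + G + 2, fun H ξ hξ hHt w => ?_⟩
  have hH0 : (0 : ℝ) ≤ H := Nat.cast_nonneg H
  have hH2 : (2 : ℝ) ≤ (H : ℝ) + 2 := by linarith
  have hH1 : (1 : ℝ) ≤ (H : ℝ) + 2 := by linarith
  have hGp : (G : ℝ) ≤ ((H : ℝ) + 2) ^ G := by
    refine le_trans ?_ (pow_le_pow_left₀ (by norm_num) hH2 G)
    exact_mod_cast (Nat.lt_two_pow_self (n := G)).le
  have hbig : (G : ℝ) * (H + 2) * (H + 2) ≤ ‖ξ‖ := by
    refine le_trans ?_ ((pow_le_pow_right₀ hH1 (by omega : G + 2 ≤ Ex + G + 2)).trans hξ)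
    rw [pow_add, pow_two, mul_assoc]
    exact mul_le_mul_of_nonneg_right hGp (by positivity)
  obtain ⟨S, hS, h2⟩ := h1 H ξ ((pow_le_pow_right₀ hH1 (by omega : Ex ≤ Ex + G + 2)).trans hξ) hHt w
  have hrange : Set.range (fun a => Ω (ix n a).1 (ix n a).2) = Set.range fun p : Fin n × Fin n => Ω p.1 p.2 := by
    ext x
    constructor
    · rintro ⟨a, rfl⟩
      exact ⟨ix n a, rfl⟩
    · rintro ⟨p, rfl⟩
      exact ⟨(ix n).symm p, by simp⟩
  rw [hrange] at hS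
  refine ⟨S, hS, fun u hu hub => ?_⟩
  have hα : ∀ j, 1 < ‖ξ - ((G * u j : ℕ) : ℂ)‖ := by
    intro j
    have h5 := norm_sub_norm_le ξ ((G * u j : ℕ) : ℂ)
    rw [Complex.norm_natCast] at h5
    have h6 : ((G * u j : ℕ) : ℝ) ≤ G * H := by
      push_cast
      exact mul_le_mul_of_nonneg_left (by exact_mod_cast (hub j).2.1) (by linarith)
    nlinarith
  refine ⟨hα, fun ℓ hℓ K hKf hKd P hPd hP0 l g hg => ?_⟩
  have hz : ∀ j, ‖1 / (ξ - ((G * u j : ℕ) : ℂ))‖ < 1 := by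
    intro j
    rw [norm_div, norm_one, div_lt_one (by linarith [hα j])]
    exact hα j
  have hN : cm (Am n) ^ n = 0 := Pool.Agent.Y119.HY.Ac_nil
  have hEiso : ∀ s : ℂ, (E (cm (Am n)) s).transpose * cm (Jm n Q) * E (cm (Am n)) s = cm (Jm n Q) :=
    fun s => E_isom hN Pool.Agent.Y119.HY.Jc_rel s
  have h3 : Pool.Agent.Y916.Af.ptc (hf n Q) (fun j => ξ - ((G * u j : ℕ) : ℂ)) ℓ =
      yp (fun j => Hf (Hc n Q) (1 / (ξ - ((G * u j : ℕ) : ℂ)))) ℓ := by
    funext a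
    rcases a with ⟨i, _ | j⟩
    · rfl
    · exact evc_hf _ _
  have h4 := h2 u hu hub ℓ hℓ (Ys k n Q) (ys_irr hQ δ₁) (by
    rw [h3]
    exact yp_mem (fun i => form_c hQ (hz i)) ℓ) (by
    intro y hy j
    obtain ⟨g', hg', h4⟩ := hy j
    have h5 : (fun i => y (j, some i)) = fun i => g' (ix n i).1 (ix n i).2 := h4
    rw [h5]
    exact mem_Vc hQ (hz j) hg') K hKf hKd (MvPolynomial.aeval (sK K n q k) P) (aeval_degm _ (sK_deg K n q k) P hPd) (by
    rw [h3, sK_aeval]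
    exact hP0) (yp (fun i => g i * E (cm (Am n)) (l i)) l) (yp_mem (fun i => isom_mul (hg i) (hEiso (l i))) l)
  rw [sK_aeval] at h4
  have h6 : (fun i => g i * E (cm (Am n)) (l i) * E (cm (Am n)) (-l i) * Ω) = fun i => g i * Ω := by
    funext i
    have e1 : E (cm (Am n)) (l i) * E (cm (Am n)) (-l i) = 1 := E_mul_neg hN (l i)
    rw [Matrix.mul_assoc (g i), e1, mul_one]
  rw [h6] at h4
  exact h4

end Pool.Agent.Y119.HA
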