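import Pool.Agent.Y119.HA.AsmW
import Pool.Agent.Y113.MT.Win2

/-!
# The windows theorems at algebraic points (port of `Pool.Agent.Y113.MT.Win2` of helper113)
-/

set_option autoImplicit false
set_option maxHeartbeats 400000

open Matrix PowerSeries Pool.Agent.Y119.HY Pool.Agent.Y119.HZ Pool.Agent.Y118.CM Pool.Agent.Y113.MT
open Pool.Agent.Y916.Al (Ht)

namespace Pool.Agent.Y119.HA

section
variable {m : ℕ} {β : Fin m → ℚ}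

/-- the windows theorem for a fixed base change -/
theorem win_fix_x (hm : 2 ≤ m) (hβ : ∀ j, ∀ a : ℤ, β j ≠ a) : ∃ G0 : ℕ, 1 ≤ G0 ∧ ∀ G : ℕ, G0 ≤ G → ∀ g₀ A₀ : ℕ,
    ∀ C : Matrix (Fin (2 * m)) (Fin (2 * m)) ℂ, ∃ E : ℕ, ∀ (H : ℕ) (ξ : ℂ), ((H : ℝ) + 2) ^ E ≤ ‖ξ‖ →
      (∀ u ≤ H, 2 ≤ ‖ξ - ((G * u : ℕ) : ℂ)‖) ∧ (Ht g₀ A₀ ξ → ∃ S : Finset ℕ, (S.card : Cardinal) ≤ Algebra.trdeg ℚ (IntermediateField.adjoin ℚ
        (Set.range fun z : Fin (2 * m) × Fin (2 * m) => C z.1 z.2)) ∧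
      ∀ u : ℕ, 1 ≤ u → u ≤ H → u ∉ S → ∀ (l : ℂ) (M A : Matrix (Fin (2 * m)) (Fin (2 * m)) ℚ) (q κ : ℂ), C.det ≠ 0 →
        q ≠ 0 → C * cq M = q • (NN ℂ (2 * m) * C) → κ ≠ 0 → C * cq A * Cᵀ = κ • SS ℂ (2 * m) →
        Conc_x β (ξ - ((G * u : ℕ) : ℂ)) l C A) := by
  obtain ⟨G0, hG01, hG0⟩ := win_core_x hm hβ
  refine ⟨G0, hG01, fun G hG g₀ A₀ C => ?_⟩
  set Ω : Fin (2 * m * (2 * m)) → ℂ := fun i => C (finProdFinEquiv.symm i).1 (finProdFinEquiv.symm i).2 with hΩ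
  have hΩr : Set.range Ω = Set.range fun z : Fin (2 * m) × Fin (2 * m) => C z.1 z.2 := by
    ext z
    constructor
    · rintro ⟨i, rfl⟩
      exact ⟨finProdFinEquiv.symm i, rfl⟩
    · rintro ⟨i, rfl⟩
      refine ⟨finProdFinEquiv i, ?_⟩
      rw [hΩ]
      simp only [Equiv.symm_apply_apply]
  obtain ⟨E, hE⟩ := hG0 G hG g₀ A₀ (2 * m * (2 * m)) Ω 0
    (fun a _ _ C' _ => ∀ i j, C' i j = a (Sum.inl (finProdFinEquiv (i, j)))) (by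
      intro a q κ C' A h1 _ _ D hD hDa
      refine dmap_zero D fun i j => ?_
      rw [gm_apply]
      have e : (fun k => C' k i j) = fun k => a k (Sum.inl (finProdFinEquiv (i, j))) := funext fun k => h1 k i j
      rw [e]
      exact hDa _)
  refine ⟨E, fun H ξ ht => ?_⟩
  obtain ⟨h1, h2⟩ := hE H ξ ht
  refine ⟨h1, fun hht => ?_⟩
  obtain ⟨S, hS, hS2⟩ := h2 hht Fin.elim0
  refine ⟨S, ?_, fun u hu1 hu2 huS l M A q κ hC hq hM hκ hA =>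
    hS2 u hu1 hu2 huS l C M A q κ (fun i j => ?_) hC hq hM hκ hA⟩
  · rw [hΩr, Nat.cast_zero, add_zero] at hS
    exact hS
  · show C i j = C _ _
    rw [Equiv.symm_apply_apply]

lemma Flx_smul {ξ l : ℂ} {C : Matrix (Fin (2 * m)) (Fin (2 * m)) ℂ} {a : ℂ} (ha : a ≠ 0) (p : ℕ) :
    Flx β ξ l (a • C) p = Flx β ξ l C p := by
  unfold Flx
  apply le_antisymm
  · rw [Submodule.span_le]
    rintro _ ⟨i, hi, rfl⟩
    rw [Matrix.vecMul_smul]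
    exact Submodule.smul_mem _ _ (Submodule.subset_span ⟨i, hi, rfl⟩)
  · rw [Submodule.span_le]
    rintro _ ⟨i, hi, rfl⟩
    have h1 : perx β ξ l i ᵥ* C = a⁻¹ • (perx β ξ l i ᵥ* (a • C)) := by
      rw [Matrix.vecMul_smul, smul_smul, inv_mul_cancel₀ ha, one_smul]
    rw [h1]
    exact Submodule.smul_mem _ _ (Submodule.subset_span ⟨i, hi, rfl⟩)

lemma Conc_x_smul {ξ l : ℂ} {C : Matrix (Fin (2 * m)) (Fin (2 * m)) ℂ} {A : Matrix (Fin (2 * m)) (Fin (2 * m)) ℚ} {a : ℂ}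
    (ha : a ≠ 0) (h : Conc_x β ξ l (a • C) A) : Conc_x β ξ l C A := by
  intro Fil H hFil
  exact h Fil H fun p hp => by rw [hFil p hp, Flx_smul ha]

/-- the uniform windows theorem -/
theorem win_unif_x (nf : S_NF) (td : S_TD) (hm : 2 ≤ m) (hβ : ∀ j, ∀ a : ℤ, β j ≠ a) : ∃ G0 : ℕ, 1 ≤ G0 ∧ ∀ G : ℕ,
    G0 ≤ G → ∀ g₀ A₀ : ℕ, ∃ E : ℕ, ∀ (H : ℕ) (ξ : ℂ), ((H : ℝ) + 2) ^ E ≤ ‖ξ‖ →
      (∀ u ≤ H, 2 ≤ ‖ξ - ((G * u : ℕ) : ℂ)‖) ∧ (Ht g₀ A₀ ξ → ∀ (C : Matrix (Fin (2 * m)) (Fin (2 * m)) ℂ) (M : Matrix (Fin (2 * m)) (Fin (2 * m)) ℚ) (q : ℂ), C.det ≠ 0 → q ≠ 0 →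
      C * cq M = q • (NN ℂ (2 * m) * C) → ∃ S : Finset ℕ, S.card ≤ m + 1 ∧
      ∀ u : ℕ, 1 ≤ u → u ≤ H → u ∉ S → ∀ (l : ℂ) (A : Matrix (Fin (2 * m)) (Fin (2 * m)) ℚ) (κ : ℂ),
        κ ≠ 0 → C * cq A * Cᵀ = κ • SS ℂ (2 * m) → Conc_x β (ξ - ((G * u : ℕ) : ℂ)) l C A) := by
  obtain ⟨G0, hG01, hG0⟩ := win_core_x hm hβ
  refine ⟨G0, hG01, fun G hG g₀ A₀ => ?_⟩
  obtain ⟨E, hE⟩ := hG0 G hG g₀ A₀ 0 Fin.elim0 (m + 1) (fun a q _ C _ => Nrm m a q C)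
    (fun a q κ C A h hκ hA D hD hDa => nrm_kill td h hκ hA D hD hDa)
  refine ⟨E, fun H ξ ht => ?_⟩
  obtain ⟨h1, h2⟩ := hE H ξ ht
  refine ⟨h1, fun hht C M q hC hq hM => ?_⟩
  obtain ⟨a, w, ha, hN⟩ := nrm_exists nf (by omega) hC hq hM
  obtain ⟨S, hS, hS2⟩ := h2 hht w
  refine ⟨S, ?_, fun u hu1 hu2 huS l A κ hκ hA => ?_⟩
  · have h3 : IntermediateField.adjoin ℚ (Set.range (Fin.elim0 : Fin 0 → ℂ)) = ⊥ := by
      rw [IntermediateField.adjoin_eq_bot_iff]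
      rintro _ ⟨i, -⟩
      exact i.elim0
    rw [h3] at hS
    have h4 : Algebra.trdeg ℚ (⊥ : IntermediateField ℚ ℂ) = 0 := trdeg_eq_zero
    rw [h4, zero_add] at hS
    exact_mod_cast hS
  · refine Conc_x_smul ha (hS2 u hu1 hu2 huS l (a • C) M A q (a * a * κ) hN ?_ hq ?_ (mul_ne_zero (mul_ne_zero ha ha) hκ) ?_)
    · rw [Matrix.det_smul]
      exact mul_ne_zero (pow_ne_zero _ ha) hC
    · rw [Matrix.smul_mul, hM, Matrix.mul_smul, smul_comm]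
    · rw [Matrix.transpose_smul, Matrix.smul_mul, Matrix.smul_mul, Matrix.mul_smul, hA, smul_smul, smul_smul]


end

end Pool.Agent.Y119.HA
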